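import Pool.Agent.Lib.MP_5bcdfb_an.VX.Spec

set_option autoImplicit false

namespace Pool.Agent.Lib.MP5bcdfb.VX

open MeasureTheory Set Filter Topology
open Pool.Agent.Lib.MP5bcdfb.TS Pool.Agent.Lib.MP5bcdfb.VV

theorem specBDX (hBDD : TS.SpecBDD) : SpecBDX := by
  intro K _ _ X _ _ V hV hC m
  -- scalar valuations
  have hs : ∀ φ : X →L[ℝ] ℝ, ∃ M : ℝ, ∀ h : C(K, ℝ), 0 ≤ h → (∀ t, h t ≤ m) → |φ (V h)| ≤ M := by
    intro φ
    refine hBDD K (fun h => φ (V h)) ?_ ?_ m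
    · intro f g hf hg
      have := hV f g hf hg
      show φ (V f) + φ (V g) = φ (V (f ⊔ g)) + φ (V (f ⊓ g))
      rw [← map_add, ← map_add, this]
    · intro t x hx
      refine ⟨ContinuousMap.const K x, fun s => hx, rfl, ?_⟩
      intro ε hε
      have hpos : 0 < ε / (‖φ‖ + 1) := by positivity
      obtain ⟨r, hr, h1⟩ := hC (ContinuousMap.const K x) (fun s => hx) (ε / (‖φ‖ + 1)) hpos
      refine ⟨r, hr, fun g hg hgr => ?_⟩
      have h2 := h1 g hg hgr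
      show |φ (V g) - φ (V (ContinuousMap.const K x))| < ε
      rw [← map_sub, ← Real.norm_eq_abs]
      calc ‖φ (V g - V (ContinuousMap.const K x))‖ ≤ ‖φ‖ * ‖V g - V (ContinuousMap.const K x)‖ :=
            φ.le_opNorm _
        _ ≤ ‖φ‖ * (ε / (‖φ‖ + 1)) := by gcongr
        _ < (‖φ‖ + 1) * (ε / (‖φ‖ + 1)) := by gcongr; linarith
        _ = ε := by field_simp
  -- Banach-Steinhaus in the dual
  let ι := {h : C(K, ℝ) // 0 ≤ h ∧ ∀ t, h t ≤ m}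
  have hbs : ∃ C : ℝ, ∀ i : ι, ‖NormedSpace.inclusionInDoubleDual ℝ X (V i.1)‖ ≤ C := by
    refine banach_steinhaus (g := fun i : ι => NormedSpace.inclusionInDoubleDual ℝ X (V i.1)) ?_
    intro φ
    obtain ⟨M, hM⟩ := hs φ
    exact ⟨M, fun i => hM i.1 i.2.1 i.2.2⟩
  obtain ⟨M, hM⟩ := hbs
  refine ⟨M, fun h h0 hm => ?_⟩
  have h1 := hM ⟨h, h0, hm⟩
  have h2 : ‖NormedSpace.inclusionInDoubleDual ℝ X (V h)‖ = ‖V h‖ :=
    (NormedSpace.inclusionInDoubleDualLi ℝ (E := X)).norm_map (V h)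
  rw [← h2]
  exact h1

end Pool.Agent.Lib.MP5bcdfb.VX
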