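import Pool.Agent.Lib.MP_5bcdfb_an.VX.Spec

/-!
# CES: a subsequence with strong Cesaro convergence
-/

set_option autoImplicit false

namespace Pool.Agent.Lib.MP5bcdfb.VX

open MeasureTheory Set Filter Topology

noncomputable section

namespace CESM

lemma bdint {K : Type} [MeasurableSpace K] (μ : Measure K) [IsFiniteMeasure μ] {f : K → ℝ} {C : ℝ}
    (hf : Measurable f) (h : ∀ t, |f t| ≤ C) : Integrable f μ :=
  Integrable.of_bound hf.aestronglyMeasurable C (Eventually.of_forall h)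

lemma absint {K : Type} [MeasurableSpace K] (μ : Measure K) [IsFiniteMeasure μ] {f : K → ℝ} {C : ℝ}
    (h : ∀ t, |f t| ≤ C) : |∫ t, f t ∂μ| ≤ C * μ.real univ := by
  have h1 : ∀ᵐ t ∂μ, ‖f t‖ ≤ C := Eventually.of_forall fun t => by
    rw [Real.norm_eq_abs]
    exact h t
  have h2 := norm_integral_le_of_norm_le_const h1
  rwa [Real.norm_eq_abs] at h2

lemma mul_bd {x y : ℝ} (hx : |x| ≤ 1) (hy : |y| ≤ 1) : |x * y| ≤ 1 := by
  rw [abs_mul]
  calc |x| * |y| ≤ 1 * 1 := mul_le_mul hx hy (abs_nonneg _) zero_le_one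
    _ = 1 := one_mul 1

lemma geom (A : Finset ℕ) : ∑ j ∈ A, (1 / 2 : ℝ) ^ j ≤ 2 := by
  have h1 : Summable fun j : ℕ => (1 / 2 : ℝ) ^ j := summable_geometric_two
  have h2 := h1.sum_le_tsum A (fun j _ => by positivity)
  rwa [tsum_geometric_two] at h2

lemma cnt (A : Finset ℕ) (i : ℕ) {m : ℝ} (hm : 0 ≤ m) :
    ∑ j ∈ A, (if j < i then m else 0) ≤ i * m := by
  rw [← Finset.sum_filter, Finset.sum_const, nsmul_eq_mul]
  refine mul_le_mul_of_nonneg_right ?_ hm
  have h1 : (A.filter fun j => j < i) ⊆ Finset.range i := by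
    intro j hj
    rw [Finset.mem_filter] at hj
    exact Finset.mem_range.2 hj.2
  have h2 := Finset.card_le_card h1
  rw [Finset.card_range] at h2
  exact_mod_cast h2

end CESM

open CESM in
theorem specCES (hWLM : SpecWLM) : SpecCES := by
  intro K _ μ _ u hu1 hu2
  have h1 : ∀ i, ∃ a : K → ℝ, Measurable a ∧ (∀ t, 0 ≤ a t ∧ a t ≤ 1) ∧
      ∀ ψ : K → ℝ, Measurable ψ → (∃ C : ℝ, ∀ t, |ψ t| ≤ C) →
        Tendsto (fun k => ∫ t, u i k t * ψ t ∂μ) (hyperfilter ℕ : Ultrafilter ℕ)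
          (𝓝 (∫ t, a t * ψ t ∂μ)) :=
    fun i => hWLM K μ 1 (u i) zero_le_one (hu1 i) (hu2 i) (hyperfilter ℕ)
  choose p hp1 hp2 hp3 using h1
  obtain ⟨v, hv⟩ : ∃ v : ℕ → ℕ → K → ℝ, ∀ i k t, v i k t = u i k t - p i t :=
    ⟨fun i k t => u i k t - p i t, fun _ _ _ => rfl⟩
  have hv1 : ∀ i k, Measurable (v i k) := by
    intro i k
    have h2 : v i k = fun t => u i k t - p i t := funext fun t => hv i k t
    rw [h2]
    exact (hu1 i k).sub (hp1 i)
  have hv2 : ∀ i k t, |v i k t| ≤ 1 := by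
    intro i k t
    rw [hv, abs_le]
    have h2 := hu2 i k t
    have h3 := hp2 i t
    constructor <;> linarith [h2.1, h2.2, h3.1, h3.2]
  have hlim : ∀ i j, Tendsto (fun k => ∫ t, v i j t * v i k t ∂μ)
      (hyperfilter ℕ : Ultrafilter ℕ) (𝓝 0) := by
    intro i j
    have h2 := (hp3 i (v i j) (hv1 i j) ⟨1, hv2 i j⟩).sub_const (∫ t, p i t * v i j t ∂μ)
    rw [sub_self] at h2
    refine h2.congr fun k => ?_
    have h3 : Integrable (fun t => u i k t * v i j t) μ :=
      bdint μ ((hu1 i k).mul (hv1 i j)) (C := 1) fun t => mul_bd (by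
        rw [abs_le]
        have := hu2 i k t
        constructor <;> linarith [this.1, this.2]) (hv2 i j t)
    have h4 : Integrable (fun t => p i t * v i j t) μ :=
      bdint μ ((hp1 i).mul (hv1 i j)) (C := 1) fun t => mul_bd (by
        rw [abs_le]
        have := hp2 i t
        constructor <;> linarith [this.1, this.2]) (hv2 i j t)
    rw [← integral_sub h3 h4]
    refine integral_congr_ae (Eventually.of_forall fun t => ?_)
    simp only [hv]
    ring
  -- the subsequence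
  obtain ⟨κ, -, hκ⟩ := exists_seq_of_forall_finset_exists (fun _ : ℕ => True)
    (fun x y : ℕ => x < y ∧ ∀ i ≤ x, |∫ t, v i x t * v i y t ∂μ| ≤ (1 / 2 : ℝ) ^ x) (by
      intro s _
      have h2 : ∀ x ∈ s, ∀ᶠ y in ((hyperfilter ℕ : Ultrafilter ℕ) : Filter ℕ),
          x < y ∧ ∀ i ≤ x, |∫ t, v i x t * v i y t ∂μ| ≤ (1 / 2 : ℝ) ^ x := by
        intro x _
        have h3 : ∀ᶠ y in ((hyperfilter ℕ : Ultrafilter ℕ) : Filter ℕ), x < y :=
          Nat.hyperfilter_le_atTop (eventually_gt_atTop x)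
        have h4 : ∀ᶠ y in ((hyperfilter ℕ : Ultrafilter ℕ) : Filter ℕ),
            ∀ i ∈ Finset.range (x + 1), |∫ t, v i x t * v i y t ∂μ| ≤ (1 / 2 : ℝ) ^ x := by
          rw [Filter.eventually_all_finset]
          intro i _
          have h5 := (hlim i x).abs
          rw [abs_zero] at h5
          exact h5.eventually_le_const (by positivity)
        filter_upwards [h3, h4] with y hy1 hy2
        exact ⟨hy1, fun i hi => hy2 i (Finset.mem_range.2 (by omega))⟩
      have h6 := (Filter.eventually_all_finset s).2 h2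
      obtain ⟨y, hy⟩ := h6.exists
      exact ⟨y, trivial, hy⟩)
  have hκm : StrictMono κ := fun a b hab => (hκ a b hab).1
  refine ⟨κ, p, hκm, hp1, hp2, fun i η hη => ?_⟩
  obtain ⟨m, hm⟩ : ∃ m : ℝ, m = μ.real univ := ⟨_, rfl⟩
  have hm0 : 0 ≤ m := by
    rw [hm]
    exact measureReal_nonneg
  obtain ⟨c, hc⟩ : ∃ c : ℕ → ℝ, ∀ j, c j = (1 / 2 : ℝ) ^ j + (if j < i then m else 0) :=
    ⟨_, fun _ => rfl⟩
  have hc0 : ∀ j, 0 ≤ c j := by
    intro j
    rw [hc]
    split_ifs <;> positivity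
  have hlt : ∀ j k, j < k → |∫ t, v i (κ j) t * v i (κ k) t ∂μ| ≤ c j := by
    intro j k hjk
    rw [hc]
    by_cases h : i ≤ κ j
    · have h2 := (hκ j k hjk).2 i h
      have h3 : (1 / 2 : ℝ) ^ κ j ≤ (1 / 2 : ℝ) ^ j :=
        pow_le_pow_of_le_one (by norm_num) (by norm_num) hκm.le_apply
      have h4 : (0 : ℝ) ≤ if j < i then m else 0 := by split_ifs <;> simp [hm0]
      linarith
    · have h2 : j < i := lt_of_le_of_lt hκm.le_apply (not_le.1 h)
      rw [if_pos h2]
      have h3 := absint μ (f := fun t => v i (κ j) t * v i (κ k) t) (C := 1)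
        fun t => mul_bd (hv2 i _ t) (hv2 i _ t)
      rw [one_mul, ← hm] at h3
      have h4 : (0 : ℝ) ≤ (1 / 2 : ℝ) ^ j := by positivity
      linarith
  have hall : ∀ j k, ∫ t, v i (κ j) t * v i (κ k) t ∂μ ≤ (if j = k then m else 0) + c j + c k := by
    intro j k
    refine (le_abs_self _).trans ?_
    rcases lt_trichotomy j k with h | h | h
    · rw [if_neg h.ne]
      linarith [hlt j k h, hc0 k]
    · subst h
      rw [if_pos rfl]
      have h3 := absint μ (f := fun t => v i (κ j) t * v i (κ j) t) (C := 1)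
        fun t => mul_bd (hv2 i _ t) (hv2 i _ t)
      rw [one_mul, ← hm] at h3
      linarith [hc0 j]
    · rw [if_neg h.ne']
      have h3 := hlt k j h
      have h4 : (fun t => v i (κ j) t * v i (κ k) t) = fun t => v i (κ k) t * v i (κ j) t :=
        funext fun t => mul_comm _ _
      rw [h4]
      linarith [hc0 j]
  have hsum : ∀ A : Finset ℕ, ∑ j ∈ A, c j ≤ 2 + i * m := by
    intro A
    simp only [hc, Finset.sum_add_distrib]
    exact add_le_add (geom A) (cnt A i hm0)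
  obtain ⟨C, hC⟩ : ∃ C : ℝ, C = m + 2 * (2 + i * m) := ⟨_, rfl⟩
  have hC0 : 0 ≤ C := by
    rw [hC]
    positivity
  have hsq : ∀ A : Finset ℕ, ∫ t, (∑ k ∈ A, v i (κ k) t) ^ 2 ∂μ ≤ A.card * C := by
    intro A
    have h2 : ∀ t, (∑ k ∈ A, v i (κ k) t) ^ 2 =
        ∑ j ∈ A, ∑ k ∈ A, v i (κ j) t * v i (κ k) t := by
      intro t
      rw [sq, Finset.sum_mul_sum]
    have h3 : ∀ j k, Integrable (fun t => v i (κ j) t * v i (κ k) t) μ := fun j k =>
      bdint μ ((hv1 i _).mul (hv1 i _)) (C := 1) fun t => mul_bd (hv2 i _ t) (hv2 i _ t)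
    simp only [h2]
    rw [integral_finsetSum _ fun j _ => integrable_finsetSum _ fun k _ => h3 j k]
    simp only [integral_finsetSum A fun k _ => h3 _ k]
    calc ∑ j ∈ A, ∑ k ∈ A, ∫ t, v i (κ j) t * v i (κ k) t ∂μ
        ≤ ∑ j ∈ A, ∑ k ∈ A, ((if j = k then m else 0) + c j + c k) :=
          Finset.sum_le_sum fun j _ => Finset.sum_le_sum fun k _ => hall j k
      _ = ∑ j ∈ A, (m + A.card * c j + ∑ k ∈ A, c k) := by
          refine Finset.sum_congr rfl fun j hj => ?_
          rw [Finset.sum_add_distrib, Finset.sum_add_distrib, Finset.sum_ite_eq, if_pos hj,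
            Finset.sum_const, nsmul_eq_mul]
      _ = A.card * m + A.card * ∑ j ∈ A, c j + A.card * ∑ k ∈ A, c k := by
          rw [Finset.sum_add_distrib, Finset.sum_add_distrib, Finset.sum_const, nsmul_eq_mul,
            Finset.sum_const, nsmul_eq_mul, Finset.mul_sum]
      _ ≤ A.card * m + A.card * (2 + i * m) + A.card * (2 + i * m) := by
          have h4 := hsum A
          have h5 : (0 : ℝ) ≤ A.card := Nat.cast_nonneg _
          have h6 := mul_le_mul_of_nonneg_left h4 h5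
          linarith
      _ = A.card * C := by
          rw [hC]
          ring
  -- the choice of the bound
  obtain ⟨δ, hδ⟩ : ∃ δ : ℝ, δ = η / (2 * (m + 1)) := ⟨_, rfl⟩
  have hδ0 : 0 < δ := by
    rw [hδ]
    positivity
  have hδm : δ * m ≤ η / 2 := by
    rw [hδ, div_mul_eq_mul_div, div_le_iff₀ (by positivity)]
    nlinarith
  obtain ⟨n₀, hn₀⟩ := exists_nat_gt (2 * C / (δ * η))
  refine ⟨n₀ + 1, fun A hA => ?_⟩
  have hn1 : (0 : ℝ) < A.card := by
    have : 0 < A.card := by omega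
    exact_mod_cast this
  have hn2 : 2 * C / (δ * η) ≤ A.card := by
    have : (n₀ : ℝ) ≤ A.card := by
      have : n₀ ≤ A.card := by omega
      exact_mod_cast this
    linarith
  have hS1 : Measurable fun t => ∑ k ∈ A, v i (κ k) t :=
    Finset.measurable_fun_sum A fun k _ => hv1 i (κ k)
  have hS2 : ∀ t, |∑ k ∈ A, v i (κ k) t| ≤ A.card := by
    intro t
    refine (Finset.abs_sum_le_sum_abs _ _).trans ?_
    refine (Finset.sum_le_sum fun k _ => hv2 i (κ k) t).trans ?_
    simp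
  have hpt : ∀ t, |(∑ k ∈ A, u i (κ k) t) / (A.card : ℝ) - p i t| ≤
      δ + (1 / (δ * (A.card : ℝ) ^ 2)) * (∑ k ∈ A, v i (κ k) t) ^ 2 := by
    intro t
    have h2 : (∑ k ∈ A, u i (κ k) t) / (A.card : ℝ) - p i t =
        (∑ k ∈ A, v i (κ k) t) / A.card := by
      simp only [hv, Finset.sum_sub_distrib, Finset.sum_const, nsmul_eq_mul]
      field_simp
    rw [h2]
    obtain ⟨x, hx⟩ : ∃ x : ℝ, x = (∑ k ∈ A, v i (κ k) t) / A.card := ⟨_, rfl⟩
    have h3 : (1 / (δ * (A.card : ℝ) ^ 2)) * (∑ k ∈ A, v i (κ k) t) ^ 2 = x ^ 2 / δ := by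
      rw [hx]
      field_simp
    rw [h3, ← hx]
    have h4 : |x| * δ ≤ δ ^ 2 + x ^ 2 := by
      nlinarith [sq_abs x, sq_nonneg (|x| - δ), sq_nonneg (|x|), sq_nonneg δ]
    have h5 : δ + x ^ 2 / δ = (δ ^ 2 + x ^ 2) / δ := by
      field_simp
    rw [h5, le_div_iff₀ hδ0]
    exact h4
  have hI1 : Integrable (fun t => (∑ k ∈ A, v i (κ k) t) ^ 2) μ := by
    refine bdint μ (hS1.pow_const 2) (C := (A.card : ℝ) ^ 2) fun t => ?_
    rw [abs_pow]
    exact pow_le_pow_left₀ (abs_nonneg _) (hS2 t) 2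
  have hI2 : Integrable (fun t => δ + (1 / (δ * (A.card : ℝ) ^ 2)) *
      (∑ k ∈ A, v i (κ k) t) ^ 2) μ := (integrable_const δ).add (hI1.const_mul _)
  calc ∫ t, |(∑ k ∈ A, u i (κ k) t) / (A.card : ℝ) - p i t| ∂μ
      ≤ ∫ t, (δ + (1 / (δ * (A.card : ℝ) ^ 2)) * (∑ k ∈ A, v i (κ k) t) ^ 2) ∂μ :=
        integral_mono_of_nonneg (Eventually.of_forall fun t => abs_nonneg _) hI2
          (Eventually.of_forall hpt)
    _ = δ * m + (1 / (δ * (A.card : ℝ) ^ 2)) * ∫ t, (∑ k ∈ A, v i (κ k) t) ^ 2 ∂μ := by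
        rw [integral_add (integrable_const δ) (hI1.const_mul _), integral_const,
          integral_const_mul, smul_eq_mul, ← hm, mul_comm δ m]
    _ ≤ δ * m + (1 / (δ * (A.card : ℝ) ^ 2)) * (A.card * C) := by
        have h2 := mul_le_mul_of_nonneg_left (hsq A)
          (by positivity : (0 : ℝ) ≤ 1 / (δ * (A.card : ℝ) ^ 2))
        linarith
    _ = δ * m + C / (δ * A.card) := by
        field_simp
    _ ≤ η / 2 + η / 2 := by
        refine add_le_add hδm ?_
        rw [div_le_iff₀ (by positivity)] at hn2 ⊢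
        linarith
    _ = η := by ring

end

end Pool.Agent.Lib.MP5bcdfb.VX
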