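import Pool.Agent.Lib.MP_5bcdfb_an.VX.Spec

/-!
# MP_5bcdfb, module CNX: the valuation into `X` (helper89)
-/

set_option autoImplicit false

namespace Pool.Agent.Lib.MP5bcdfb.VX

open MeasureTheory Set Filter Topology
open Pool.Agent.Lib.MP5bcdfb.TS Pool.Agent.Lib.MP5bcdfb.VV

namespace CNXM

/-- the coefficients are valuations -/
theorem val {D : ℕ} (hTH : ∀ (k : ℕ) (u : ℝ → ℝ), Continuous u → Continuous (fun s => th D k s (u s)))
    (k : ℕ) (u v : ℝ → ℝ) (hu : Continuous u) (hv : Continuous v) :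
    Wu D k u + Wu D k v = Wu D k (fun s => max (u s) (v s)) + Wu D k (fun s => min (u s) (v s)) := by
  have i1 := (hTH k u hu).intervalIntegrable (μ := volume) 0 1
  have i2 := (hTH k v hv).intervalIntegrable (μ := volume) 0 1
  have i3 := (hTH k _ (hu.max hv)).intervalIntegrable (μ := volume) 0 1
  have i4 := (hTH k _ (hu.min hv)).intervalIntegrable (μ := volume) 0 1
  unfold Wu
  rw [← intervalIntegral.integral_add i1 i2, ← intervalIntegral.integral_add i3 i4]
  refine intervalIntegral.integral_congr fun s _ => ?_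
  show th D k s (u s) + th D k s (v s) = th D k s (max (u s) (v s)) + th D k s (min (u s) (v s))
  rcases le_total (u s) (v s) with h | h
  · rw [max_eq_right h, min_eq_left h, add_comm]
  · rw [max_eq_left h, min_eq_right h]

end CNXM

open CNXM in
theorem specCNX (hTHB : SpecTHB) (hSMW : SpecSMW) (hUWS : SpecUWS) : SpecCNX := by
  intro K _ _ γ hγ D hD X _ _ _ x hx
  obtain ⟨h1, -, -, h4, -⟩ := hTHB D (by omega)
  obtain ⟨⟨C, hC, hCx⟩, hsm⟩ := hUWS X x hx
  have hcont : ∀ f : C(K, ℝ), Continuous fun s => f (γ s) := fun f => f.continuous.comp hγ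
  have hsW : ∀ f : C(K, ℝ), Summable fun k => Wu D k (fun s => f (γ s)) := fun f =>
    summable_of_sum_range_le (fun k => ((h4 _ (hcont f)).1 k).1) (h4 _ (hcont f)).2
  have hsum : ∀ f : C(K, ℝ), Summable (fun k => Wu D k (fun s => f (γ s)) • x k) := by
    intro f
    refine Summable.of_norm_bounded ((hsW f).mul_right C) fun k => ?_
    rw [norm_smul, Real.norm_eq_abs, abs_of_nonneg ((h4 _ (hcont f)).1 k).1]
    exact mul_le_mul_of_nonneg_left (hCx k) ((h4 _ (hcont f)).1 k).1
  refine ⟨hsum, ?_, ?_⟩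
  · intro f g _ _
    show (∑' k, Wu D k (fun s => f (γ s)) • x k) + (∑' k, Wu D k (fun s => g (γ s)) • x k) =
      (∑' k, Wu D k (fun s => (f ⊔ g) (γ s)) • x k) + ∑' k, Wu D k (fun s => (f ⊓ g) (γ s)) • x k
    rw [← (hsum f).tsum_add (hsum g), ← (hsum (f ⊔ g)).tsum_add (hsum (f ⊓ g))]
    refine tsum_congr fun k => ?_
    rw [← add_smul, ← add_smul, val h1 k _ _ (hcont f) (hcont g)]
    rfl
  · intro f _ ε hε
    obtain ⟨ρ, hρ, hρ'⟩ := hsm (ε / 2) (by linarith)
    obtain ⟨r, hr, hr'⟩ := hSMW D (fun s => f (γ s)) ρ (by omega) (hcont f) hρ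
    refine ⟨r, hr, fun g _ hgf => ?_⟩
    have h5 : ∀ k, |Wu D k (fun s => g (γ s)) - Wu D k (fun s => f (γ s))| ≤ ρ := by
      refine hr' (fun s => g (γ s)) (hcont g) fun s _ _ => ?_
      have h6 := (g - f).norm_coe_le_norm (γ s)
      rw [Real.norm_eq_abs] at h6
      exact h6.trans hgf.le
    have hs : HasSum (fun k => (Wu D k (fun s => g (γ s)) - Wu D k (fun s => f (γ s))) • x k)
        ((∑' k, Wu D k (fun s => g (γ s)) • x k) - ∑' k, Wu D k (fun s => f (γ s)) • x k) := by
      have h6 := (hsum g).hasSum.sub (hsum f).hasSum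
      refine h6.congr_fun ?_
      intro k
      rw [sub_smul]
    have h7 : ‖(∑' k, Wu D k (fun s => g (γ s)) • x k) - ∑' k, Wu D k (fun s => f (γ s)) • x k‖ ≤
        ε / 2 := by
      refine le_of_tendsto hs.tendsto_sum_nat.norm (Eventually.of_forall fun N => ?_)
      refine hρ' (fun k => Wu D k (fun s => g (γ s)) - Wu D k (fun s => f (γ s))) (Finset.range N)
        (fun k _ => h5 k) ?_
      have h8 : ∀ k ∈ Finset.range N, |Wu D k (fun s => g (γ s)) - Wu D k (fun s => f (γ s))| ≤
          Wu D k (fun s => g (γ s)) + Wu D k (fun s => f (γ s)) := by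
        intro k _
        have e1 := ((h4 _ (hcont g)).1 k).1
        have e2 := ((h4 _ (hcont f)).1 k).1
        rw [abs_le]
        constructor <;> linarith
      refine (Finset.sum_le_sum h8).trans ?_
      rw [Finset.sum_add_distrib]
      have e1 := (h4 _ (hcont g)).2 N
      have e2 := (h4 _ (hcont f)).2 N
      linarith
    exact lt_of_le_of_lt h7 (by linarith)

end Pool.Agent.Lib.MP5bcdfb.VX
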