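import Pool.Agent.Lib.MP_5bcdfb_an.VX.Spec

/-!
Module CTM: a control measure.
-/

set_option autoImplicit false

namespace Pool.Agent.Lib.MP5bcdfb.VX

open MeasureTheory Set Filter Topology
open Pool.Agent.Lib.MP5bcdfb.TS Pool.Agent.Lib.MP5bcdfb.VV

noncomputable section

namespace CTMM

/-- finite unions of sets of the countable basis -/
def FU (K : Type) [TopologicalSpace K] [SecondCountableTopology K] : Set (Set K) :=
  (fun F : Set (Set K) => ⋃₀ F) '' {F | F.Finite ∧ F ⊆ TopologicalSpace.countableBasis K}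

theorem countable_FU (K : Type) [TopologicalSpace K] [SecondCountableTopology K] :
    (FU K).Countable :=
  (countable_ofPred_finite_subset (TopologicalSpace.countable_countableBasis K)).image _

theorem exists_between {K : Type} [TopologicalSpace K] [SecondCountableTopology K]
    {G O : Set K} (hG : IsCompact G) (hO : IsOpen O) (hGO : G ⊆ O) :
    ∃ U ∈ FU K, G ⊆ U ∧ U ⊆ O := by
  have hb := TopologicalSpace.isBasis_countableBasis K
  obtain ⟨b', hb', hfin, hcov⟩ := hG.elim_finite_subcover_image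
    (b := {V | V ∈ TopologicalSpace.countableBasis K ∧ V ⊆ O}) (c := id)
    (fun V hV => hb.isOpen hV.1) (by
      intro x hx
      obtain ⟨V, hV, hxV, hVO⟩ := hb.exists_subset_of_mem_open (hGO hx) hO
      exact mem_iUnion₂.mpr ⟨V, ⟨hV, hVO⟩, hxV⟩)
  refine ⟨⋃₀ b', ⟨b', ⟨hfin, fun V hV => (hb' hV).1⟩, rfl⟩, ?_, ?_⟩
  · intro x hx
    obtain ⟨V, hV, hxV⟩ := mem_iUnion₂.mp (hcov hx)
    exact ⟨V, hV, hxV⟩
  · rintro x ⟨V, hV, hxV⟩
    exact (hb' hV).2 hxV

/-- a countable subset of `S` which is dense for the values on one set -/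
theorem exists_dense {K : Type} [MeasurableSpace K] (S : Set (Measure K)) (U : Set K) :
    ∃ S' ⊆ S, S'.Countable ∧ ∀ lam ∈ S, ∀ ε : ℝ, 0 < ε → ∃ lam' ∈ S',
      |(lam U).toReal - (lam' U).toReal| < ε := by
  obtain ⟨T, hT, hTc, hd⟩ := TopologicalSpace.IsSeparable.exists_countable_dense_subset
    (TopologicalSpace.IsSeparable.of_separableSpace
      ((fun lam : Measure K => (lam U).toReal) '' S))
  have hch : ∀ x ∈ T, ∃ lam ∈ S, (lam U).toReal = x := fun x hx => hT hx
  choose! F hF1 hF2 using hch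
  refine ⟨F '' T, ?_, hTc.image F, ?_⟩
  · rintro _ ⟨x, hx, rfl⟩
    exact hF1 x hx
  · intro lam hlam ε hε
    have hmem := hd ⟨lam, hlam, rfl⟩
    obtain ⟨x, hx, hdist⟩ := Metric.mem_closure_iff.mp hmem ε hε
    refine ⟨F x, ⟨x, hx, rfl⟩, ?_⟩
    rw [hF2 x hx, ← Real.dist_eq]
    exact hdist

theorem exists_sum {K : Type} [MeasurableSpace K] (lam : ℕ → Measure K) (M : ℝ)
    (h : ∀ i, IsFiniteMeasure (lam i) ∧ (lam i univ).toReal ≤ M) :
    ∃ μ : Measure K, IsFiniteMeasure μ ∧ ∀ G : Set K, MeasurableSet G → μ G = 0 →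
      ∀ i, lam i G = 0 := by
  refine ⟨Measure.sum fun i => ((2 : ENNReal)⁻¹ ^ i) • lam i, ⟨?_⟩, ?_⟩
  · rw [Measure.sum_apply _ MeasurableSet.univ]
    have h1 : ∀ i, ((2 : ENNReal)⁻¹ ^ i • lam i) univ ≤ (2 : ENNReal)⁻¹ ^ i * ENNReal.ofReal M := by
      intro i
      have := (h i).1
      rw [Measure.smul_apply, smul_eq_mul]
      refine mul_le_mul_right ?_ _
      rw [← ENNReal.ofReal_toReal (measure_ne_top (lam i) univ)]
      exact ENNReal.ofReal_le_ofReal (h i).2
    refine (ENNReal.tsum_le_tsum h1).trans_lt ?_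
    rw [ENNReal.tsum_mul_right, ENNReal.tsum_geometric, ENNReal.one_sub_inv_two, inv_inv]
    exact ENNReal.mul_lt_top (by simp) ENNReal.ofReal_lt_top
  · intro G hG h0 i
    rw [Measure.sum_apply _ hG, ENNReal.tsum_eq_zero] at h0
    have h1 := h0 i
    rw [Measure.smul_apply, smul_eq_mul, mul_eq_zero] at h1
    rcases h1 with h1 | h1
    · exact absurd h1 (pow_ne_zero i (by simp))
    · exact h1

end CTMM

theorem specCTM : SpecCTM := by
  intro K _ _ _ _ S M hB hR
  rcases S.eq_empty_or_nonempty with rfl | hSne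
  · exact ⟨0, inferInstance, fun G _ _ lam hlam => absurd hlam (notMem_empty lam)⟩
  choose D hDS hDc hDd using fun U : Set K => CTMM.exists_dense S U
  have hS0c : (⋃ U ∈ CTMM.FU K, D U).Countable := (CTMM.countable_FU K).biUnion fun U _ => hDc U
  have hS0S : (⋃ U ∈ CTMM.FU K, D U) ⊆ S := iUnion₂_subset fun U _ => hDS U
  have hS0ne : (⋃ U ∈ CTMM.FU K, D U).Nonempty := by
    obtain ⟨U, hU, -, -⟩ := CTMM.exists_between (K := K) (G := ∅) (O := ∅) isCompact_empty
      isOpen_empty (subset_refl _)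
    obtain ⟨lam, hlam⟩ := hSne
    obtain ⟨lam', hlam', -⟩ := hDd U lam hlam 1 one_pos
    exact ⟨lam', mem_iUnion₂.mpr ⟨U, hU, hlam'⟩⟩
  obtain ⟨e, he⟩ := hS0c.exists_eq_range hS0ne
  have hemem : ∀ i, e i ∈ S := fun i => hS0S (by rw [he]; exact mem_range_self i)
  obtain ⟨μ, hμ, hμ0⟩ := CTMM.exists_sum e M (fun i => hB (e i) (hemem i))
  refine ⟨μ, hμ, ?_⟩
  intro G hG hG0 lam hlam
  have hfl := (hB lam hlam).1
  by_contra hne
  have hpos : 0 < (lam G).toReal := ENNReal.toReal_pos hne (measure_ne_top lam G)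
  obtain ⟨C, hC, hCG, hCS⟩ := hR Gᶜ ((lam G).toReal / 4) hG.isClosed.isOpen_compl (by linarith)
  obtain ⟨U, hU, hGU, hUC⟩ := CTMM.exists_between hG hC.isClosed.isOpen_compl
    (fun x hx hxC => hCG hxC hx)
  obtain ⟨lam', hlam', hd⟩ := hDd U lam hlam ((lam G).toReal / 4) (by linarith)
  have hlam'S : lam' ∈ S := hDS U hlam'
  have hfl' := (hB lam' hlam'S).1
  have h0' : lam' G = 0 := by
    have : lam' ∈ ⋃ U ∈ CTMM.FU K, D U := mem_iUnion₂.mpr ⟨U, hU, hlam'⟩
    rw [he] at this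
    obtain ⟨i, rfl⟩ := this
    exact hμ0 G hG.measurableSet hG0 i
  have h1 : lam' U ≤ lam' (Gᶜ \ C) := by
    calc lam' U ≤ lam' (G ∪ (Gᶜ \ C)) := measure_mono (by
          intro x hx
          by_cases hxG : x ∈ G
          · exact Or.inl hxG
          · exact Or.inr ⟨hxG, hUC hx⟩)
      _ ≤ lam' G + lam' (Gᶜ \ C) := measure_union_le _ _
      _ = lam' (Gᶜ \ C) := by rw [h0', zero_add]
  have h2 : (lam' U).toReal ≤ (lam G).toReal / 4 :=
    (ENNReal.toReal_mono (measure_ne_top lam' _) h1).trans (hCS lam' hlam'S)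
  have h3 : (lam G).toReal ≤ (lam U).toReal :=
    ENNReal.toReal_mono (measure_ne_top lam _) (measure_mono hGU)
  have h4 := (abs_lt.mp hd).2
  linarith

end

end Pool.Agent.Lib.MP5bcdfb.VX
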