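import Pool.Agent.Lib.MP_5bcdfb_an.VX.Spec

/-!
# MP_5bcdfb, module DSJ: increments with disjoint supports are uniformly weakly null
-/

set_option autoImplicit false

namespace Pool.Agent.Lib.MP5bcdfb.VX

open MeasureTheory Set Filter Topology
open Pool.Agent.Lib.MP5bcdfb.TS Pool.Agent.Lib.MP5bcdfb.VV

namespace DSJM

/-- gluing of two pairs with disjoint closed supports -/
theorem two {K : Type} [MetricSpace K] [CompactSpace K] (hLOC : TS.SpecLOC)
    (W : C(K, ℝ) → ℝ) (m : ℝ) (hW : IsVal W) (P Q p q : C(K, ℝ)) (S T : Set K)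
    (hS : IsClosed S) (hT : IsClosed T) (hST : Disjoint S T)
    (hP : 0 ≤ P) (hPQ : P ≤ Q) (hQ : ∀ t, Q t ≤ m) (hp : 0 ≤ p) (hpq : p ≤ q)
    (hq : ∀ t, q t ≤ m) (h1 : ∀ t, t ∉ S → Q t = P t) (h2 : ∀ t, t ∉ T → q t = p t) :
    ∃ P' Q' : C(K, ℝ), 0 ≤ P' ∧ P' ≤ Q' ∧ (∀ t, Q' t ≤ m) ∧ (∀ t, t ∉ S ∪ T → Q' t = P' t) ∧
      W Q' - W P' = (W Q - W P) + (W q - W p) := by
  obtain ⟨f, hf0, hf1, hfI⟩ := exists_continuous_zero_one_of_isClosed hT hS hST.symm
  have hP0 : ∀ t, 0 ≤ P t := fun t => hP t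
  have hp0 : ∀ t, 0 ≤ p t := fun t => hp t
  have hPQt : ∀ t, P t ≤ Q t := fun t => hPQ t
  have hpqt : ∀ t, p t ≤ q t := fun t => hpq t
  let P' : C(K, ℝ) := f * P + (1 - f) * p
  let R : C(K, ℝ) := P' + (Q - P)
  let Q' : C(K, ℝ) := R + (q - p)
  have eP : ∀ t, P' t = f t * P t + (1 - f t) * p t := fun t => by simp [P']
  have eR : ∀ t, R t = P' t + (Q t - P t) := fun t => by simp [R]
  have eQ : ∀ t, Q' t = R t + (q t - p t) := fun t => by simp [Q']
  have cS : ∀ t ∈ S, P' t = P t ∧ R t = Q t ∧ q t = p t := by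
    intro t ht
    have h3 : f t = 1 := hf1 ht
    have h4 : t ∉ T := fun h => hST.le_bot ⟨ht, h⟩
    have h5 : P' t = P t := by rw [eP, h3]; ring
    exact ⟨h5, by rw [eR, h5]; ring, h2 t h4⟩
  have cT : ∀ t ∈ T, P' t = p t ∧ R t = p t := by
    intro t ht
    have h3 : f t = 0 := hf0 ht
    have h4 : t ∉ S := fun h => hST.le_bot ⟨h, ht⟩
    have h5 : P' t = p t := by rw [eP, h3]; ring
    exact ⟨h5, by rw [eR, h5, h1 t h4]; ring⟩
  have hPm : ∀ t, P t ≤ m := fun t => (hPQt t).trans (hQ t)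
  have hpm : ∀ t, p t ≤ m := fun t => (hpqt t).trans (hq t)
  have b0 : ∀ t, 0 ≤ P' t := by
    intro t
    have h3 := hfI t
    rw [eP]
    have h4 : 0 ≤ f t * P t := mul_nonneg h3.1 (hP0 t)
    have h5 : 0 ≤ (1 - f t) * p t := mul_nonneg (by linarith [h3.2]) (hp0 t)
    linarith
  have b1 : ∀ t, P' t ≤ m := by
    intro t
    have h3 := hfI t
    rw [eP]
    have h4 : f t * P t ≤ f t * m := mul_le_mul_of_nonneg_left (hPm t) h3.1
    have h5 : (1 - f t) * p t ≤ (1 - f t) * m :=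
      mul_le_mul_of_nonneg_left (hpm t) (by linarith [h3.2])
    have h6 : f t * m + (1 - f t) * m = m := by ring
    linarith
  have bR0 : ∀ t, P' t ≤ R t := by
    intro t
    rw [eR]
    linarith [hPQt t]
  have bQ0 : ∀ t, R t ≤ Q' t := by
    intro t
    rw [eQ]
    linarith [hpqt t]
  have bQ1 : ∀ t, Q' t ≤ m := by
    intro t
    by_cases hS' : t ∈ S
    · obtain ⟨-, h4, h5⟩ := cS t hS'
      rw [eQ, h4, h5]
      linarith [hQ t]
    · by_cases hT' : t ∈ T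
      · obtain ⟨-, h4⟩ := cT t hT'
        rw [eQ, h4]
        linarith [hq t]
      · rw [eQ, eR, h1 t hS', h2 t hT']
        linarith [b1 t]
  have l1 : W R - W P' = W Q - W P := by
    refine hLOC K W hW P' R P Q (fun t => b0 t) hP (fun t => bR0 t) hPQ ?_
    intro t
    by_cases hS' : t ∈ S
    · obtain ⟨h3, h4, -⟩ := cS t hS'
      exact Or.inl ⟨h3, h4⟩
    · refine Or.inr ⟨?_, (h1 t hS').symm⟩
      rw [eR, h1 t hS']
      ring
  have l2 : W Q' - W R = W q - W p := by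
    refine hLOC K W hW R Q' p q (fun t => (b0 t).trans (bR0 t)) hp (fun t => bQ0 t) hpq ?_
    intro t
    by_cases hT' : t ∈ T
    · obtain ⟨-, h4⟩ := cT t hT'
      refine Or.inl ⟨h4, ?_⟩
      rw [eQ, h4]
      ring
    · refine Or.inr ⟨?_, (h2 t hT').symm⟩
      rw [eQ, h2 t hT']
      ring
  refine ⟨P', Q', fun t => b0 t, fun t => (bR0 t).trans (bQ0 t), bQ1, ?_, ?_⟩
  · intro t ht
    have hS' : t ∉ S := fun h => ht (Or.inl h)
    have hT' : t ∉ T := fun h => ht (Or.inr h)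
    rw [eQ, eR, h1 t hS', h2 t hT']
    ring
  · linarith

/-- gluing of finitely many pairs -/
theorem many {K : Type} [MetricSpace K] [CompactSpace K] (hLOC : TS.SpecLOC)
    (W : C(K, ℝ) → ℝ) (m : ℝ) (hW : IsVal W) (U : ℕ → Set K) (p q : ℕ → C(K, ℝ))
    (hd : ∀ i j, i ≠ j → Disjoint (U i) (U j))
    (hpq : ∀ j, 0 ≤ p j ∧ p j ≤ q j ∧ (∀ t, q j t ≤ m) ∧ tsupport (fun t => q j t - p j t) ⊆ U j)
    (A : Finset ℕ) :
    ∃ (P Q : C(K, ℝ)) (S : Set K), 0 ≤ P ∧ P ≤ Q ∧ (∀ t, Q t ≤ m) ∧ IsClosed S ∧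
      (∀ t ∈ S, ∃ j ∈ A, t ∈ U j) ∧ (∀ t, t ∉ S → Q t = P t) ∧
      W Q - W P = ∑ j ∈ A, (W (q j) - W (p j)) := by
  classical
  induction A using Finset.induction_on with
  | empty =>
    refine ⟨p 0, p 0, ∅, (hpq 0).1, le_refl _,
      fun t => ((hpq 0).2.1 t).trans ((hpq 0).2.2.1 t), isClosed_empty, ?_, fun _ _ => rfl, ?_⟩
    · intro t ht
      exact absurd ht (Set.notMem_empty t)
    · simp
  | insert i A hi ih =>
    obtain ⟨P, Q, S, hP, hPQ, hQ, hS, hSU, h1, hsum⟩ := ih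
    obtain ⟨hp, hpq', hq, hsupp⟩ := hpq i
    have h2 : ∀ t, t ∉ tsupport (fun t => q i t - p i t) → q i t = p i t := by
      intro t ht
      have h4 : q i t - p i t = 0 := by
        by_contra hne
        exact ht (subset_tsupport (fun t => q i t - p i t) (Function.mem_support.mpr hne))
      linarith
    have hST : Disjoint S (tsupport (fun t => q i t - p i t)) := by
      rw [Set.disjoint_left]
      intro t ht ht'
      obtain ⟨j, hj, hjt⟩ := hSU t ht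
      have hij : j ≠ i := fun h => hi (h ▸ hj)
      exact (hd j i hij).le_bot ⟨hjt, hsupp ht'⟩
    obtain ⟨P', Q', a1, a2, a3, a4, a5⟩ := two hLOC W m hW P Q (p i) (q i) S _ hS
      (isClosed_tsupport _) hST hP hPQ hQ hp hpq' hq h1 h2
    refine ⟨P', Q', S ∪ tsupport (fun t => q i t - p i t), a1, a2, a3,
      hS.union (isClosed_tsupport _), ?_, a4, ?_⟩
    · rintro t (ht | ht)
      · obtain ⟨j, hj, hjt⟩ := hSU t ht
        exact ⟨j, Finset.mem_insert_of_mem hj, hjt⟩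
      · exact ⟨i, Finset.mem_insert_self i A, hsupp ht⟩
    · rw [a5, hsum, Finset.sum_insert hi]
      ring

/-- the number of indices with a large positive increment -/
theorem card_le {K : Type} [MetricSpace K] [CompactSpace K] (hLOC : TS.SpecLOC)
    (W : C(K, ℝ) → ℝ) (m M τ : ℝ) (hW : IsVal W)
    (hM : ∀ h : C(K, ℝ), 0 ≤ h → (∀ t, h t ≤ m) → |W h| ≤ M) (U : ℕ → Set K) (p q : ℕ → C(K, ℝ))
    (hd : ∀ i j, i ≠ j → Disjoint (U i) (U j))
    (hpq : ∀ j, 0 ≤ p j ∧ p j ≤ q j ∧ (∀ t, q j t ≤ m) ∧ tsupport (fun t => q j t - p j t) ⊆ U j)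
    (A : Finset ℕ) (s : ℝ) (hs : |s| ≤ 1) (hA : ∀ j ∈ A, τ ≤ s * (W (q j) - W (p j))) :
    (A.card : ℝ) * τ ≤ 2 * M := by
  obtain ⟨P, Q, S, hP, hPQ, hQ, -, -, -, hsum⟩ := many hLOC W m hW U p q hd hpq A
  have h1 : (A.card : ℝ) * τ ≤ ∑ j ∈ A, s * (W (q j) - W (p j)) := by
    have h2 := Finset.card_nsmul_le_sum A (fun j => s * (W (q j) - W (p j))) τ hA
    rwa [nsmul_eq_mul] at h2
  rw [← Finset.mul_sum, ← hsum] at h1
  have h3 : |W Q| ≤ M := hM Q (hP.trans hPQ) hQ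
  have h4 : |W P| ≤ M := hM P hP (fun t => (hPQ t).trans (hQ t))
  have h5 : |W Q - W P| ≤ 2 * M := by
    calc |W Q - W P| ≤ |W Q| + |W P| := abs_sub _ _
      _ ≤ 2 * M := by linarith
  calc (A.card : ℝ) * τ ≤ s * (W Q - W P) := h1
    _ ≤ |s * (W Q - W P)| := le_abs_self _
    _ = |s| * |W Q - W P| := abs_mul _ _
    _ ≤ 1 * |W Q - W P| := mul_le_mul_of_nonneg_right hs (abs_nonneg _)
    _ ≤ 2 * M := by linarith

end DSJM

theorem specDSJ (hLOC : TS.SpecLOC) : SpecDSJ := by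
  classical
  intro K _ _ X _ _ V m M hV hM U p q _ hd hpq τ hτ
  refine ⟨⌈4 * M / τ⌉₊, ?_⟩
  intro φ hφ A hA
  have hW : IsVal (fun h : C(K, ℝ) => φ (V h)) := by
    intro f g hf hg
    have h1 := congrArg φ (hV f g hf hg)
    simpa only [map_add] using h1
  have hMW : ∀ h : C(K, ℝ), 0 ≤ h → (∀ t, h t ≤ m) → |φ (V h)| ≤ M := by
    intro h h0 hm
    calc |φ (V h)| = ‖φ (V h)‖ := (Real.norm_eq_abs _).symm
      _ ≤ ‖φ‖ * ‖V h‖ := φ.le_opNorm _
      _ ≤ 1 * ‖V h‖ := mul_le_mul_of_nonneg_right hφ (norm_nonneg _)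
      _ ≤ M := by rw [one_mul]; exact hM h h0 hm
  have hA' : ∀ k ∈ A, τ ≤ |φ (V (q k)) - φ (V (p k))| := by
    intro k hk
    have h1 := hA k hk
    simpa only [map_sub] using h1
  have e1 := DSJM.card_le hLOC (fun h : C(K, ℝ) => φ (V h)) m M τ hW hMW U p q hd hpq
    (A.filter (fun k => 0 ≤ φ (V (q k)) - φ (V (p k)))) 1 (by simp) (by
      intro j hj
      rw [Finset.mem_filter] at hj
      have h1 := hA' j hj.1
      rw [abs_of_nonneg hj.2] at h1
      simpa using h1)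
  have e2 := DSJM.card_le hLOC (fun h : C(K, ℝ) => φ (V h)) m M τ hW hMW U p q hd hpq
    (A.filter (fun k => ¬ 0 ≤ φ (V (q k)) - φ (V (p k)))) (-1) (by simp) (by
      intro j hj
      rw [Finset.mem_filter] at hj
      have h1 := hA' j hj.1
      rw [abs_of_neg (not_le.mp hj.2)] at h1
      simpa using h1)
  have e3 : ((A.filter (fun k => 0 ≤ φ (V (q k)) - φ (V (p k)))).card : ℝ) +
      ((A.filter (fun k => ¬ 0 ≤ φ (V (q k)) - φ (V (p k)))).card : ℝ) = (A.card : ℝ) := by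
    rw [← Nat.cast_add, Finset.card_filter_add_card_filter_not]
  have e4 : (A.card : ℝ) * τ ≤ 4 * M := by
    rw [← e3, add_mul]
    linarith
  have e5 : (A.card : ℝ) ≤ 4 * M / τ := by
    rw [le_div_iff₀ hτ]
    exact e4
  exact_mod_cast e5.trans (Nat.le_ceil _)

end Pool.Agent.Lib.MP5bcdfb.VX
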