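import Pool.Agent.Lib.MP_5bcdfb_an.VX.Spec

/-!
# MP_5bcdfb, module FAM: the family of increment measures
-/

set_option autoImplicit false

namespace Pool.Agent.Lib.MP5bcdfb.VX

open MeasureTheory Set Filter Topology
open Pool.Agent.Lib.MP5bcdfb.TS Pool.Agent.Lib.MP5bcdfb.VV

namespace FAMM

theorem isVal {K : Type} [MetricSpace K] {X : Type} [NormedAddCommGroup X] [NormedSpace ℝ X]
    (V : C(K, ℝ) → X) (hV : ValX V) (φ : X →L[ℝ] ℝ) : IsVal (fun h : C(K, ℝ) => φ (V h)) := by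
  intro f g hf hg
  have h1 := congrArg φ (hV f g hf hg)
  simpa only [map_add] using h1

theorem bound {K : Type} [MetricSpace K] {X : Type} [NormedAddCommGroup X] [NormedSpace ℝ X]
    (V : C(K, ℝ) → X) (m M : ℝ) (hM : ∀ h : C(K, ℝ), 0 ≤ h → (∀ t, h t ≤ m) → ‖V h‖ ≤ M)
    (φ : X →L[ℝ] ℝ) (hφ : ‖φ‖ ≤ 1) (g : C(K, ℝ)) (hg : ∀ t, g t ≤ m) :
    ∀ h : C(K, ℝ), 0 ≤ h → h ≤ g → |φ (V h)| ≤ M := by
  intro h h0 hm
  calc |φ (V h)| = ‖φ (V h)‖ := (Real.norm_eq_abs _).symm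
    _ ≤ ‖φ‖ * ‖V h‖ := φ.le_opNorm _
    _ ≤ 1 * ‖V h‖ := mul_le_mul_of_nonneg_right hφ (norm_nonneg _)
    _ ≤ M := by rw [one_mul]; exact hM h h0 (fun t => (hm t).trans (hg t))

end FAMM

theorem specFAM (hOWB : SpecOWB) (hOWM : SpecOWM) (hDSJ : SpecDSJ) (hREG : SpecREG)
    (hCTM : SpecCTM) (hUAC : SpecUAC) : SpecFAM := by
  classical
  intro K _ _ _ _ X _ _ V m M hX hV hM f g hfg
  have hex : ∀ (φ : X →L[ℝ] ℝ) (k : ℕ), ∃ lam : Measure K, ‖φ‖ ≤ 1 →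
      IsJ (fun h => φ (V h)) (f k) (g k) lam := by
    intro φ k
    by_cases hφ : ‖φ‖ ≤ 1
    · obtain ⟨lam, hlam⟩ := hOWM K (fun h => φ (V h)) (f k) (g k) M (FAMM.isVal V hV φ)
        (hfg k).1 (hfg k).2.1 (FAMM.bound V m M hM φ hφ (g k) (hfg k).2.2)
      exact ⟨lam, fun _ => hlam⟩
    · exact ⟨0, fun h => absurd h hφ⟩
  choose lam hlam using hex
  have hB := fun (φ : X →L[ℝ] ℝ) (k : ℕ) (hφ : ‖φ‖ ≤ 1) =>
    hOWB K (fun h => φ (V h)) (f k) (g k) M (FAMM.isVal V hV φ)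
      (hfg k).1 (hfg k).2.1 (FAMM.bound V m M hM φ hφ (g k) (hfg k).2.2)
  have huniv : ∀ (φ : X →L[ℝ] ℝ) (k : ℕ), ‖φ‖ ≤ 1 →
      (lam φ k univ).toReal = ow (fun h => φ (V h)) (f k) (g k) univ :=
    fun φ k hφ => (hlam φ k hφ).eq univ isOpen_univ
  have hBdd : Bdd {x | ∃ φ k, ‖φ‖ ≤ 1 ∧ x = lam φ k} (2 * M) := by
    rintro x ⟨φ, k, hφ, rfl⟩
    refine ⟨(hlam φ k hφ).fin, ?_⟩
    rw [huniv φ k hφ]
    exact ((hB φ k hφ).1 univ).2
  have hDis : Dis {x | ∃ φ k, ‖φ‖ ≤ 1 ∧ x = lam φ k} := by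
    intro U l ε hε hU hd hl
    by_contra hcon
    push Not at hcon
    choose φ k hφ hlk using hl
    have hpq : ∀ j, ∃ p q : C(K, ℝ), Bt (f (k j)) (g (k j)) (U j) p q ∧
        ow (fun h => φ j (V h)) (f (k j)) (g (k j)) (U j) - ε / 2 < φ j (V q) - φ j (V p) :=
      fun j => (hB (φ j) (k j) (hφ j)).2.2.2.1 (U j) (ε / 2) (half_pos hε)
    choose p q hbt hlt using hpq
    have hU' : UWN (fun j => V (q j) - V (p j)) := by
      refine hDSJ K X V m M hV hM U p q hU hd ?_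
      intro j
      refine ⟨(hfg (k j)).1.trans (fun t => (hbt j).low t), fun t => (hbt j).le t,
        fun t => ((hbt j).upp t).trans ((hfg (k j)).2.2 t), (hbt j).supp⟩
    refine hX ⟨fun j => V (q j) - V (p j), ε / 2, hU', half_pos hε, ?_⟩
    intro j
    have h1 : ε ≤ (l j (U j)).toReal := hcon j
    rw [hlk j, (hlam (φ j) (k j) (hφ j)).eq (U j) (hU j)] at h1
    have h2 : ε / 2 ≤ φ j (V (q j)) - φ j (V (p j)) := by
      have h3 := hlt j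
      linarith
    calc ε / 2 ≤ φ j (V (q j)) - φ j (V (p j)) := h2
      _ = φ j (V (q j) - V (p j)) := by rw [map_sub]
      _ ≤ ‖φ j (V (q j) - V (p j))‖ := Real.le_norm_self _
      _ ≤ ‖φ j‖ * ‖V (q j) - V (p j)‖ := (φ j).le_opNorm _
      _ ≤ 1 * ‖V (q j) - V (p j)‖ := mul_le_mul_of_nonneg_right (hφ j) (norm_nonneg _)
      _ = ‖V (q j) - V (p j)‖ := one_mul _
  have hReg := hREG K _ (2 * M) hBdd hDis
  obtain ⟨μ, hμ, hnull⟩ := hCTM K _ (2 * M) hBdd hReg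
  refine ⟨lam, μ, hμ, hlam, ?_, hBdd, hUAC K _ (2 * M) hBdd hReg μ hnull⟩
  intro φ k hφ
  rw [huniv φ k hφ]
  refine (hB φ k hφ).2.1 univ (f k) (g k) ⟨fun t => le_refl _, fun t => (hfg k).2.1 t,
    fun t => le_refl _, Set.subset_univ _⟩

end Pool.Agent.Lib.MP5bcdfb.VX
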