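import Pool.Agent.Lib.MP_5bcdfb_an.VX.Spec

/-!
# Module FIN: the positive theorem
-/

set_option autoImplicit false

namespace Pool.Agent.Lib.MP5bcdfb.VX

open MeasureTheory Set Filter Topology
open Pool.Agent.Lib.MP5bcdfb.TS Pool.Agent.Lib.MP5bcdfb.VV

noncomputable section

namespace FINM

lemma pair {K : Type} [MetricSpace K] [CompactSpace K] {X : Type} [NormedAddCommGroup X]
    {V : C(K, ℝ) → X} {m ε δ : ℝ}
    {f g : C(K, ℝ)} (hf : 0 ≤ f) (hg : 0 ≤ g) (hfm : ‖f‖ ≤ m) (hgm : ‖g‖ ≤ m)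
    (hfg : ‖f - g‖ < δ) (hδ : 0 < δ) (hV : 2 * ε < ‖V f - V g‖) :
    ∃ p q : C(K, ℝ), 0 ≤ p ∧ p ≤ q ∧ (∀ t, q t ≤ m) ∧ (∀ t, q t ≤ p t + δ) ∧
      ε < ‖V q - V p‖ := by
  have h1 : ∀ t, |f t - g t| ≤ δ := by
    intro t
    have h2 := ContinuousMap.norm_coe_le_norm (f - g) t
    rw [ContinuousMap.sub_apply, Real.norm_eq_abs] at h2
    exact h2.trans hfg.le
  have h2 : ∀ u : C(K, ℝ), ‖u‖ ≤ m → ∀ t, u t ≤ m := fun u hu t =>
    (le_abs_self _).trans ((ContinuousMap.norm_coe_le_norm u t).trans hu)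
  have key : ∀ p : C(K, ℝ), (p = f ∨ p = g) → ε < ‖V (f ⊔ g) - V p‖ →
      ∃ p q : C(K, ℝ), 0 ≤ p ∧ p ≤ q ∧ (∀ t, q t ≤ m) ∧ (∀ t, q t ≤ p t + δ) ∧
        ε < ‖V q - V p‖ := by
    intro p hp hVp
    refine ⟨p, f ⊔ g, ?_, ?_, ?_, ?_, hVp⟩
    · rcases hp with rfl | rfl
      · exact hf
      · exact hg
    · rcases hp with rfl | rfl
      · exact le_sup_left
      · exact le_sup_right
    · intro t
      rw [ContinuousMap.sup_apply]
      exact sup_le (h2 f hfm t) (h2 g hgm t)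
    · intro t
      rw [ContinuousMap.sup_apply]
      have h3 := abs_le.mp (h1 t)
      rcases hp with rfl | rfl
      · exact sup_le (by linarith) (by linarith [h3.1])
      · exact sup_le (by linarith [h3.2]) (by linarith)
  by_contra hcon
  have a1 : ‖V (f ⊔ g) - V f‖ ≤ ε := by
    by_contra h3
    exact hcon (key f (Or.inl rfl) (not_le.mp h3))
  have a2 : ‖V (f ⊔ g) - V g‖ ≤ ε := by
    by_contra h3
    exact hcon (key g (Or.inr rfl) (not_le.mp h3))
  have a3 : ‖V f - V g‖ ≤ ‖V (f ⊔ g) - V g‖ + ‖V (f ⊔ g) - V f‖ := by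
    have : V f - V g = (V (f ⊔ g) - V g) - (V (f ⊔ g) - V f) := by abel
    rw [this]
    exact norm_sub_le _ _
  linarith

/-- compact subsets with small loss -/
lemma cpt {K : Type} [MetricSpace K] [CompactSpace K] [MeasurableSpace K] [BorelSpace K]
    (μ : Measure K) [IsFiniteMeasure μ] (D : Set K) (hD : MeasurableSet D) (L e : ℝ) (hL : 0 < L)
    (he : 0 < e) : ∃ C : Set K, C ⊆ D ∧ IsCompact C ∧ ∀ r : K → ℝ, Measurable r →
      (∀ t, 0 ≤ r t ∧ r t ≤ L) → ∫ t in D, r t ∂μ ≤ ∫ t in C, r t ∂μ + e := by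
  have hδ : ENNReal.ofReal (e / L) ≠ 0 := by
    have : 0 < e / L := by positivity
    simpa using this
  obtain ⟨C, hCD, hCc, hlt⟩ := hD.exists_isCompact_lt_add (μ := μ) (measure_ne_top _ _) hδ
  refine ⟨C, hCD, hCc, fun r hr hrL => ?_⟩
  have hCm : MeasurableSet C := hCc.measurableSet
  have hint : Integrable r μ :=
    Integrable.of_bound hr.aestronglyMeasurable L
      (Eventually.of_forall fun t => by
        rw [Real.norm_eq_abs, abs_of_nonneg (hrL t).1]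
        exact (hrL t).2)
  have h1 : ∫ t in D, r t ∂μ = ∫ t in C, r t ∂μ + ∫ t in D \ C, r t ∂μ := by
    rw [← setIntegral_union disjoint_sdiff_right (hD.diff hCm) hint.integrableOn
      hint.integrableOn, union_diff_cancel hCD]
  have h2 : ∫ t in D \ C, r t ∂μ ≤ L * (μ (D \ C)).toReal := by
    have h3 := setIntegral_mono_on (μ := μ) (s := D \ C) hint.integrableOn
      (g := fun _ => L) (integrableOn_const (measure_ne_top _ _)) (hD.diff hCm)
      (fun t _ => (hrL t).2)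
    rw [setIntegral_const, smul_eq_mul, mul_comm] at h3
    exact h3
  have h4 : (μ (D \ C)).toReal ≤ e / L := by
    rw [measure_diff hCD hCm.nullMeasurableSet (measure_ne_top _ _)]
    have h5 : μ D - μ C ≤ ENNReal.ofReal (e / L) := by
      rw [tsub_le_iff_left]
      exact hlt.le
    exact (ENNReal.toReal_mono ENNReal.ofReal_ne_top h5).trans
      (ENNReal.toReal_ofReal (by positivity)).le
  have h6 : L * (μ (D \ C)).toReal ≤ e := by
    calc L * (μ (D \ C)).toReal ≤ L * (e / L) := by gcongr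
      _ = e := by field_simp
  linarith

/-- the loss outside of `E` -/
lemma out {K : Type} [MeasurableSpace K]
    (μ : Measure K) [IsFiniteMeasure μ] (E : Set K) (hE : MeasurableSet E) (L : ℝ)
    (A : Finset ℕ) (B : ℕ → Set K) (hB : ∀ k, MeasurableSet (B k))
    (hd : ∀ k k', k ≠ k' → Disjoint (B k) (B k')) (r : ℕ → K → ℝ) (hr : ∀ k, Measurable (r k))
    (hrL : ∀ k t, 0 ≤ r k t ∧ r k t ≤ L) (hL : 0 < L) :
    ∑ k ∈ A, ∫ t in B k, r k t ∂μ ≤ ∑ k ∈ A, ∫ t in B k ∩ E, r k t ∂μ + L * (μ Eᶜ).toReal := by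
  have hint : ∀ k, Integrable (r k) μ := fun k =>
    Integrable.of_bound (hr k).aestronglyMeasurable L
      (Eventually.of_forall fun t => by
        rw [Real.norm_eq_abs, abs_of_nonneg (hrL k t).1]
        exact (hrL k t).2)
  have h1 : ∀ k, ∫ t in B k, r k t ∂μ ≤ ∫ t in B k ∩ E, r k t ∂μ + L * (μ (B k ∩ Eᶜ)).toReal := by
    intro k
    have h2 : ∫ t in B k, r k t ∂μ = ∫ t in B k ∩ E, r k t ∂μ + ∫ t in B k ∩ Eᶜ, r k t ∂μ := by
      rw [← setIntegral_union _ ((hB k).inter hE.compl) (hint k).integrableOn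
        (hint k).integrableOn, ← inter_union_distrib_left, union_compl_self, inter_univ]
      exact Disjoint.mono inter_subset_right inter_subset_right disjoint_compl_right
    have h3 := setIntegral_mono_on (μ := μ) (s := B k ∩ Eᶜ) (hint k).integrableOn
      (g := fun _ => L) (integrableOn_const (measure_ne_top _ _)) ((hB k).inter hE.compl)
      (fun t _ => (hrL k t).2)
    rw [setIntegral_const, smul_eq_mul, mul_comm] at h3
    rw [h2]
    exact add_le_add le_rfl h3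
  have h4 : ∑ k ∈ A, (μ (B k ∩ Eᶜ)).toReal ≤ (μ Eᶜ).toReal := by
    rw [← ENNReal.toReal_sum fun i _ => measure_ne_top _ _]
    refine ENNReal.toReal_mono (measure_ne_top _ _) ?_
    rw [← measure_biUnion_finset]
    · refine measure_mono ?_
      intro t ht
      simp only [mem_iUnion] at ht
      obtain ⟨k, _, hk⟩ := ht
      exact hk.2
    · intro i _ j _ hij
      exact Disjoint.mono inter_subset_left inter_subset_left (hd i j hij)
    · intro i _
      exact (hB i).inter hE.compl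
  calc ∑ k ∈ A, ∫ t in B k, r k t ∂μ
      ≤ ∑ k ∈ A, (∫ t in B k ∩ E, r k t ∂μ + L * (μ (B k ∩ Eᶜ)).toReal) :=
        Finset.sum_le_sum fun k _ => h1 k
    _ = ∑ k ∈ A, ∫ t in B k ∩ E, r k t ∂μ + L * ∑ k ∈ A, (μ (B k ∩ Eᶜ)).toReal := by
        rw [Finset.sum_add_distrib, Finset.mul_sum]
    _ ≤ _ := by gcongr

end FINM

theorem specFIN (hBDX : SpecBDX) (hFAM : SpecFAM) (hMNY : SpecMNY) (hTRU : SpecTRU)
    (hSEL : SpecSEL) (hLSN : SpecLSN) (hGLJ : SpecGLJ) : SpecFIN := by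
  intro K _ _ X _ _ hX V hV hc m ε hm hε
  by_contra hcon
  push Not at hcon
  have hpair : ∀ k : ℕ, ∃ p q : C(K, ℝ), 0 ≤ p ∧ p ≤ q ∧ (∀ t, q t ≤ m) ∧
      (∀ t, q t ≤ p t + 1 / ((k : ℝ) + 1)) ∧ ε / 2 < ‖V q - V p‖ := by
    intro k
    obtain ⟨f, g, hf, hg, hfm, hgm, hfg, hVfg⟩ := hcon (1 / ((k : ℝ) + 1)) (by positivity)
    exact FINM.pair hf hg hfm hgm hfg (by positivity) (by linarith)
  choose f g hf0 hfg hgm hnear hbig using hpair
  letI : MeasurableSpace K := borel K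
  haveI : BorelSpace K := ⟨rfl⟩
  obtain ⟨M, hM⟩ := hBDX K X V hV hc (m + 1)
  have hgm' : ∀ k t, g k t ≤ m + 1 := fun k t => (hgm k t).trans (by linarith)
  have hfgt : ∀ k t, f k t ≤ g k t := fun k t => hfg k t
  obtain ⟨lam, μ, hμ, hJ, hge, hB, hU⟩ := hFAM K X V (m + 1) M hX hV hM f g
    (fun k => ⟨hf0 k, hfg k, hgm' k⟩)
  haveI := hμ
  obtain ⟨κ, hκ, hsel⟩ := hSEL K μ (m + 1) (fun k t => f k t) (by linarith)
    (fun k => (f k).continuous.measurable)
    (fun k t => ⟨hf0 k t, lt_of_le_of_lt ((hfgt k t).trans (hgm k t)) (by linarith)⟩)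
  have hx : ¬ UWN (fun k => V (g (κ k)) - V (f (κ k))) := by
    intro h
    exact hX ⟨_, ε / 2, h, by positivity, fun k => (hbig (κ k)).le⟩
  obtain ⟨τ, hτ, hmny⟩ := hMNY X _ hx
  choose φ A hφ hAc hAn hAτ using hmny
  obtain ⟨L, hL, hr⟩ := hTRU K μ _ (2 * M) hB hU (τ / 2) (by positivity)
  have hr' : ∀ n k, ∃ r : K → ℝ, Measurable r ∧ (∀ t, 0 ≤ r t ∧ r t ≤ L) ∧
      (∀ B : Set K, MeasurableSet B → ∫ t in B, r t ∂μ ≤ (lam (φ n) (κ k) B).toReal) ∧
      (lam (φ n) (κ k) univ).toReal - τ / 2 ≤ ∫ t, r t ∂μ :=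
    fun n k => hr _ ⟨φ n, κ k, hφ n, rfl⟩
  choose r hrm hrL hrB hru using hr'
  have hrτ : ∀ n, ∀ k ∈ A n, τ / 2 ≤ ∫ t, r n k t ∂μ := by
    intro n k hk
    have h1 := hge (φ n) (κ k) (hφ n)
    have h2 := hAτ n k hk
    rw [map_sub] at h2
    have h3 := hru n k
    linarith
  obtain ⟨F, hFm, hF0, hFsel⟩ := hsel L (τ / 2) A r hL (by positivity) hAc hrm hrL hrτ
  obtain ⟨E, b, hEc, hEμ, hb0, hbF⟩ := hLSN K μ (m + 1) (τ / (16 * L)) F (by positivity) hFm hF0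
  obtain ⟨r₀, hr₀, hcr⟩ := hc b hb0 (τ / 16) (by positivity)
  obtain ⟨n₀, hn₀⟩ := exists_nat_one_div_lt (show (0 : ℝ) < r₀ / 4 by positivity)
  obtain ⟨n, hn, B, hBm, hBd, hBF, hBs⟩ := hFsel (min (r₀ / 8) (τ / 16)) n₀
    (lt_min (by positivity) (by positivity))
  have hEm : MeasurableSet E := hEc.measurableSet
  have hCex : ∀ k, ∃ C : Set K, C ⊆ B k ∩ E ∧ IsCompact C ∧ ∀ r : K → ℝ, Measurable r →
      (∀ t, 0 ≤ r t ∧ r t ≤ L) →
      ∫ t in B k ∩ E, r t ∂μ ≤ ∫ t in C, r t ∂μ + τ / (16 * ((n : ℝ) + 1)) := fun k =>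
    FINM.cpt μ (B k ∩ E) ((hBm k).inter hEm) L _ hL (by positivity)
  choose C hCs hCc hCr using hCex
  have hout := FINM.out μ E hEm L (A n) B hBm hBd (r n) (hrm n) (hrL n) hL
  have hLE : L * (μ Eᶜ).toReal ≤ τ / 16 := by
    calc L * (μ Eᶜ).toReal ≤ L * (τ / (16 * L)) := by gcongr
      _ = τ / 16 := by field_simp
  have hloss : ∑ k ∈ A n, ∫ t in B k ∩ E, r n k t ∂μ ≤
      ∑ k ∈ A n, ∫ t in C k, r n k t ∂μ + τ / 16 := by
    have h1 : ∑ k ∈ A n, ∫ t in B k ∩ E, r n k t ∂μ ≤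
        ∑ k ∈ A n, (∫ t in C k, r n k t ∂μ + τ / (16 * ((n : ℝ) + 1))) :=
      Finset.sum_le_sum fun k _ => hCr k (r n k) (hrm n k) (hrL n k)
    rw [Finset.sum_add_distrib, Finset.sum_const, hAc n, nsmul_eq_mul] at h1
    have h2 : (n : ℝ) * (τ / (16 * ((n : ℝ) + 1))) ≤ τ / 16 := by
      rw [mul_div_assoc', div_le_div_iff₀ (by positivity) (by positivity)]
      nlinarith
    linarith
  have hlam : ∑ k ∈ A n, ∫ t in C k, r n k t ∂μ ≤
      ∑ k ∈ A n, (lam (φ n) (κ k) (C k)).toReal :=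
    Finset.sum_le_sum fun k _ => hrB n k (C k) (hCc k).measurableSet
  have hglu := hGLJ K (fun h => φ n (V h)) (m + 1) M ?_ ?_ b r₀ (τ / 8) hb0 hr₀ ?_ (A n) C
    (fun k => f (κ k)) (fun k => g (κ k)) (fun k => lam (φ n) (κ k))
    (fun k _ => hCc k)
    (fun k k' hkk => Disjoint.mono ((hCs k).trans inter_subset_left)
      ((hCs k').trans inter_subset_left) (hBd k k' hkk))
    ?_ ?_ (fun k _ => hJ (φ n) (κ k) (hφ n))
  · have h1 := min_le_right (r₀ / 8) (τ / 16)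
    linarith
  · intro p q hp hq
    show φ n (V p) + φ n (V q) = φ n (V (p ⊔ q)) + φ n (V (p ⊓ q))
    rw [← map_add, ← map_add, hV p q hp hq]
  · intro h h0 hm1
    have h1 := (φ n).le_opNorm (V h)
    rw [Real.norm_eq_abs] at h1
    calc |φ n (V h)| ≤ ‖φ n‖ * ‖V h‖ := h1
      _ ≤ 1 * M := mul_le_mul (hφ n) (hM h h0 hm1) (norm_nonneg _) zero_le_one
      _ = M := one_mul M
  · intro p q hp hq hpr hqr
    have h1 := hcr p hp hpr
    have h2 := hcr q hq hqr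
    have h3 : ‖V q - V p‖ ≤ τ / 8 := by
      have : V q - V p = (V q - V b) - (V p - V b) := by abel
      rw [this]
      refine (norm_sub_le _ _).trans ?_
      linarith
    have h4 := (φ n).le_opNorm (V q - V p)
    rw [Real.norm_eq_abs, map_sub] at h4
    calc φ n (V q) - φ n (V p) ≤ |φ n (V q) - φ n (V p)| := le_abs_self _
      _ ≤ ‖φ n‖ * ‖V q - V p‖ := h4
      _ ≤ 1 * (τ / 8) := mul_le_mul (hφ n) h3 (norm_nonneg _) zero_le_one
      _ = τ / 8 := one_mul _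
  · intro k hk
    refine ⟨hf0 (κ k), hfg (κ k), hgm' (κ k), fun t => (hnear (κ k) t).trans ?_⟩
    have h1 : n₀ ≤ κ k := hn.trans ((hAn n k hk).trans (hκ.id_le k))
    have h2 : 1 / ((κ k : ℝ) + 1) ≤ 1 / ((n₀ : ℝ) + 1) :=
      one_div_le_one_div_of_le (by positivity) (by exact_mod_cast Nat.add_le_add_right h1 1)
    linarith
  · intro k hk t ht
    have h1 := hBF k t ((hCs k ht).1)
    rw [← hbF t (hCs k ht).2] at h1
    have h2 := min_le_left (r₀ / 8) (τ / 16)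
    show |f (κ k) t - b t| < r₀ / 2
    exact lt_of_le_of_lt (h1.trans h2) (by linarith)

end

end Pool.Agent.Lib.MP5bcdfb.VX
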