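import Pool.Agent.Lib.MP_5bcdfb_an.VX.Spec

/-!
# MP_5bcdfb : module GNX of VX, the negative theorem
-/

set_option autoImplicit false

namespace Pool.Agent.Lib.MP5bcdfb.VX

open MeasureTheory Set Filter Topology
open Pool.Agent.Lib.MP5bcdfb.TS Pool.Agent.Lib.MP5bcdfb.VV

namespace GNXM

theorem Wu_congr (D j : ℕ) (u v : ℝ → ℝ) (h : ∀ s, 0 ≤ s → s ≤ 1 → u s = v s) :
    Wu D j u = Wu D j v := by
  unfold Wu
  apply intervalIntegral.integral_congr
  intro s hs
  rw [Set.uIcc_of_le zero_le_one] at hs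
  simp only
  rw [h s hs.1 hs.2]

/-- the remainder of a convergent series after removing one term -/
theorem rest_le {X : Type} [NormedAddCommGroup X] [NormedSpace ℝ X] (x : ℕ → X) (d : ℕ → ℝ)
    (k : ℕ) (C B : ℝ) (hC : 0 < C) (hx : ∀ j, ‖x j‖ ≤ C) (hs : Summable fun j => d j • x j)
    (hB : ∀ N : ℕ, ∑ j ∈ (Finset.range N).erase k, |d j| ≤ B) :
    ‖(∑' j, d j • x j) - d k • x k‖ ≤ C * B := by
  have h1 : Tendsto (fun N => ∑ j ∈ Finset.range N, d j • x j) atTop (𝓝 (∑' j, d j • x j)) :=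
    hs.hasSum.tendsto_sum_nat
  have h2 : Tendsto (fun N => ‖(∑ j ∈ Finset.range N, d j • x j) - d k • x k‖) atTop
      (𝓝 ‖(∑' j, d j • x j) - d k • x k‖) := (h1.sub_const _).norm
  refine le_of_tendsto h2 ?_
  filter_upwards [eventually_gt_atTop k] with N hN
  have h3 : (∑ j ∈ Finset.range N, d j • x j) - d k • x k =
      ∑ j ∈ (Finset.range N).erase k, d j • x j := by
    rw [← Finset.add_sum_erase (Finset.range N) (fun j => d j • x j) (Finset.mem_range.2 hN)]
    abel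
  rw [h3]
  calc ‖∑ j ∈ (Finset.range N).erase k, d j • x j‖
      ≤ ∑ j ∈ (Finset.range N).erase k, ‖d j • x j‖ := norm_sum_le _ _
    _ ≤ ∑ j ∈ (Finset.range N).erase k, C * |d j| := by
        apply Finset.sum_le_sum
        intro j _
        rw [norm_smul, Real.norm_eq_abs, mul_comm]
        exact mul_le_mul_of_nonneg_right (hx j) (abs_nonneg _)
    _ = C * ∑ j ∈ (Finset.range N).erase k, |d j| := by rw [Finset.mul_sum]
    _ ≤ C * B := mul_le_mul_of_nonneg_left (hB N) hC.le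

end GNXM

open GNXM in
theorem specGNX (hTRI : VV.SpecTRI) (_hBAS : VV.SpecBAS) (hUWS : SpecUWS) (hCNX : SpecCNX)
    (hRSW : SpecRSW) : SpecGNX := by
  intro K _ _ γ c hγ hc X _ _ _ hX
  obtain ⟨x, c₀, hxU, hc₀, hx₀⟩ := hX
  obtain ⟨⟨C, hC, hxC⟩, -⟩ := hUWS X x hxU
  obtain ⟨hlip, htri01, -, -⟩ := hTRI
  have htc : Continuous tri := by
    have : LipschitzWith 1 tri := LipschitzWith.of_dist_le_mul (fun x y => by
      rw [Real.dist_eq, Real.dist_eq]
      simpa using hlip x y)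
    exact this.continuous
  -- the choice of `D`
  obtain ⟨D₀, hD₀⟩ := exists_nat_gt (64 * C / c₀)
  obtain ⟨D, hD24, hDN⟩ : ∃ D : ℕ, 24 ≤ D ∧ D₀ < D :=
    ⟨max 24 (D₀ + 1), le_max_left _ _, lt_of_lt_of_le (Nat.lt_succ_self _) (le_max_right _ _)⟩
  have hD24' : (24 : ℝ) ≤ D := by exact_mod_cast hD24
  have hDpos : (0 : ℝ) < D := by linarith
  have hDD : (D₀ : ℝ) < D := by exact_mod_cast hDN
  have hTD : C * (16 / D) ≤ c₀ / 4 := by
    have h1 : 64 * C / c₀ < D := hD₀.trans hDD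
    rw [div_lt_iff₀ hc₀] at h1
    rw [mul_div_assoc', div_le_iff₀ hDpos]
    nlinarith
  obtain ⟨hsum, hVval, hVcont⟩ := hCNX K γ hγ D hD24 X x hxU
  refine ⟨fun f => ∑' k, Wu D k (fun s => f (γ s)) • x k, hVval, hVcont, ?_⟩
  intro hU
  obtain ⟨δ, hδ, hUδ⟩ := hU 2 (c₀ / 8) (by norm_num) (by positivity)
  -- the choice of `k`
  have hinv : (1 / (D : ℝ)) < 1 := by
    rw [div_lt_one hDpos]
    linarith
  obtain ⟨k, hk⟩ := exists_pow_lt_of_lt_one (show 0 < δ / 2 by positivity) hinv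
  obtain ⟨w, hweq⟩ : ∃ w : ℝ, w = 1 / (D : ℝ) ^ (k + 1) := ⟨_, rfl⟩
  have hw0 : 0 < w := by
    rw [hweq]
    positivity
  have hwD : w ≤ 1 / D := by
    rw [hweq, pow_succ]
    apply one_div_le_one_div_of_le hDpos
    have : (1 : ℝ) ≤ (D : ℝ) ^ k := one_le_pow₀ (by linarith)
    nlinarith
  have hwδ : 2 * w < δ := by
    have h1 : w ≤ (1 / (D : ℝ)) ^ k := by
      rw [hweq, one_div_pow]
      apply one_div_le_one_div_of_le (by positivity)
      exact pow_le_pow_right₀ (by linarith) (Nat.le_succ k)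
    linarith
  have hw1 : 2 * w ≤ 1 := by
    have : 1 / (D : ℝ) ≤ 1 / 24 := one_div_le_one_div_of_le (by norm_num) hD24'
    linarith
  obtain ⟨M, hM⟩ : ∃ M : ℝ, M = (D : ℝ) ^ ((k + 1) ^ 2) := ⟨_, rfl⟩
  have hwM : ∀ s, hw D k s = tri (M * s) := by
    intro s
    rw [hM]
    rfl
  obtain ⟨F, hFx⟩ : ∃ F : C(K, ℝ), ∀ x, F x = tri (M * c x) :=
    ⟨⟨fun x => tri (M * c x), htc.comp (continuous_const.mul c.continuous)⟩, fun x => rfl⟩
  obtain ⟨G, hGx⟩ : ∃ G : C(K, ℝ), ∀ x, G x = tri (M * c x) + 2 * w :=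
    ⟨F + ContinuousMap.const K (2 * w), fun x => by
      rw [ContinuousMap.add_apply, ContinuousMap.const_apply, hFx]⟩
  have hF0 : 0 ≤ F := by
    rw [ContinuousMap.le_def]
    intro x
    rw [hFx, ContinuousMap.zero_apply]
    exact (htri01 _).1
  have hG0 : 0 ≤ G := by
    rw [ContinuousMap.le_def]
    intro x
    rw [hGx, ContinuousMap.zero_apply]
    have := (htri01 (M * c x)).1
    linarith
  have hFn : ‖F‖ ≤ 2 := by
    rw [ContinuousMap.norm_le _ (by norm_num)]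
    intro x
    rw [hFx, Real.norm_eq_abs, abs_le]
    have := htri01 (M * c x)
    constructor <;> linarith
  have hGn : ‖G‖ ≤ 2 := by
    rw [ContinuousMap.norm_le _ (by norm_num)]
    intro x
    rw [hGx, Real.norm_eq_abs, abs_le]
    have := htri01 (M * c x)
    constructor <;> linarith
  have hFG : ‖F - G‖ < δ := by
    refine lt_of_le_of_lt ?_ hwδ
    rw [ContinuousMap.norm_le _ (by positivity)]
    intro x
    rw [ContinuousMap.sub_apply, hFx, hGx, Real.norm_eq_abs]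
    have : tri (M * c x) - (tri (M * c x) + 2 * w)
        = -(2 * w) := by ring
    rw [this, abs_neg, abs_of_pos (by positivity)]
  have hmain := hUδ F G hF0 hG0 hFn hGn hFG
  simp only at hmain
  rw [← (hsum F).tsum_sub (hsum G)] at hmain
  -- the coefficients
  obtain ⟨hr1, hr2, hr3⟩ := hRSW D k hD24
  have hVF : ∀ j, Wu D j (fun s => F (γ s)) = Wu D j (hw D k) := by
    intro j
    apply Wu_congr
    intro s hs0 hs1
    rw [hFx, hc s hs0 hs1, hwM]
  have hVG : ∀ j, Wu D j (fun s => G (γ s)) =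
      Wu D j (fun s => hw D k s + 2 / (D : ℝ) ^ (k + 1)) := by
    intro j
    apply Wu_congr
    intro s hs0 hs1
    rw [hGx, hc s hs0 hs1]
    have : 2 * w = 2 / (D : ℝ) ^ (k + 1) := by rw [hweq]; ring
    rw [this, hwM]
  obtain ⟨d, hd⟩ : ∃ d : ℕ → ℝ, ∀ j, d j = Wu D j (hw D k) -
      Wu D j (fun s => hw D k s + 2 / (D : ℝ) ^ (k + 1)) := ⟨_, fun j => rfl⟩
  have hterm : ∀ j, Wu D j (fun s => F (γ s)) • x j - Wu D j (fun s => G (γ s)) • x j =
      d j • x j := by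
    intro j
    rw [← sub_smul, hVF, hVG, hd]
  have hs : Summable fun j => d j • x j := by
    have h1 := (hsum F).sub (hsum G)
    exact h1.congr fun j => hterm j
  have htsum : (∑' j, (Wu D j (fun s => F (γ s)) • x j - Wu D j (fun s => G (γ s)) • x j)) =
      ∑' j, d j • x j := tsum_congr hterm
  rw [htsum] at hmain
  have hrest := rest_le x d k C (16 / D) hC hxC hs (fun N => by
    have h1 := hr3 N
    refine le_of_eq_of_le (Finset.sum_congr rfl fun j _ => ?_) h1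
    rw [hd])
  have hdk : 1 / 2 ≤ d k := by
    rw [hd, hr2]
    linarith
  have hnk : c₀ / 2 ≤ ‖d k • x k‖ := by
    rw [norm_smul, Real.norm_eq_abs, abs_of_nonneg (by linarith)]
    have := hx₀ k
    nlinarith
  have htr : ‖d k • x k‖ ≤ ‖∑' j, d j • x j‖ + ‖(∑' j, d j • x j) - d k • x k‖ := by
    have h1 := norm_sub_le (∑' j, d j • x j) ((∑' j, d j • x j) - d k • x k)
    rw [sub_sub_cancel] at h1
    exact h1
  linarith

end Pool.Agent.Lib.MP5bcdfb.VX
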