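import Pool.Agent.Lib.MP_5bcdfb_an.VX.Spec

/-!
# MP_5bcdfb: module LOW

The lower bound for one level.
-/

set_option autoImplicit false

namespace Pool.Agent.Lib.MP5bcdfb.VX

open MeasureTheory Set Filter Topology
open Pool.Agent.Lib.MP5bcdfb.TS Pool.Agent.Lib.MP5bcdfb.VV

noncomputable section

namespace LOWM

theorem pw (X S R P θ L E : ℝ) (hθ : 0 < θ) (hP : 0 ≤ P) (hL : 0 ≤ L) (hX0 : 0 ≤ X) (hXL : X ≤ L)
    (h : S ≤ R * X) (hE : |R - P| ≤ E) : S * (1 / (P + θ)) - (L / θ) * E ≤ X := by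
  have hE0 : 0 ≤ E := (abs_nonneg _).trans hE
  have hPθ : 0 < P + θ := by linarith
  have h1 : (R - P) * X ≤ E * L := by
    calc (R - P) * X ≤ |R - P| * X := mul_le_mul_of_nonneg_right (le_abs_self _) hX0
      _ ≤ E * L := mul_le_mul hE hXL hX0 hE0
  have h2 : S ≤ (P + θ) * X + L * E := by nlinarith [mul_nonneg hθ.le hX0]
  have h3 : S * (1 / (P + θ)) ≤ ((P + θ) * X + L * E) * (1 / (P + θ)) :=
    mul_le_mul_of_nonneg_right h2 (by positivity)
  have h4 : ((P + θ) * X + L * E) * (1 / (P + θ)) = X + (L * E) / (P + θ) := by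
    field_simp
  have h5 : (L * E) / (P + θ) ≤ (L * E) / θ :=
    div_le_div_of_nonneg_left (mul_nonneg hL hE0) hθ (by linarith)
  have h6 : (L * E) / θ = (L / θ) * E := by ring
  linarith

theorem sum_le {K : Type} (A : Finset ℕ) (B : ℕ → Set K) (r : ℕ → K → ℝ) (L : ℝ) (hL : 0 ≤ L)
    (hB : ∀ k k', k ≠ k' → Disjoint (B k) (B k')) (hr : ∀ k t, r k t ≤ L) (t : K) :
    ∑ k ∈ A, (B k).indicator (r k) t ≤ L := by
  by_cases h : ∃ k ∈ A, t ∈ B k
  · obtain ⟨k, hk, ht⟩ := h
    rw [Finset.sum_eq_single_of_mem k hk, indicator_of_mem ht]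
    · exact hr k t
    · intro k' _ hne
      apply indicator_of_notMem
      intro ht'
      exact Set.disjoint_left.1 (hB k' k hne) ht' ht
  · have : ∑ k ∈ A, (B k).indicator (r k) t = 0 := by
      apply Finset.sum_eq_zero
      intro k hk
      apply indicator_of_notMem
      intro ht
      exact h ⟨k, hk, ht⟩
    rw [this]
    exact hL

theorem intb {K : Type} [MeasurableSpace K] (μ : Measure K) [IsFiniteMeasure μ] (f : K → ℝ)
    (hf : Measurable f) (C : ℝ) (h : ∀ t, |f t| ≤ C) : Integrable f μ :=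
  Integrable.of_bound hf.aestronglyMeasurable C (ae_of_all _ h)

/-- the choice of `θ` -/
theorem theta {K : Type} [MeasurableSpace K] (μ : Measure K) [IsFiniteMeasure μ] (L : ℝ) (α P : K → ℝ)
    (hα : Measurable α) (hP : Measurable P) (hα0 : ∀ t, 0 ≤ α t ∧ α t ≤ L) (hP0 : ∀ t, 0 ≤ P t)
    (hpos : ∀ᵐ t ∂μ, 0 < P t) (η : ℝ) (hη : 0 < η) :
    ∃ θ : ℝ, 0 < θ ∧ ∫ t, α t * (θ / (P t + θ)) ∂μ ≤ η := by
  have hθ : ∀ m : ℕ, (0 : ℝ) < 1 / ((m : ℝ) + 1) := fun m => by positivity
  have hlim : Tendsto (fun m : ℕ => ∫ t, α t * ((1 / ((m : ℝ) + 1)) / (P t + 1 / ((m : ℝ) + 1))) ∂μ)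
      atTop (𝓝 (∫ _t, (0 : ℝ) ∂μ)) := by
    refine tendsto_integral_of_dominated_convergence (fun _ => L) ?_ (integrable_const L) ?_ ?_
    · intro m
      exact (hα.mul (measurable_const.div (hP.add measurable_const))).aestronglyMeasurable
    · intro m
      refine ae_of_all _ (fun t => ?_)
      have h1 : 0 < P t + 1 / ((m : ℝ) + 1) := add_pos_of_nonneg_of_pos (hP0 t) (hθ m)
      have h2 : (1 / ((m : ℝ) + 1)) / (P t + 1 / ((m : ℝ) + 1)) ≤ 1 := by
        rw [div_le_one h1]
        linarith [hP0 t]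
      have h3 : 0 ≤ (1 / ((m : ℝ) + 1)) / (P t + 1 / ((m : ℝ) + 1)) :=
        div_nonneg (hθ m).le h1.le
      rw [Real.norm_eq_abs, abs_of_nonneg (mul_nonneg (hα0 t).1 h3)]
      calc α t * ((1 / ((m : ℝ) + 1)) / (P t + 1 / ((m : ℝ) + 1))) ≤ α t * 1 :=
            mul_le_mul_of_nonneg_left h2 (hα0 t).1
        _ ≤ L := by rw [mul_one]; exact (hα0 t).2
    · filter_upwards [hpos] with t ht
      have h0 : Tendsto (fun m : ℕ => 1 / ((m : ℝ) + 1)) atTop (𝓝 0) :=
        tendsto_one_div_add_atTop_nhds_zero_nat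
      have h1 : Tendsto (fun m : ℕ => P t + 1 / ((m : ℝ) + 1)) atTop (𝓝 (P t + 0)) :=
        tendsto_const_nhds.add h0
      have h2 := (h0.div h1 (by rw [add_zero]; exact ht.ne')).const_mul (α t)
      rw [zero_div, mul_zero] at h2
      exact h2
  rw [integral_zero] at hlim
  obtain ⟨m, hm⟩ := ((hlim.eventually (ge_mem_nhds hη))).exists
  exact ⟨1 / ((m : ℝ) + 1), hθ m, hm⟩

end LOWM

/-- **LOW**. -/
theorem specLOW (hMXS : SpecMXS) : SpecLOW := by
  intro K _ μ _ L N j s p a α A r U hL hU hj hs hsN hp hp01 ha ha0 hα hα0 hA hr hr0 H1 H2 H3 η hη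
  -- `P t = p (s t) t`
  obtain ⟨P, hPdef⟩ : ∃ P : K → ℝ, P = fun t => ∑ i ∈ Finset.range N, if s t = i then p i t else 0 :=
    ⟨_, rfl⟩
  have hPt : ∀ t, P t = p (s t) t := by
    intro t
    rw [hPdef]
    dsimp only
    rw [Finset.sum_ite_eq, if_pos (Finset.mem_range.2 (hsN t))]
  have hsi : ∀ i : ℕ, MeasurableSet {t | s t = i} := fun i => hs (measurableSet_singleton i)
  have hji : ∀ k i : ℕ, MeasurableSet {t | j k t = i} := fun k i => hj k (measurableSet_singleton i)
  have hPm : Measurable P := by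
    rw [hPdef]
    exact Finset.measurable_sum _ (fun i _ => Measurable.ite (hsi i) (hp i) measurable_const)
  have hP0 : ∀ t, 0 ≤ P t := fun t => by rw [hPt]; exact (hp01 _ _).1
  have hpos : ∀ᵐ t ∂μ, 0 < P t := by
    filter_upwards [H3] with t ht
    rw [hPt]
    exact ht.1
  obtain ⟨θ, hθ, hθη⟩ := LOWM.theta μ L α P hα hPm hα0 hP0 hpos (η / 3) (by positivity)
  -- the functions `ψ i`
  have hψm : ∀ i : ℕ, Measurable (fun t => if s t = i then 1 / (P t + θ) else (0 : ℝ)) := fun i =>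
    Measurable.ite (hsi i) (measurable_const.div (hPm.add measurable_const)) measurable_const
  have hψb : ∀ (i : ℕ) (t : K), |if s t = i then 1 / (P t + θ) else (0 : ℝ)| ≤ 1 / θ := by
    intro i t
    have h1 : 0 < P t + θ := add_pos_of_nonneg_of_pos (hP0 t) hθ
    split_ifs
    · rw [abs_of_pos (by positivity)]
      exact one_div_le_one_div_of_le hθ (by linarith [hP0 t])
    · rw [abs_zero]
      positivity
  -- the limit along `U`
  have hlim : Tendsto (fun n : ℕ => ∑ i ∈ Finset.range N,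
      ∫ t, (∑ k ∈ A n, if j k t = i then r n k t else 0) / (n : ℝ) *
        (if s t = i then 1 / (P t + θ) else (0 : ℝ)) ∂μ) U
      (𝓝 (∑ i ∈ Finset.range N, ∫ t, a i t * (if s t = i then 1 / (P t + θ) else (0 : ℝ)) ∂μ)) :=
    tendsto_finsetSum _ (fun i _ => H2 i _ (hψm i) ⟨1 / θ, hψb i⟩)
  -- the lower bound for the limit
  have hlow : ∫ t, α t ∂μ - η / 3 ≤
      ∑ i ∈ Finset.range N, ∫ t, a i t * (if s t = i then 1 / (P t + θ) else (0 : ℝ)) ∂μ := by
    have hint : ∀ i ∈ Finset.range N,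
        Integrable (fun t => a i t * (if s t = i then 1 / (P t + θ) else (0 : ℝ))) μ := by
      intro i _
      refine LOWM.intb μ _ ((ha i).mul (hψm i)) (L * (1 / θ)) (fun t => ?_)
      rw [abs_mul]
      refine mul_le_mul ?_ (hψb i t) (abs_nonneg _) hL.le
      rw [abs_of_nonneg (ha0 i t).1]
      exact (ha0 i t).2
    rw [← integral_finsetSum _ hint]
    have hαi : Integrable α μ := LOWM.intb μ α hα L (fun t => by
      rw [abs_of_nonneg (hα0 t).1]; exact (hα0 t).2)
    have hβi : Integrable (fun t => α t * (θ / (P t + θ))) μ := by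
      refine LOWM.intb μ _ (hα.mul (measurable_const.div (hPm.add measurable_const))) L (fun t => ?_)
      have h1 : 0 < P t + θ := add_pos_of_nonneg_of_pos (hP0 t) hθ
      have h2 : θ / (P t + θ) ≤ 1 := by
        rw [div_le_one h1]
        linarith [hP0 t]
      have h3 : 0 ≤ θ / (P t + θ) := div_nonneg hθ.le h1.le
      rw [abs_of_nonneg (mul_nonneg (hα0 t).1 h3)]
      calc α t * (θ / (P t + θ)) ≤ α t * 1 := mul_le_mul_of_nonneg_left h2 (hα0 t).1
        _ ≤ L := by rw [mul_one]; exact (hα0 t).2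
    have h1 : ∫ t, α t ∂μ - η / 3 ≤ ∫ t, (α t - α t * (θ / (P t + θ))) ∂μ := by
      rw [integral_sub hαi hβi]
      linarith
    refine h1.trans ?_
    refine integral_mono_ae (hαi.sub hβi) (integrable_finsetSum _ hint) ?_
    filter_upwards [H3] with t ht
    have h2 : ∑ i ∈ Finset.range N, a i t * (if s t = i then 1 / (P t + θ) else (0 : ℝ)) =
        a (s t) t * (1 / (P t + θ)) := by
      have h3 : ∀ i ∈ Finset.range N, a i t * (if s t = i then 1 / (P t + θ) else (0 : ℝ)) =
          if s t = i then a i t * (1 / (P t + θ)) else 0 := by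
        intro i _
        split_ifs
        · rfl
        · rw [mul_zero]
      rw [Finset.sum_congr rfl h3, Finset.sum_ite_eq, if_pos (Finset.mem_range.2 (hsN t))]
    show α t - α t * (θ / (P t + θ)) ≤ _
    rw [h2]
    have h4 : 0 < P t + θ := add_pos_of_nonneg_of_pos (hP0 t) hθ
    have h5 : α t - α t * (θ / (P t + θ)) = (P t * α t) * (1 / (P t + θ)) := by
      field_simp
      ring
    rw [h5]
    refine mul_le_mul_of_nonneg_right ?_ (by positivity)
    rw [hPt]
    exact ht.2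
  have hev1 : ∀ᶠ n in (U : Filter ℕ), ∫ t, α t ∂μ - 2 * η / 3 ≤ ∑ i ∈ Finset.range N,
      ∫ t, (∑ k ∈ A n, if j k t = i then r n k t else 0) / (n : ℝ) *
        (if s t = i then 1 / (P t + θ) else (0 : ℝ)) ∂μ := by
    have h1 : ∫ t, α t ∂μ - 2 * η / 3 < ∑ i ∈ Finset.range N,
        ∫ t, a i t * (if s t = i then 1 / (P t + θ) else (0 : ℝ)) ∂μ := by linarith
    exact hlim.eventually (le_mem_nhds h1)
  -- the error
  have hev2 : ∀ᶠ n in (U : Filter ℕ), ∀ i ∈ Finset.range N,
      ∫ t, |(∑ k ∈ A n, if j k t = i then (1 : ℝ) else 0) / (n : ℝ) - p i t| ∂μ ≤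
        η * θ / (3 * L * (N + 1)) := by
    rw [Filter.eventually_all_finset]
    intro i _
    obtain ⟨n₀, hn₀⟩ := H1 i (η * θ / (3 * L * (N + 1))) (by positivity)
    refine hU ?_
    filter_upwards [eventually_ge_atTop n₀] with n hn
    have h1 := hn₀ (A n) (by rw [hA n]; exact hn)
    rw [hA n] at h1
    exact h1
  have hev3 : ∀ᶠ n in (U : Filter ℕ), 1 ≤ n := hU (eventually_ge_atTop 1)
  filter_upwards [hev1, hev2, hev3] with n h1 h2 h3
  obtain ⟨B, hBm, hBd, hBD, hB⟩ := hMXS K (A n) (fun k => {t | j k t = s t}) (r n)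
    (fun k => measurableSet_eq_fun (hj k) hs) (hr n) (fun k t => (hr0 n k t).1)
  refine ⟨B, hBm, hBd, fun k t ht => hBD k ht, ?_⟩
  have hn0 : (0 : ℝ) < n := by exact_mod_cast h3
  have hXi : ∀ k ∈ A n, Integrable (fun t => (B k).indicator (r n k) t) μ := by
    intro k _
    refine LOWM.intb μ _ ((hr n k).indicator (hBm k)) L (fun t => ?_)
    by_cases ht : t ∈ B k
    · rw [indicator_of_mem ht, abs_of_nonneg (hr0 n k t).1]
      exact (hr0 n k t).2
    · rw [indicator_of_notMem ht, abs_zero]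
      exact hL.le
  have hX : ∑ k ∈ A n, ∫ t in B k, r n k t ∂μ = ∫ t, ∑ k ∈ A n, (B k).indicator (r n k) t ∂μ := by
    rw [integral_finsetSum _ hXi]
    exact Finset.sum_congr rfl (fun k _ => (integral_indicator (hBm k)).symm)
  have hSm : ∀ i : ℕ, Measurable (fun t => (∑ k ∈ A n, if j k t = i then r n k t else 0) / (n : ℝ)) :=
    fun i => (Finset.measurable_sum _ (fun k _ =>
      Measurable.ite (hji k i) (hr n k) measurable_const)).div measurable_const
  have hSb : ∀ (i : ℕ) (t : K), |(∑ k ∈ A n, if j k t = i then r n k t else 0) / (n : ℝ)| ≤ L := by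
    intro i t
    have h4 : 0 ≤ ∑ k ∈ A n, (if j k t = i then r n k t else 0) := by
      refine Finset.sum_nonneg (fun k _ => ?_)
      split_ifs
      · exact (hr0 n k t).1
      · exact le_refl _
    have h5 : ∑ k ∈ A n, (if j k t = i then r n k t else 0) ≤ n * L := by
      have h6 : ∑ k ∈ A n, (if j k t = i then r n k t else 0) ≤ ∑ _k ∈ A n, L := by
        refine Finset.sum_le_sum (fun k _ => ?_)
        split_ifs
        · exact (hr0 n k t).2
        · exact hL.le
      rw [Finset.sum_const, hA n, nsmul_eq_mul] at h6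
      exact h6
    rw [abs_of_nonneg (div_nonneg h4 hn0.le), div_le_iff₀ hn0]
    linarith
  have hGi : ∀ i ∈ Finset.range N, Integrable (fun t =>
      (∑ k ∈ A n, if j k t = i then r n k t else 0) / (n : ℝ) *
        (if s t = i then 1 / (P t + θ) else (0 : ℝ))) μ := by
    intro i _
    refine LOWM.intb μ _ ((hSm i).mul (hψm i)) (L * (1 / θ)) (fun t => ?_)
    rw [abs_mul]
    exact mul_le_mul (hSb i t) (hψb i t) (abs_nonneg _) hL.le
  have hQm : ∀ i : ℕ, Measurable (fun t => (∑ k ∈ A n, if j k t = i then (1 : ℝ) else 0) / (n : ℝ)) :=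
    fun i => (Finset.measurable_sum _ (fun k _ =>
      Measurable.ite (hji k i) measurable_const measurable_const)).div measurable_const
  have hQb : ∀ (i : ℕ) (t : K), |(∑ k ∈ A n, if j k t = i then (1 : ℝ) else 0) / (n : ℝ)| ≤ 1 := by
    intro i t
    have h4 : 0 ≤ ∑ k ∈ A n, (if j k t = i then (1 : ℝ) else 0) := by
      refine Finset.sum_nonneg (fun k _ => ?_)
      split_ifs
      · exact zero_le_one
      · exact le_refl _
    have h5 : ∑ k ∈ A n, (if j k t = i then (1 : ℝ) else 0) ≤ n := by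
      have h6 : ∑ k ∈ A n, (if j k t = i then (1 : ℝ) else 0) ≤ ∑ _k ∈ A n, (1 : ℝ) := by
        refine Finset.sum_le_sum (fun k _ => ?_)
        split_ifs
        · exact le_refl _
        · exact zero_le_one
      rw [Finset.sum_const, hA n, nsmul_eq_mul, mul_one] at h6
      exact h6
    rw [abs_of_nonneg (div_nonneg h4 hn0.le), div_le_iff₀ hn0]
    linarith
  have hEi : ∀ i ∈ Finset.range N, Integrable (fun t =>
      |(∑ k ∈ A n, if j k t = i then (1 : ℝ) else 0) / (n : ℝ) - p i t|) μ := by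
    intro i _
    refine Integrable.abs (Integrable.sub (LOWM.intb μ _ (hQm i) 1 (hQb i))
      (LOWM.intb μ _ (hp i) 1 (fun t => ?_)))
    rw [abs_of_nonneg (hp01 i t).1]
    exact (hp01 i t).2
  -- pointwise
  have hpt : ∀ t, (∑ i ∈ Finset.range N, (∑ k ∈ A n, if j k t = i then r n k t else 0) / (n : ℝ) *
        (if s t = i then 1 / (P t + θ) else (0 : ℝ))) -
      (L / θ) * (∑ i ∈ Finset.range N,
        |(∑ k ∈ A n, if j k t = i then (1 : ℝ) else 0) / (n : ℝ) - p i t|) ≤
      ∑ k ∈ A n, (B k).indicator (r n k) t := by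
    intro t
    have h4 : ∑ i ∈ Finset.range N, (∑ k ∈ A n, if j k t = i then r n k t else 0) / (n : ℝ) *
        (if s t = i then 1 / (P t + θ) else (0 : ℝ)) =
        (∑ k ∈ A n, if j k t = s t then r n k t else 0) / (n : ℝ) * (1 / (P t + θ)) := by
      rw [Finset.sum_eq_single_of_mem (s t) (Finset.mem_range.2 (hsN t)), if_pos rfl]
      intro i _ hi
      rw [if_neg (Ne.symm hi), mul_zero]
    rw [h4]
    have h5 : 0 ≤ ∑ k ∈ A n, (B k).indicator (r n k) t :=
      Finset.sum_nonneg (fun k _ => indicator_nonneg (fun t _ => (hr0 n k t).1) t)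
    refine LOWM.pw _ _ ((∑ k ∈ A n, if j k t = s t then (1 : ℝ) else 0) / (n : ℝ)) (P t) θ L _ hθ
      (hP0 t) hL.le h5 (LOWM.sum_le (A n) B (r n) L hL.le hBd (fun k t => (hr0 n k t).2) t) ?_ ?_
    · have h6 := hB t
      have h7 : ∀ (g : ℕ → K → ℝ), ∑ k ∈ A n, ({t | j k t = s t} : Set K).indicator (g k) t =
          ∑ k ∈ A n, if j k t = s t then g k t else 0 := by
        intro g
        refine Finset.sum_congr rfl (fun k _ => ?_)
        by_cases hk : j k t = s t
        · rw [if_pos hk]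
          exact indicator_of_mem (show t ∈ ({t | j k t = s t} : Set K) from hk) (g k)
        · rw [if_neg hk]
          exact indicator_of_notMem (show t ∉ ({t | j k t = s t} : Set K) from hk) (g k)
      rw [h7 (r n), h7 (fun _ _ => 1)] at h6
      rw [div_mul_eq_mul_div]
      exact div_le_div_of_nonneg_right h6 hn0.le
    · rw [hPt]
      exact Finset.single_le_sum (f := fun i =>
        |(∑ k ∈ A n, if j k t = i then (1 : ℝ) else 0) / (n : ℝ) - p i t|)
        (fun i _ => abs_nonneg _) (Finset.mem_range.2 (hsN t))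
  have hmono := integral_mono ((integrable_finsetSum _ hGi).sub
    ((integrable_finsetSum _ hEi).const_mul (L / θ))) (integrable_finsetSum _ hXi) hpt
  rw [integral_sub' (integrable_finsetSum _ hGi) ((integrable_finsetSum _ hEi).const_mul (L / θ)),
    integral_const_mul, integral_finsetSum _ hGi, integral_finsetSum _ hEi] at hmono
  rw [hX]
  refine le_trans ?_ hmono
  have h8 : ∑ i ∈ Finset.range N,
      ∫ t, |(∑ k ∈ A n, if j k t = i then (1 : ℝ) else 0) / (n : ℝ) - p i t| ∂μ ≤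
      N * (η * θ / (3 * L * (N + 1))) := by
    have h9 := Finset.sum_le_sum h2
    rw [Finset.sum_const, Finset.card_range, nsmul_eq_mul] at h9
    exact h9
  have h10 : (L / θ) * (∑ i ∈ Finset.range N,
      ∫ t, |(∑ k ∈ A n, if j k t = i then (1 : ℝ) else 0) / (n : ℝ) - p i t| ∂μ) ≤ η / 3 := by
    refine (mul_le_mul_of_nonneg_left h8 (by positivity)).trans ?_
    have h11 : (L / θ) * (N * (η * θ / (3 * L * (N + 1)))) = (η / 3) * ((N : ℝ) / (N + 1)) := by
      field_simp
    rw [h11]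
    have h12 : (N : ℝ) / (N + 1) ≤ 1 := by
      rw [div_le_one (by positivity)]
      linarith
    nlinarith
  linarith

end

end Pool.Agent.Lib.MP5bcdfb.VX
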