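import Pool.Agent.Lib.MP_5bcdfb_an.VX.Spec

/-! Module LSN (helper52): Lusin's theorem with small exceptional set. -/

set_option autoImplicit false

namespace Pool.Agent.Lib.MP5bcdfb.VX

open MeasureTheory Set TopologicalSpace Filter Topology

theorem specLSN : SpecLSN := by
  intro K _ _ _ _ μ _ m η a hη ha hab
  have hsm : StronglyMeasurable a := ha.stronglyMeasurable
  have hLp : MemLp a 1 μ := by
    refine MemLp.of_bound hsm.aestronglyMeasurable m (Filter.Eventually.of_forall fun t => ?_)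
    rw [Real.norm_eq_abs, abs_of_nonneg (hab t).1]
    exact (hab t).2
  -- continuous approximations
  have happ : ∀ n : ℕ, ∃ g : BoundedContinuousFunction K ℝ,
      eLpNorm (a - (g : K → ℝ)) 1 μ ≤ ENNReal.ofReal (1 / ((n : ℝ) + 1)) ∧ MemLp g 1 μ := by
    intro n
    refine hLp.exists_boundedContinuous_eLpNorm_sub_le ENNReal.one_ne_top ?_
    rw [Ne, ENNReal.ofReal_eq_zero, not_le]
    positivity
  choose g hg hgL using happ
  have hlim : Tendsto (fun n => eLpNorm ((g n : K → ℝ) - a) 1 μ) atTop (𝓝 0) := by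
    have h0 : Tendsto (fun n : ℕ => ENNReal.ofReal (1 / ((n : ℝ) + 1))) atTop (𝓝 0) := by
      have h1 : Tendsto (fun n : ℕ => (1 / ((n : ℝ) + 1))) atTop (𝓝 0) :=
        tendsto_one_div_add_atTop_nhds_zero_nat
      have h2 := ENNReal.tendsto_ofReal h1
      rwa [ENNReal.ofReal_zero] at h2
    refine tendsto_of_tendsto_of_tendsto_of_le_of_le tendsto_const_nhds h0 (fun n => bot_le) ?_
    intro n
    change eLpNorm ((g n : K → ℝ) - a) 1 μ ≤ ENNReal.ofReal (1 / ((n : ℝ) + 1))
    rw [eLpNorm_sub_comm]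
    exact hg n
  have hmeas : TendstoInMeasure μ (fun n => (g n : K → ℝ)) atTop a :=
    tendstoInMeasure_of_tendsto_eLpNorm one_ne_zero (fun n => (hgL n).1) hsm.aestronglyMeasurable hlim
  obtain ⟨ns, -, hns⟩ := hmeas.exists_seq_tendsto_ae
  obtain ⟨T, hTm, hTe, hTu⟩ := tendstoUniformlyOn_of_ae_tendsto' (μ := μ)
    (f := fun i => (g (ns i) : K → ℝ)) (g := a)
    (fun i => (g (ns i)).continuous.stronglyMeasurable) hsm hns (ε := η / 2) (by positivity)
  obtain ⟨E, hET, hEc, hE0⟩ := hTm.compl.exists_isCompact_sdiff_lt (μ := μ)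
    (measure_ne_top μ Tᶜ) (ε := ENNReal.ofReal (η / 2)) (by
      rw [Ne, ENNReal.ofReal_eq_zero, not_le]
      positivity)
  have hcont : ContinuousOn a E := by
    have hu : TendstoUniformlyOn (fun i => (g (ns i) : K → ℝ)) a atTop E := hTu.mono hET
    exact hu.continuousOn (Filter.Frequently.of_forall fun i => (g (ns i)).continuous.continuousOn)
  obtain ⟨b, hb⟩ := ContinuousMap.exists_restrict_eq hEc.isClosed
    (⟨E.domRestrict a, hcont.domRestrict⟩ : C(E, ℝ))
  refine ⟨E, b ⊔ 0, hEc, ?_, le_sup_right, ?_⟩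
  · have h1 : μ Eᶜ ≤ ENNReal.ofReal η := by
      calc μ Eᶜ ≤ μ (T ∪ (Tᶜ \ E)) := by
            refine measure_mono fun t ht => ?_
            by_cases hT : t ∈ T
            · exact Or.inl hT
            · exact Or.inr ⟨hT, ht⟩
        _ ≤ μ T + μ (Tᶜ \ E) := measure_union_le _ _
        _ ≤ ENNReal.ofReal (η / 2) + ENNReal.ofReal (η / 2) := add_le_add hTe hE0.le
        _ = ENNReal.ofReal η := by
            rw [← ENNReal.ofReal_add (by positivity) (by positivity), add_halves]
    exact ENNReal.toReal_le_of_le_ofReal hη.le h1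
  intro t ht
  have h1 : b t = a t := by
    exact congrArg (fun h : C(E, ℝ) => h ⟨t, ht⟩) hb
  rw [ContinuousMap.sup_apply, ContinuousMap.zero_apply, h1]
  exact sup_eq_left.2 (hab t).1

end Pool.Agent.Lib.MP5bcdfb.VX
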