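import Pool.Agent.Lib.MP_5bcdfb_an.VX.Spec

set_option autoImplicit false

namespace Pool.Agent.Lib.MP5bcdfb.VX

open MeasureTheory Set Filter Topology

/-- A sequence which is not uniformly weakly null has many functionals. -/
theorem specMNY : SpecMNY := by
  intro X _ _ x hx
  unfold UWN at hx
  push Not at hx
  obtain ⟨τ, hτ, h⟩ := hx
  refine ⟨τ, hτ, fun n => ?_⟩
  obtain ⟨φ, hφ, A, hA, hcard⟩ := h (3 * n)
  have h1 : A.card ≤ (A.filter (fun k => n ≤ k)).card + n := by
    have h0 := Finset.card_filter_add_card_filter_not (s := A) (fun k => n ≤ k)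
    have h2 : (A.filter (fun k => ¬ n ≤ k)).card ≤ n := by
      calc (A.filter (fun k => ¬ n ≤ k)).card ≤ (Finset.range n).card := by
            apply Finset.card_le_card
            intro k hk
            have h3 := (Finset.mem_filter.1 hk).2
            exact Finset.mem_range.2 (by omega)
        _ = n := Finset.card_range n
    omega
  have h3 := Finset.card_filter_add_card_filter_not (s := A.filter (fun k => n ≤ k)) (fun k => τ ≤ φ (x k))
  rcases le_total n ((A.filter (fun k => n ≤ k)).filter (fun k => τ ≤ φ (x k))).card with h4 | h4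
  · obtain ⟨B, hB, hBc⟩ := Finset.exists_subset_card_eq h4
    refine ⟨φ, B, hφ, hBc, fun k hk => ?_, fun k hk => ?_⟩
    · exact (Finset.mem_filter.1 (Finset.mem_filter.1 (hB hk)).1).2
    · exact (Finset.mem_filter.1 (hB hk)).2
  · have h5 : n ≤ ((A.filter (fun k => n ≤ k)).filter (fun k => ¬ τ ≤ φ (x k))).card := by omega
    obtain ⟨B, hB, hBc⟩ := Finset.exists_subset_card_eq h5
    refine ⟨-φ, B, by rw [norm_neg]; exact hφ, hBc, fun k hk => ?_, fun k hk => ?_⟩
    · exact (Finset.mem_filter.1 (Finset.mem_filter.1 (hB hk)).1).2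
    · have h6 := (Finset.mem_filter.1 (hB hk)).2
      have h7 := hA k (Finset.mem_filter.1 (Finset.mem_filter.1 (hB hk)).1).1
      rw [neg_apply]
      rcases le_abs.1 h7 with h8 | h8
      · exact absurd h8 h6
      · exact h8

end Pool.Agent.Lib.MP5bcdfb.VX
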