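import Pool.Agent.Lib.MP_5bcdfb_an.VX.Spec

set_option autoImplicit false

namespace Pool.Agent.Lib.MP5bcdfb.VX

open MeasureTheory Set Filter Topology

/-- The best index. -/
theorem specMXS : SpecMXS := by
  classical
  intro K _ A D r hD hr h0
  refine ⟨fun k => {t | k ∈ A ∧ t ∈ D k ∧ (∀ k' ∈ A, t ∈ D k' → r k' t ≤ r k t) ∧
    (∀ k' ∈ A, k' < k → t ∈ D k' → r k' t < r k t)}, fun k => ?_, fun k k' hkk => ?_, fun k t ht => ht.2.1, fun t => ?_⟩
  · by_cases hk : k ∈ A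
    · have h1 : {t | k ∈ A ∧ t ∈ D k ∧ (∀ k' ∈ A, t ∈ D k' → r k' t ≤ r k t) ∧
          (∀ k' ∈ A, k' < k → t ∈ D k' → r k' t < r k t)} =
          D k ∩ ((⋂ k' ∈ A, ((D k')ᶜ ∪ {t | r k' t ≤ r k t})) ∩
            (⋂ k' ∈ A.filter (fun k' => k' < k), ((D k')ᶜ ∪ {t | r k' t < r k t}))) := by
        ext t
        simp only [mem_ofPred_eq, mem_inter_iff, mem_iInter, mem_union, mem_compl_iff, Finset.mem_filter]
        constructor
        · rintro ⟨_, h2, h3, h4⟩
          exact ⟨h2, fun k' hk' => (em (t ∈ D k')).elim (fun h => Or.inr (h3 k' hk' h)) Or.inl,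
            fun k' hk' => (em (t ∈ D k')).elim (fun h => Or.inr (h4 k' hk'.1 hk'.2 h)) Or.inl⟩
        · rintro ⟨h2, h3, h4⟩
          exact ⟨hk, h2, fun k' hk' h => (h3 k' hk').resolve_left (fun h' => h' h),
            fun k' hk' hlt h => (h4 k' ⟨hk', hlt⟩).resolve_left (fun h' => h' h)⟩
      show MeasurableSet {t | k ∈ A ∧ t ∈ D k ∧ (∀ k' ∈ A, t ∈ D k' → r k' t ≤ r k t) ∧ (∀ k' ∈ A, k' < k → t ∈ D k' → r k' t < r k t)}
      rw [h1]
      refine (hD k).inter (MeasurableSet.inter ?_ ?_)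
      · exact Finset.measurableSet_biInter _ (fun k' _ => (hD k').compl.union (measurableSet_le (hr k') (hr k)))
      · exact Finset.measurableSet_biInter _ (fun k' _ => (hD k').compl.union (measurableSet_lt (hr k') (hr k)))
    · have h1 : {t | k ∈ A ∧ t ∈ D k ∧ (∀ k' ∈ A, t ∈ D k' → r k' t ≤ r k t) ∧
          (∀ k' ∈ A, k' < k → t ∈ D k' → r k' t < r k t)} = ∅ := by
        ext t
        simp [hk]
      show MeasurableSet {t | k ∈ A ∧ t ∈ D k ∧ (∀ k' ∈ A, t ∈ D k' → r k' t ≤ r k t) ∧ (∀ k' ∈ A, k' < k → t ∈ D k' → r k' t < r k t)}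
      rw [h1]
      exact MeasurableSet.empty
  · rw [Set.disjoint_left]
    rintro t ⟨h1, h2, h3, h4⟩ ⟨h1', h2', h3', h4'⟩
    rcases lt_or_gt_of_ne hkk with h | h
    · exact absurd (h3 k' h1' h2') (not_le.2 (h4' k h1 h h2))
    · exact absurd (h3' k h1 h2) (not_le.2 (h4 k' h1' h h2'))
  · by_cases hS : (A.filter (fun k => t ∈ D k)).Nonempty
    · obtain ⟨k0, hk0, hmax⟩ := Finset.exists_max_image _ (fun k => r k t) hS
      have hS' : ((A.filter (fun k => t ∈ D k)).filter (fun k => r k t = r k0 t)).Nonempty :=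
        ⟨k0, Finset.mem_filter.2 ⟨hk0, rfl⟩⟩
      obtain ⟨k1, hk1, hmin⟩ := Finset.exists_min_image _ (fun k => k) hS'
      have h1 := (Finset.mem_filter.1 hk1).2
      have h2 := Finset.mem_filter.1 (Finset.mem_filter.1 hk1).1
      have hB : t ∈ {t | k1 ∈ A ∧ t ∈ D k1 ∧ (∀ k' ∈ A, t ∈ D k' → r k' t ≤ r k1 t) ∧
          (∀ k' ∈ A, k' < k1 → t ∈ D k' → r k' t < r k1 t)} := by
        refine ⟨h2.1, h2.2, fun k' hk' ht => ?_, fun k' hk' hlt ht => ?_⟩
        · rw [h1]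
          exact hmax k' (Finset.mem_filter.2 ⟨hk', ht⟩)
        · have h3 := hmax k' (Finset.mem_filter.2 ⟨hk', ht⟩)
          rcases lt_or_eq_of_le h3 with h4 | h4
          · rw [h1]; exact h4
          · have h5 := hmin k' (Finset.mem_filter.2 ⟨Finset.mem_filter.2 ⟨hk', ht⟩, h4⟩)
            exact absurd h5 (not_le.2 hlt)
      have h6 : r k1 t ≤ ∑ k ∈ A, ({t | k ∈ A ∧ t ∈ D k ∧ (∀ k' ∈ A, t ∈ D k' → r k' t ≤ r k t) ∧
          (∀ k' ∈ A, k' < k → t ∈ D k' → r k' t < r k t)} : Set K).indicator (r k) t := by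
        have h7 := Finset.single_le_sum (f := fun k => ({t | k ∈ A ∧ t ∈ D k ∧ (∀ k' ∈ A, t ∈ D k' → r k' t ≤ r k t) ∧
          (∀ k' ∈ A, k' < k → t ∈ D k' → r k' t < r k t)} : Set K).indicator (r k) t) (s := A)
          (fun k _ => Set.indicator_nonneg (fun s _ => h0 k s) t) h2.1
        refine le_trans (le_of_eq ?_) h7
        exact (Set.indicator_of_mem hB _).symm
      calc ∑ k ∈ A, (D k).indicator (r k) t ≤ ∑ k ∈ A, (D k).indicator (fun _ => (1 : ℝ)) t * r k1 t := by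
            refine Finset.sum_le_sum (fun k hk => ?_)
            by_cases ht : t ∈ D k
            · rw [Set.indicator_of_mem ht, Set.indicator_of_mem ht, one_mul]
              exact hB.2.2.1 k hk ht
            · rw [Set.indicator_of_notMem ht, Set.indicator_of_notMem ht, zero_mul]
        _ = (∑ k ∈ A, (D k).indicator (fun _ => (1 : ℝ)) t) * r k1 t := (Finset.sum_mul _ _ _).symm
        _ ≤ _ := mul_le_mul_of_nonneg_left h6
            (Finset.sum_nonneg (fun k _ => Set.indicator_nonneg (fun _ _ => zero_le_one) t))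
    · have h1 : ∀ k ∈ A, t ∉ D k := by
        intro k hk ht
        exact hS ⟨k, Finset.mem_filter.2 ⟨hk, ht⟩⟩
      have h2 : ∑ k ∈ A, (D k).indicator (r k) t = 0 :=
        Finset.sum_eq_zero (fun k hk => Set.indicator_of_notMem (h1 k hk) _)
      have h3 : ∑ k ∈ A, (D k).indicator (fun _ => (1 : ℝ)) t = 0 :=
        Finset.sum_eq_zero (fun k hk => Set.indicator_of_notMem (h1 k hk) _)
      rw [h2, h3, zero_mul]

end Pool.Agent.Lib.MP5bcdfb.VX
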