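import Pool.Agent.Lib.MP_5bcdfb_an.VX.Spec

/-!
MP_5bcdfb_an, VX, module NST: nested selection by the mediant inequality.
-/

set_option autoImplicit false

namespace Pool.Agent.Lib.MP5bcdfb.VX

namespace NSTM

open MeasureTheory Set Filter Topology

/-- the selection -/
noncomputable def sel {K : Type} (p a : ℕ → ℕ → K → ℝ) : ℕ → K → ℕ
  | 0, _ => 0
  | l + 1, t =>
    open Classical in
    if 0 < p (l + 1) (2 * sel p a l t) t ∧
        p (l + 1) (2 * sel p a l t) t * a 0 0 t ≤ a (l + 1) (2 * sel p a l t) t then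
      2 * sel p a l t
    else 2 * sel p a l t + 1

lemma meas_comp {K : Type} [MeasurableSpace K] {g : ℕ → K → ℝ} (hg : ∀ i, Measurable (g i))
    {s : K → ℕ} (hs : Measurable s) : Measurable fun t => g (s t) t := by
  intro B hB
  have h1 : (fun t => g (s t) t) ⁻¹' B = ⋃ i : ℕ, (s ⁻¹' {i}) ∩ (g i ⁻¹' B) := by
    ext t
    simp only [mem_preimage, mem_iUnion, mem_inter_iff, mem_singleton_iff]
    constructor
    · intro h
      exact ⟨s t, rfl, h⟩
    · rintro ⟨i, h1, h2⟩
      rw [h1]
      exact h2
  rw [h1]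
  exact MeasurableSet.iUnion fun i =>
    (hs (measurableSet_singleton i)).inter (hg i hB)

lemma meas_sel {K : Type} [MeasurableSpace K] {p a : ℕ → ℕ → K → ℝ}
    (hp : ∀ l i, Measurable (p l i)) (ha : ∀ l i, Measurable (a l i)) (l : ℕ) :
    Measurable (sel p a l) := by
  induction l with
  | zero => exact measurable_const
  | succ l ih =>
    have h2 : Measurable fun t => 2 * sel p a l t := ih.const_mul 2
    have hP : Measurable fun t => p (l + 1) (2 * sel p a l t) t := meas_comp (hp (l + 1)) h2
    have hA : Measurable fun t => a (l + 1) (2 * sel p a l t) t := meas_comp (ha (l + 1)) h2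
    have hset : MeasurableSet {t | 0 < p (l + 1) (2 * sel p a l t) t ∧
        p (l + 1) (2 * sel p a l t) t * a 0 0 t ≤ a (l + 1) (2 * sel p a l t) t} :=
      (measurableSet_lt measurable_const hP).inter (measurableSet_le (hP.mul (ha 0 0)) hA)
    exact Measurable.ite hset h2 (h2.add_const 1)

end NSTM

open MeasureTheory Set Filter Topology NSTM in
/-- **NST** -/
theorem specNST : SpecNST := by
  intro K _ μ _ L p a hL hpm ham hp0 ha0 hle hp2 ha2 h00
  refine ⟨sel p a, meas_sel hpm ham, fun t => rfl, fun l t => ?_, ?_⟩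
  · show (if _ then _ else _) = _ ∨ (if _ then _ else _) = _
    split_ifs
    · exact Or.inl rfl
    · exact Or.inr rfl
  · have h1 : ∀ᵐ t ∂μ, ∀ l i, a l i t ≤ L * p l i t :=
      ae_all_iff.2 fun l => ae_all_iff.2 fun i => hle l i
    have h2 : ∀ᵐ t ∂μ, ∀ l i, p l i t = p (l + 1) (2 * i) t + p (l + 1) (2 * i + 1) t :=
      ae_all_iff.2 fun l => ae_all_iff.2 fun i => hp2 l i
    have h3 : ∀ᵐ t ∂μ, ∀ l i, a l i t = a (l + 1) (2 * i) t + a (l + 1) (2 * i + 1) t :=
      ae_all_iff.2 fun l => ae_all_iff.2 fun i => ha2 l i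
    filter_upwards [h1, h2, h3, h00] with t k1 k2 k3 k0
    intro l
    induction l with
    | zero =>
      show 0 < p 0 0 t ∧ p 0 0 t * a 0 0 t ≤ a 0 0 t
      rw [k0]
      exact ⟨one_pos, by rw [one_mul]⟩
    | succ l ih =>
      obtain ⟨ih1, ih2⟩ := ih
      by_cases hc : 0 < p (l + 1) (2 * sel p a l t) t ∧
          p (l + 1) (2 * sel p a l t) t * a 0 0 t ≤ a (l + 1) (2 * sel p a l t) t
      · have hs : sel p a (l + 1) t = 2 * sel p a l t := if_pos hc
        rw [hs]
        exact hc
      · have hs : sel p a (l + 1) t = 2 * sel p a l t + 1 := if_neg hc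
        rw [hs]
        have e1 := k2 l (sel p a l t)
        have e2 := k3 l (sel p a l t)
        have e3 := k1 (l + 1) (2 * sel p a l t)
        have e4 := k1 (l + 1) (2 * sel p a l t + 1)
        have e5 := hp0 (l + 1) (2 * sel p a l t) t
        have e6 := hp0 (l + 1) (2 * sel p a l t + 1) t
        have e7 := ha0 (l + 1) (2 * sel p a l t) t
        have e8 := ha0 0 0 t
        rcases e5.eq_or_lt with h | h
        · have e9 : a (l + 1) (2 * sel p a l t) t = 0 := by
            rw [← h, mul_zero] at e3
            exact le_antisymm e3 e7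
          have e10 : p (l + 1) (2 * sel p a l t + 1) t = p l (sel p a l t) t := by
            rw [e1, ← h, zero_add]
          have e11 : a (l + 1) (2 * sel p a l t + 1) t = a l (sel p a l t) t := by
            rw [e2, e9, zero_add]
          rw [e10, e11]
          exact ⟨ih1, ih2⟩
        · have e9 : a (l + 1) (2 * sel p a l t) t < p (l + 1) (2 * sel p a l t) t * a 0 0 t := by
            by_contra hcon
            exact hc ⟨h, not_lt.1 hcon⟩
          have e10 : p (l + 1) (2 * sel p a l t + 1) t * a 0 0 t <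
              a (l + 1) (2 * sel p a l t + 1) t := by
            rw [e1, e2, add_mul] at ih2
            linarith
          have e11 : 0 ≤ p (l + 1) (2 * sel p a l t + 1) t * a 0 0 t := mul_nonneg e6 e8
          have e12 : 0 < L * p (l + 1) (2 * sel p a l t + 1) t := by linarith
          exact ⟨(mul_pos_iff_of_pos_left hL).1 e12, e10.le⟩

end Pool.Agent.Lib.MP5bcdfb.VX
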