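import Pool.Agent.Lib.MP_5bcdfb_an.VX.Spec

/-! Module OWM (helper52): the increment measure exists. -/

set_option autoImplicit false

namespace Pool.Agent.Lib.MP5bcdfb.VX

open MeasureTheory Set TopologicalSpace Filter Topology

noncomputable section

namespace OWMM

/-- the values of `ow` on the open neighbourhoods of `C` -/
def S {K : Type} [TopologicalSpace K] (W : C(K, ℝ) → ℝ) (f g : C(K, ℝ)) (C : Set K) : Set ℝ :=
  {x | ∃ U : Set K, IsOpen U ∧ C ⊆ U ∧ x = ow W f g U}

/-- their infimum -/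
def lam {K : Type} [TopologicalSpace K] (W : C(K, ℝ) → ℝ) (f g : C(K, ℝ)) (C : Set K) : ℝ :=
  sInf (S W f g C)

variable {K : Type} [TopologicalSpace K] {W : C(K, ℝ) → ℝ} {f g : C(K, ℝ)}

theorem lam_nonneg (h0 : ∀ U : Set K, 0 ≤ ow W f g U) (C : Set K) : 0 ≤ lam W f g C := by
  apply Real.sInf_nonneg
  rintro x ⟨U, -, -, rfl⟩
  exact h0 U

theorem bdd (h0 : ∀ U : Set K, 0 ≤ ow W f g U) (C : Set K) : BddBelow (S W f g C) := by
  refine ⟨0, ?_⟩
  rintro x ⟨U, -, -, rfl⟩
  exact h0 U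

theorem ne (C : Set K) : (S W f g C).Nonempty :=
  ⟨ow W f g univ, univ, isOpen_univ, subset_univ _, rfl⟩

theorem lam_le (h0 : ∀ U : Set K, 0 ≤ ow W f g U) {C U : Set K} (hU : IsOpen U) (hC : C ⊆ U) :
    lam W f g C ≤ ow W f g U := csInf_le (bdd h0 C) ⟨U, hU, hC, rfl⟩

theorem exists_lt (C : Set K) {ε : ℝ} (hε : 0 < ε) :
    ∃ U : Set K, IsOpen U ∧ C ⊆ U ∧ ow W f g U < lam W f g C + ε := by
  obtain ⟨x, ⟨U, h1, h2, rfl⟩, hx⟩ := exists_lt_of_csInf_lt (ne (W := W) (f := f) (g := g) C)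
    (show sInf (S W f g C) < lam W f g C + ε by unfold lam; linarith)
  exact ⟨U, h1, h2, hx⟩

theorem lam_mono (h0 : ∀ U : Set K, 0 ≤ ow W f g U) {C₁ C₂ : Set K} (h : C₁ ⊆ C₂) :
    lam W f g C₁ ≤ lam W f g C₂ := by
  refine le_csInf (ne C₂) ?_
  rintro x ⟨U, h1, h2, rfl⟩
  exact lam_le h0 h1 (h.trans h2)

end OWMM

open OWMM in
theorem specOWM (hOWB : SpecOWB) : SpecOWM := by
  intro K _ _ _ _ W f g M hW hf hfg hM
  obtain ⟨h0, -, hmono, happ, hsub, hsup⟩ := hOWB K W f g M hW hf hfg hM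
  have hz : ∀ U : Set K, 0 ≤ ow W f g U := fun U => (h0 U).1
  have hunion : ∀ C₁ C₂ : Set K, lam W f g (C₁ ∪ C₂) ≤ lam W f g C₁ + lam W f g C₂ := by
    intro C₁ C₂
    refine le_of_forall_pos_le_add fun ε hε => ?_
    obtain ⟨U₁, ho₁, hs₁, hl₁⟩ := exists_lt (W := W) (f := f) (g := g) C₁ (half_pos hε)
    obtain ⟨U₂, ho₂, hs₂, hl₂⟩ := exists_lt (W := W) (f := f) (g := g) C₂ (half_pos hε)
    have h1 := lam_le hz (ho₁.union ho₂) (union_subset_union hs₁ hs₂)
    have h2 := hsub U₁ U₂ ho₁ ho₂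
    linarith
  have hdisj : ∀ C₁ C₂ : Set K, IsClosed C₁ → IsClosed C₂ → Disjoint C₁ C₂ →
      lam W f g C₁ + lam W f g C₂ ≤ lam W f g (C₁ ∪ C₂) := by
    intro C₁ C₂ hc₁ hc₂ hd
    refine le_of_forall_pos_le_add fun ε hε => ?_
    obtain ⟨U, ho, hs, hl⟩ := exists_lt (W := W) (f := f) (g := g) (C₁ ∪ C₂) hε
    obtain ⟨O₁, O₂, hO₁, hO₂, hC₁, hC₂, hO⟩ := normal_separation hc₁ hc₂ hd
    have h1 := lam_le hz (ho.inter hO₁) (subset_inter (subset_union_left.trans hs) hC₁)
    have h2 := lam_le hz (ho.inter hO₂) (subset_inter (subset_union_right.trans hs) hC₂)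
    have h3 := hsup (U ∩ O₁) (U ∩ O₂) (hO.mono inter_subset_right inter_subset_right)
    have h4 := hmono ((U ∩ O₁) ∪ (U ∩ O₂)) U (union_subset inter_subset_left inter_subset_left)
    linarith
  let ct : Content K :=
    { toFun := fun C => (lam W f g (C : Set K)).toNNReal
      mono' := fun C₁ C₂ h => Real.toNNReal_le_toNNReal (lam_mono hz h)
      sup_disjoint' := by
        intro C₁ C₂ hd h1 h2
        rw [← Real.toNNReal_add (lam_nonneg hz _) (lam_nonneg hz _), Compacts.coe_sup]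
        congr 1
        exact le_antisymm (hunion _ _) (hdisj _ _ h1 h2 hd)
      sup_le' := by
        intro C₁ C₂
        rw [← Real.toNNReal_add (lam_nonneg hz _) (lam_nonneg hz _), Compacts.coe_sup]
        exact Real.toNNReal_le_toNNReal (hunion _ _) }
  have hct : ∀ C : Compacts K, ct C = ENNReal.ofReal (lam W f g (C : Set K)) := fun C => rfl
  have hreg : ct.ContentRegular := by
    intro C
    refine le_antisymm (le_iInf₂ fun C' h => ct.mono C C' (h.trans interior_subset)) ?_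
    refine ENNReal.le_of_forall_pos_le_add fun ε hε _ => ?_
    obtain ⟨U, ho, hs, hl⟩ := exists_lt (W := W) (f := f) (g := g) (C : Set K)
      (show (0 : ℝ) < ε from hε)
    obtain ⟨L, hL, hCL, hLU⟩ := exists_compact_between C.isCompact ho hs
    refine (iInf₂_le (⟨L, hL⟩ : Compacts K) hCL).trans ?_
    rw [hct, hct]
    have h1 : lam W f g L ≤ lam W f g (C : Set K) + ε := (lam_le hz ho hLU).trans hl.le
    calc ENNReal.ofReal (lam W f g ((⟨L, hL⟩ : Compacts K) : Set K)) ≤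
        ENNReal.ofReal (lam W f g (C : Set K) + ε) := ENNReal.ofReal_le_ofReal h1
      _ = ENNReal.ofReal (lam W f g (C : Set K)) + ENNReal.ofReal ε :=
        ENNReal.ofReal_add (lam_nonneg hz _) ε.2
      _ = _ := by rw [ENNReal.ofReal_coe_nnreal]
  have hcomp : ∀ C : Set K, IsCompact C → ct.measure C = ENNReal.ofReal (lam W f g C) := by
    intro C hC
    have h1 := ct.measure_eq_content_of_regular hreg (⟨C, hC⟩ : Compacts K)
    exact h1.trans (hct (⟨C, hC⟩ : Compacts K))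
  have hfin : IsFiniteMeasure ct.measure := by
    constructor
    rw [hcomp univ isCompact_univ]
    exact ENNReal.ofReal_lt_top
  refine ⟨ct.measure, ⟨hfin, ?_⟩⟩
  intro U hU
  apply le_antisymm
  · refine ENNReal.toReal_le_of_le_ofReal (hz U) ?_
    rw [hU.measure_eq_iSup_isCompact]
    refine iSup₂_le fun C hCU => iSup_le fun hC => ?_
    rw [hcomp C hC]
    exact ENNReal.ofReal_le_ofReal (lam_le hz hU hCU)
  · refine le_of_forall_pos_le_add fun ε hε => ?_
    obtain ⟨p, q, hB, hlt⟩ := happ U ε hε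
    have hSc : IsCompact (tsupport fun t => q t - p t) := (isClosed_tsupport _).isCompact
    have h1 : W q - W p ≤ lam W f g (tsupport fun t => q t - p t) := by
      refine le_csInf (ne _) ?_
      rintro x ⟨U', hU', hs, rfl⟩
      have hB' : Bt f g U' p q := ⟨hB.low, hB.le, hB.upp, hs⟩
      exact (hOWB K W f g M hW hf hfg hM).2.1 U' p q hB'
    have h2 : lam W f g (tsupport fun t => q t - p t) ≤ (ct.measure U).toReal := by
      have h3 : ct.measure (tsupport fun t => q t - p t) ≤ ct.measure U := measure_mono hB.supp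
      rw [hcomp _ hSc] at h3
      have h4 := ENNReal.toReal_mono (measure_ne_top ct.measure U) h3
      rwa [ENNReal.toReal_ofReal (lam_nonneg hz _)] at h4
    linarith

end

end Pool.Agent.Lib.MP5bcdfb.VX
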