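import Pool.Agent.Lib.MP_5bcdfb_an.VX.Spec

/-!
# MP_5bcdfb, module REG: from disjoint open sets to uniform inner regularity
-/

set_option autoImplicit false

namespace Pool.Agent.Lib.MP5bcdfb.VX

open MeasureTheory Set Filter Topology
open Pool.Agent.Lib.MP5bcdfb.TS Pool.Agent.Lib.MP5bcdfb.VV

namespace REGM

/-- one step of the recursion -/
theorem step {K : Type} [MetricSpace K] [CompactSpace K] [MeasurableSpace K] [BorelSpace K]
    (lam : Measure K) [IsFiniteMeasure lam] (U C : Set K) (ε : ℝ) (hε : 0 < ε) (hU : IsOpen U)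
    (hC : IsCompact C) (hCU : C ⊆ U) (h : ε < (lam (U \ C)).toReal) :
    ∃ (O C' : Set K), (IsCompact C' ∧ C' ⊆ U) ∧ IsOpen O ∧ C ⊆ C' ∧ O ⊆ C' ∧ Disjoint O C ∧
      ε < (lam O).toReal := by
  have h1 : ENNReal.ofReal ε < lam (U \ C) :=
    (ENNReal.ofReal_lt_iff_lt_toReal hε.le (measure_ne_top lam _)).mpr h
  have h2 : IsOpen (U \ C) := hU.sdiff hC.isClosed
  obtain ⟨D, hDU, hD, hlt⟩ := h2.exists_lt_isCompact h1
  obtain ⟨L, hL, hDL, hLU⟩ := exists_compact_between hD h2 hDU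
  refine ⟨interior L, C ∪ L, ⟨hC.union hL, Set.union_subset hCU (hLU.trans Set.sdiff_subset)⟩,
    isOpen_interior, Set.subset_union_left, interior_subset.trans Set.subset_union_right, ?_, ?_⟩
  · rw [Set.disjoint_left]
    intro t ht htC
    exact (hLU (interior_subset ht)).2 htC
  · have h3 : ENNReal.ofReal ε < lam (interior L) := hlt.trans_le (measure_mono hDL)
    exact (ENNReal.ofReal_lt_iff_lt_toReal hε.le (measure_ne_top lam _)).mp h3

end REGM

theorem specREG : SpecREG := by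
  classical
  intro K _ _ _ _ S M hB hD
  unfold Reg
  by_contra hcon
  push Not at hcon
  obtain ⟨U, ε, hU, hε, hbad⟩ := hcon
  have hstep : ∀ C : {C : Set K // IsCompact C ∧ C ⊆ U}, ∃ (lam : Measure K) (O : Set K)
      (C' : {C : Set K // IsCompact C ∧ C ⊆ U}), lam ∈ S ∧ IsOpen O ∧ C.1 ⊆ C'.1 ∧ O ⊆ C'.1 ∧
        Disjoint O C.1 ∧ ε < (lam O).toReal := by
    intro C
    obtain ⟨lam, hlam, hlt⟩ := hbad C.1 C.2.1 C.2.2
    haveI := (hB lam hlam).1
    obtain ⟨O, C', hC', hO, a1, a2, a3, a4⟩ :=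
      REGM.step lam U C.1 ε hε hU C.2.1 C.2.2 hlt
    exact ⟨lam, O, ⟨C', hC'⟩, hlam, hO, a1, a2, a3, a4⟩
  choose lam O nx hlam hO hsub hOsub hdis hgt using hstep
  let c : ℕ → {C : Set K // IsCompact C ∧ C ⊆ U} :=
    fun n => nx^[n] ⟨∅, isCompact_empty, Set.empty_subset U⟩
  have hc : ∀ n, c (n + 1) = nx (c n) := fun n => Function.iterate_succ_apply' nx n _
  have hmono : Monotone (fun n => (c n).1) := by
    refine monotone_nat_of_le_succ ?_
    intro n
    have h1 := hsub (c n)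
    rw [← hc n] at h1
    exact h1
  have hlt : ∀ i j, i < j → Disjoint (O (c i)) (O (c j)) := by
    intro i j hij
    have h1 : O (c i) ⊆ (c (i + 1)).1 := by
      have h2 := hOsub (c i)
      rwa [← hc i] at h2
    have h3 : (c (i + 1)).1 ⊆ (c j).1 := hmono hij
    exact ((hdis (c j)).mono_right (h1.trans h3)).symm
  obtain ⟨j, hj⟩ := hD (fun j => O (c j)) (fun j => lam (c j)) ε hε (fun j => hO (c j))
    (fun i j hij => by
      rcases lt_or_gt_of_ne hij with h | h
      · exact hlt i j h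
      · exact (hlt j i h).symm) (fun j => hlam (c j))
  exact absurd hj (not_lt.mpr (hgt (c j)).le)

end Pool.Agent.Lib.MP5bcdfb.VX
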