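import Pool.Agent.Lib.MP_5bcdfb_an.TS.Sph
import Pool.Agent.Lib.MP_5bcdfb_an.VV.SPH
import Pool.Agent.Lib.MP_5bcdfb_an.VX.GNX

/-!
# MP_5bcdfb : star body valued (radial Minkowski) valuations, the negative theorem
-/

set_option autoImplicit false

namespace Pool.Agent.Lib.MP5bcdfb.VX

open MeasureTheory Set Filter Topology
open Pool.Agent.Lib.MP5bcdfb.TS Pool.Agent.Lib.MP5bcdfb.VV

namespace RMVM

open GNXM in
theorem gny (hTRI : VV.SpecTRI) (hUWS : SpecUWS) (hCNX : SpecCNX)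
    (hRSW : SpecRSW) (K : Type) [MetricSpace K] [CompactSpace K] (γ : ℝ → K) (c : C(K, ℝ)) (hγ : Continuous γ)
    (hc : ∀ s, 0 ≤ s → s ≤ 1 → c (γ s) = s) (X : Type) [NormedAddCommGroup X] [NormedSpace ℝ X] [CompleteSpace X]
    (x : ℕ → X) (c₀ : ℝ) (hxU : UWN x) (hc₀ : 0 < c₀) (hx₀ : ∀ k, c₀ ≤ ‖x k‖) :
    ∃ D : ℕ, 24 ≤ D ∧ ¬ UCX (fun f : C(K, ℝ) => ∑' k, Wu D k (fun s => f (γ s)) • x k) := by
  obtain ⟨⟨C, hC, hxC⟩, -⟩ := hUWS X x hxU
  obtain ⟨hlip, htri01, -, -⟩ := hTRI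
  have htc : Continuous tri := by
    have : LipschitzWith 1 tri := LipschitzWith.of_dist_le_mul (fun x y => by
      rw [Real.dist_eq, Real.dist_eq]
      simpa using hlip x y)
    exact this.continuous
  -- the choice of `D`
  obtain ⟨D₀, hD₀⟩ := exists_nat_gt (64 * C / c₀)
  obtain ⟨D, hD24, hDN⟩ : ∃ D : ℕ, 24 ≤ D ∧ D₀ < D :=
    ⟨max 24 (D₀ + 1), le_max_left _ _, lt_of_lt_of_le (Nat.lt_succ_self _) (le_max_right _ _)⟩
  have hD24' : (24 : ℝ) ≤ D := by exact_mod_cast hD24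
  have hDpos : (0 : ℝ) < D := by linarith
  have hDD : (D₀ : ℝ) < D := by exact_mod_cast hDN
  have hTD : C * (16 / D) ≤ c₀ / 4 := by
    have h1 : 64 * C / c₀ < D := hD₀.trans hDD
    rw [div_lt_iff₀ hc₀] at h1
    rw [mul_div_assoc', div_le_iff₀ hDpos]
    nlinarith
  obtain ⟨hsum, hVval, hVcont⟩ := hCNX K γ hγ D hD24 X x hxU
  refine ⟨D, hD24, ?_⟩
  intro hU
  obtain ⟨δ, hδ, hUδ⟩ := hU 2 (c₀ / 8) (by norm_num) (by positivity)
  -- the choice of `k`
  have hinv : (1 / (D : ℝ)) < 1 := by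
    rw [div_lt_one hDpos]
    linarith
  obtain ⟨k, hk⟩ := exists_pow_lt_of_lt_one (show 0 < δ / 2 by positivity) hinv
  obtain ⟨w, hweq⟩ : ∃ w : ℝ, w = 1 / (D : ℝ) ^ (k + 1) := ⟨_, rfl⟩
  have hw0 : 0 < w := by
    rw [hweq]
    positivity
  have hwD : w ≤ 1 / D := by
    rw [hweq, pow_succ]
    apply one_div_le_one_div_of_le hDpos
    have : (1 : ℝ) ≤ (D : ℝ) ^ k := one_le_pow₀ (by linarith)
    nlinarith
  have hwδ : 2 * w < δ := by
    have h1 : w ≤ (1 / (D : ℝ)) ^ k := by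
      rw [hweq, one_div_pow]
      apply one_div_le_one_div_of_le (by positivity)
      exact pow_le_pow_right₀ (by linarith) (Nat.le_succ k)
    linarith
  have hw1 : 2 * w ≤ 1 := by
    have : 1 / (D : ℝ) ≤ 1 / 24 := one_div_le_one_div_of_le (by norm_num) hD24'
    linarith
  obtain ⟨M, hM⟩ : ∃ M : ℝ, M = (D : ℝ) ^ ((k + 1) ^ 2) := ⟨_, rfl⟩
  have hwM : ∀ s, hw D k s = tri (M * s) := by
    intro s
    rw [hM]
    rfl
  obtain ⟨F, hFx⟩ : ∃ F : C(K, ℝ), ∀ x, F x = tri (M * c x) :=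
    ⟨⟨fun x => tri (M * c x), htc.comp (continuous_const.mul c.continuous)⟩, fun x => rfl⟩
  obtain ⟨G, hGx⟩ : ∃ G : C(K, ℝ), ∀ x, G x = tri (M * c x) + 2 * w :=
    ⟨F + ContinuousMap.const K (2 * w), fun x => by
      rw [ContinuousMap.add_apply, ContinuousMap.const_apply, hFx]⟩
  have hF0 : 0 ≤ F := by
    rw [ContinuousMap.le_def]
    intro x
    rw [hFx, ContinuousMap.zero_apply]
    exact (htri01 _).1
  have hG0 : 0 ≤ G := by
    rw [ContinuousMap.le_def]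
    intro x
    rw [hGx, ContinuousMap.zero_apply]
    have := (htri01 (M * c x)).1
    linarith
  have hFn : ‖F‖ ≤ 2 := by
    rw [ContinuousMap.norm_le _ (by norm_num)]
    intro x
    rw [hFx, Real.norm_eq_abs, abs_le]
    have := htri01 (M * c x)
    constructor <;> linarith
  have hGn : ‖G‖ ≤ 2 := by
    rw [ContinuousMap.norm_le _ (by norm_num)]
    intro x
    rw [hGx, Real.norm_eq_abs, abs_le]
    have := htri01 (M * c x)
    constructor <;> linarith
  have hFG : ‖F - G‖ < δ := by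
    refine lt_of_le_of_lt ?_ hwδ
    rw [ContinuousMap.norm_le _ (by positivity)]
    intro x
    rw [ContinuousMap.sub_apply, hFx, hGx, Real.norm_eq_abs]
    have : tri (M * c x) - (tri (M * c x) + 2 * w)
        = -(2 * w) := by ring
    rw [this, abs_neg, abs_of_pos (by positivity)]
  have hmain := hUδ F G hF0 hG0 hFn hGn hFG
  simp only at hmain
  rw [← (hsum F).tsum_sub (hsum G)] at hmain
  -- the coefficients
  obtain ⟨hr1, hr2, hr3⟩ := hRSW D k hD24
  have hVF : ∀ j, Wu D j (fun s => F (γ s)) = Wu D j (hw D k) := by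
    intro j
    apply Wu_congr
    intro s hs0 hs1
    rw [hFx, hc s hs0 hs1, hwM]
  have hVG : ∀ j, Wu D j (fun s => G (γ s)) =
      Wu D j (fun s => hw D k s + 2 / (D : ℝ) ^ (k + 1)) := by
    intro j
    apply Wu_congr
    intro s hs0 hs1
    rw [hGx, hc s hs0 hs1]
    have : 2 * w = 2 / (D : ℝ) ^ (k + 1) := by rw [hweq]; ring
    rw [this, hwM]
  obtain ⟨d, hd⟩ : ∃ d : ℕ → ℝ, ∀ j, d j = Wu D j (hw D k) -
      Wu D j (fun s => hw D k s + 2 / (D : ℝ) ^ (k + 1)) := ⟨_, fun j => rfl⟩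
  have hterm : ∀ j, Wu D j (fun s => F (γ s)) • x j - Wu D j (fun s => G (γ s)) • x j =
      d j • x j := by
    intro j
    rw [← sub_smul, hVF, hVG, hd]
  have hs : Summable fun j => d j • x j := by
    have h1 := (hsum F).sub (hsum G)
    exact h1.congr fun j => hterm j
  have htsum : (∑' j, (Wu D j (fun s => F (γ s)) • x j - Wu D j (fun s => G (γ s)) • x j)) =
      ∑' j, d j • x j := tsum_congr hterm
  rw [htsum] at hmain
  have hrest := rest_le x d k C (16 / D) hC hxC hs (fun N => by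
    have h1 := hr3 N
    refine le_of_eq_of_le (Finset.sum_congr rfl fun j _ => ?_) h1
    rw [hd])
  have hdk : 1 / 2 ≤ d k := by
    rw [hd, hr2]
    linarith
  have hnk : c₀ / 2 ≤ ‖d k • x k‖ := by
    rw [norm_smul, Real.norm_eq_abs, abs_of_nonneg (by linarith)]
    have := hx₀ k
    nlinarith
  have htr : ‖d k • x k‖ ≤ ‖∑' j, d j • x j‖ + ‖(∑' j, d j • x j) - d k • x k‖ := by
    have h1 := norm_sub_le (∑' j, d j • x j) ((∑' j, d j • x j) - d k • x k)
    rw [sub_sub_cancel] at h1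
    exact h1
  linarith


/-- the centres -/
noncomputable def ce (k : ℕ) : ℝ := (1 / 2 : ℝ) ^ (k + 1)

/-- the bumps: `1` at `2^(-(k+1))`, supported in `(3/4, 5/4) 2^(-(k+1))` -/
noncomputable def bu (k : ℕ) (y : ℝ) : ℝ := max 0 (1 - |y - ce k| * (4 / ce k))

theorem ce_pos (k : ℕ) : 0 < ce k := by unfold ce; positivity

theorem bu_nonneg (k : ℕ) (y : ℝ) : 0 ≤ bu k y := le_max_left _ _

theorem bu_le (k : ℕ) (y : ℝ) : bu k y ≤ 1 := by
  have h := ce_pos k
  have : 0 ≤ |y - ce k| * (4 / ce k) := by positivity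
  exact max_le zero_le_one (by linarith)

theorem bu_one (k : ℕ) : bu k (ce k) = 1 := by simp [bu]

theorem bu_supp (k : ℕ) (y : ℝ) (h : bu k y ≠ 0) : 3 / 4 * ce k < y ∧ y < 5 / 4 * ce k := by
  have hp := ce_pos k
  by_contra hn
  apply h
  unfold bu
  apply max_eq_left
  have h1 : ce k / 4 ≤ |y - ce k| := by
    by_contra h2
    push Not at h2
    apply hn
    rw [abs_lt] at h2
    constructor <;> linarith
  have h2 : 1 ≤ |y - ce k| * (4 / ce k) := by
    calc (1 : ℝ) = (ce k / 4) * (4 / ce k) := by field_simp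
      _ ≤ _ := mul_le_mul_of_nonneg_right h1 (by positivity)
  linarith

theorem bu_disj (j k : ℕ) (hjk : j < k) (y : ℝ) (h1 : bu j y ≠ 0) (h2 : bu k y ≠ 0) : False := by
  have a1 := (bu_supp j y h1).1
  have a2 := (bu_supp k y h2).2
  have hp := ce_pos k
  have h3 : 2 * ce k ≤ ce j := by
    unfold ce
    have : (1 / 2 : ℝ) ^ (j + 1) ≥ (1 / 2 : ℝ) ^ k := pow_le_pow_of_le_one (by norm_num) (by norm_num) (by omega)
    rw [pow_succ (1 / 2 : ℝ) k]
    linarith
  linarith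

theorem bu_cont (k : ℕ) : Continuous (bu k) := by unfold bu; fun_prop

theorem bu_sum (A : Finset ℕ) (ε : ℕ → ℝ) (hε : ∀ k, |ε k| ≤ 1) (y : ℝ) : |∑ k ∈ A, ε k * bu k y| ≤ 1 := by
  by_cases h : ∃ k ∈ A, bu k y ≠ 0
  · obtain ⟨k, hk, hk0⟩ := h
    rw [Finset.sum_eq_single_of_mem k hk]
    · rw [abs_mul, abs_of_nonneg (bu_nonneg k y)]
      have := hε k
      have h1 := bu_le k y
      have h2 := bu_nonneg k y
      nlinarith
    · intro j _ hj
      have : bu j y = 0 := by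
        by_contra h0
        rcases lt_or_gt_of_ne hj with h | h
        · exact bu_disj j k h y h0 hk0
        · exact bu_disj k j h y hk0 h0
      rw [this, mul_zero]
  · push Not at h
    rw [Finset.sum_eq_zero fun k hk => by rw [h k hk, mul_zero]]
    simp

/-- the bumps on `K` -/
noncomputable def bk {K : Type} [TopologicalSpace K] (c : C(K, ℝ)) (k : ℕ) : C(K, ℝ) :=
  ⟨fun t => bu k (c t), (bu_cont k).comp c.continuous⟩

theorem bk_uwn {K : Type} [MetricSpace K] [CompactSpace K] (c : C(K, ℝ)) : UWN (bk c) := by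
  intro τ hτ
  obtain ⟨N, hN⟩ := exists_nat_gt (1 / τ)
  refine ⟨N, fun φ hφ A hA => ?_⟩
  obtain ⟨ε, hε⟩ : ∃ ε : ℕ → ℝ, ∀ k, ε k = SignType.sign (φ (bk c k)) := ⟨_, fun k => rfl⟩
  have hε1 : ∀ k, |ε k| ≤ 1 := by
    intro k
    rw [hε]
    rcases lt_trichotomy (φ (bk c k)) 0 with h | h | h
    · simp [sign_neg h]
    · simp [h]
    · simp [sign_pos h]
  have h1 : ‖∑ k ∈ A, ε k • bk c k‖ ≤ 1 := by
    rw [ContinuousMap.norm_le _ zero_le_one]
    intro t
    have h2 := bu_sum A ε hε1 (c t)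
    rw [Real.norm_eq_abs]
    have h3 : (∑ k ∈ A, ε k • bk c k) t = ∑ k ∈ A, ε k * bu k (c t) := by
      rw [ContinuousMap.sum_apply]
      rfl
    rw [h3]
    exact h2
  have h2 : φ (∑ k ∈ A, ε k • bk c k) = ∑ k ∈ A, |φ (bk c k)| := by
    rw [map_sum]
    refine Finset.sum_congr rfl fun k _ => ?_
    rw [map_smul, smul_eq_mul, hε, sign_mul_self]
  have h3 : φ (∑ k ∈ A, ε k • bk c k) ≤ 1 := by
    refine (le_abs_self _).trans ?_
    rw [← Real.norm_eq_abs]
    refine (φ.le_opNorm _).trans ?_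
    have h0 := norm_nonneg (∑ k ∈ A, ε k • bk c k)
    have h5 := norm_nonneg φ
    nlinarith
  have h4 : (A.card : ℝ) * τ ≤ ∑ k ∈ A, |φ (bk c k)| := by
    have := Finset.sum_le_sum hA
    rw [Finset.sum_const, nsmul_eq_mul] at this
    exact this
  have h5 : (A.card : ℝ) < N := by
    refine lt_of_le_of_lt ?_ hN
    rw [le_div_iff₀ hτ]
    linarith
  exact_mod_cast h5.le

/-- the negative theorem for valuations with values in `C(S^(m-1))^+` -/
theorem rmv (hTRI : VV.SpecTRI) (hTHB : SpecTHB) (hUWS : SpecUWS) (hCNX : SpecCNX) (hRSW : SpecRSW)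
    (n m : ℕ) (hn : 2 ≤ n) (hm : 2 ≤ m) :
    ∃ V : C(Sph n, ℝ) → C(Sph m, ℝ), (∀ f, 0 ≤ f → 0 ≤ V f) ∧ ValX V ∧ ContX V ∧ ¬ UCX V := by
  obtain ⟨γ, c, h1, h2⟩ := VV.specSPH n hn
  obtain ⟨γ', c', h1', h2'⟩ := VV.specSPH m hm
  have hx₀ : ∀ k, (1 : ℝ) ≤ ‖bk (K := Sph m) c' k‖ := by
    intro k
    have h3 := (bk (K := Sph m) c' k).norm_coe_le_norm (γ' (ce k))
    have h4 : bk (K := Sph m) c' k (γ' (ce k)) = 1 := by
      change bu k (c' (γ' (ce k))) = 1
      rw [h2' (ce k) (ce_pos k).le (by unfold ce; exact pow_le_one₀ (by norm_num) (by norm_num))]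
      exact bu_one k
    rw [h4] at h3
    simpa using h3
  have hU : UWN (bk (K := Sph m) c') := bk_uwn (K := Sph m) c'
  obtain ⟨D, hD, hnot⟩ := gny hTRI hUWS hCNX hRSW (Sph n) γ c h1 h2 (C(Sph m, ℝ)) (bk (K := Sph m) c') 1 hU one_pos hx₀
  obtain ⟨hsum, hval, hcont⟩ := hCNX (Sph n) γ h1 D hD (C(Sph m, ℝ)) (bk (K := Sph m) c') hU
  refine ⟨_, ?_, hval, hcont, hnot⟩
  intro f _
  rw [ContinuousMap.le_def]
  intro t
  rw [ContinuousMap.zero_apply]
  have hev : (∑' k, Wu D k (fun s => f (γ s)) • bk (K := Sph m) c' k) t =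
      ∑' k, (Wu D k (fun s => f (γ s)) • bk (K := Sph m) c' k) t := by
    have := ContinuousMap.tsum_apply (hsum f) t
    exact this.symm
  rw [hev]
  refine tsum_nonneg fun k => ?_
  change 0 ≤ Wu D k (fun s => f (γ s)) * bu k (c' t)
  have hc : Continuous (fun s => f (γ s)) := f.continuous.comp h1
  exact mul_nonneg (((hTHB D (by omega)).2.2.2.1 _ hc).1 k).1 (bu_nonneg _ _)

end RMVM

end Pool.Agent.Lib.MP5bcdfb.VX
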