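import Pool.Agent.Lib.MP_5bcdfb_an.VX.Spec

/-!
# MP_5bcdfb, VX: module RSW (resonance of the partition)
-/

set_option autoImplicit false

namespace Pool.Agent.Lib.MP5bcdfb.VX

open MeasureTheory Set Filter Topology
open Pool.Agent.Lib.MP5bcdfb.TS Pool.Agent.Lib.MP5bcdfb.VV

namespace RSWM

theorem prodlow (a : ℕ → ℝ) (h : ∀ j, 0 ≤ a j ∧ a j ≤ 1) (n : ℕ) :
    (1 - ∑ j ∈ Finset.range n, a j ≤ ∏ j ∈ Finset.range n, (1 - a j)) ∧
      ∏ j ∈ Finset.range n, (1 - a j) ≤ 1 := by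
  induction n with
  | zero => simp
  | succ n ih =>
    obtain ⟨i1, i2⟩ := ih
    have h0 : (0 : ℝ) ≤ ∏ j ∈ Finset.range n, (1 - a j) :=
      Finset.prod_nonneg fun j _ => by linarith [(h j).2]
    obtain ⟨a0, a1⟩ := h n
    rw [Finset.sum_range_succ, Finset.prod_range_succ]
    constructor
    · nlinarith
    · nlinarith

theorem tk_self (D k : ℕ) (s : ℝ) : tk D k s (hw D k s) = 1 := by
  simp [tk]

theorem tk_nonneg (D k : ℕ) (s y : ℝ) : 0 ≤ tk D k s y := le_max_left _ _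

theorem tk_le (D k : ℕ) (s y : ℝ) : tk D k s y ≤ 1 := by
  refine max_le (by norm_num) ?_
  have : (0 : ℝ) ≤ |y - hw D k s| * (D : ℝ) ^ (k + 1) := by positivity
  linarith

theorem tk_cont (hBAS : VV.SpecBAS) (D j : ℕ) (hD : 2 ≤ D) (u : ℝ → ℝ) (hu : Continuous u) :
    Continuous fun s => tk D j s (u s) := by
  have h := (hBAS D j hD).1
  unfold tk
  exact continuous_const.max
    (continuous_const.sub (((hu.sub h).abs).mul continuous_const))

theorem geo (c : ℝ) (hc : 0 ≤ c) (n : ℕ) :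
    ∑ j ∈ Finset.range n, c * (1 / 2 : ℝ) ^ j ≤ 2 * c := by
  rw [← Finset.mul_sum]
  have h2 := sum_geometric_two_le n
  have h3 : c * ∑ i ∈ Finset.range n, (1 / 2 : ℝ) ^ i ≤ c * 2 :=
    mul_le_mul_of_nonneg_left h2 hc
  linarith

theorem part1 (hBAS : VV.SpecBAS) (hOVL : VV.SpecOVL) (D k : ℕ) (hD : 24 ≤ D) :
    1 / 2 ≤ Wu D k (hw D k) := by
  have hD2 : 2 ≤ D := by omega
  have hD24 : (24 : ℝ) ≤ (D : ℝ) := by exact_mod_cast hD
  have hD0 : (0 : ℝ) < (D : ℝ) := by linarith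
  have hc : Continuous (hw D k) := (hBAS D k hD2).1
  have hcj : ∀ j, Continuous fun s => tk D j s (hw D k s) := fun j =>
    tk_cont hBAS D j hD2 _ hc
  have e1 : Wu D k (hw D k) =
      ∫ s in (0 : ℝ)..1, ∏ j ∈ Finset.range k, (1 - tk D j s (hw D k s)) := by
    unfold Wu th
    simp only [tk_self, one_mul]
  have hP : Continuous fun s => ∏ j ∈ Finset.range k, (1 - tk D j s (hw D k s)) :=
    continuous_finsetProd _ fun j _ => continuous_const.sub (hcj j)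
  have hS : Continuous fun s => ∑ j ∈ Finset.range k, tk D j s (hw D k s) :=
    continuous_finsetSum _ fun j _ => hcj j
  have h1 : (∫ s in (0 : ℝ)..1, (1 - ∑ j ∈ Finset.range k, tk D j s (hw D k s))) ≤
      ∫ s in (0 : ℝ)..1, ∏ j ∈ Finset.range k, (1 - tk D j s (hw D k s)) := by
    refine intervalIntegral.integral_mono_on (by norm_num)
      ((continuous_const.sub hS).intervalIntegrable _ _) (hP.intervalIntegrable _ _)
      (fun s _ => ?_)
    exact (prodlow (fun j => tk D j s (hw D k s))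
      (fun j => ⟨tk_nonneg D j s _, tk_le D j s _⟩) k).1
  have e2 : (∫ s in (0 : ℝ)..1, (1 - ∑ j ∈ Finset.range k, tk D j s (hw D k s))) =
      1 - ∑ j ∈ Finset.range k, Vu D j (hw D k) := by
    rw [intervalIntegral.integral_sub (continuous_const.intervalIntegrable _ _)
      (hS.intervalIntegrable _ _),
      intervalIntegral.integral_finsetSum (fun j _ => (hcj j).intervalIntegrable _ _)]
    simp [Vu, tk]
  have h2 : ∑ j ∈ Finset.range k, Vu D j (hw D k) ≤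
      ∑ j ∈ Finset.range k, 6 / (D : ℝ) * (1 / 2 : ℝ) ^ j := by
    refine Finset.sum_le_sum fun j hj => ?_
    have hjk : j < k := Finset.mem_range.1 hj
    obtain ⟨-, -, -, h4, -⟩ := hBAS D j hD2
    obtain ⟨-, -, hv⟩ := h4 (hw D k) hc
    have ho := hOVL D j k hD2 hjk
    have hsub : {s : ℝ | s ∈ Icc (0 : ℝ) 1 ∧ |hw D k s - hw D j s| ≤ 1 / (D : ℝ) ^ (j + 1)} ⊆
        {s : ℝ | s ∈ Icc (0 : ℝ) 1 ∧ |hw D j s - hw D k s| ≤ 2 / (D : ℝ) ^ (j + 1)} := by
      rintro s ⟨hs1, hs2⟩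
      refine ⟨hs1, ?_⟩
      rw [abs_sub_comm]
      refine hs2.trans ?_
      exact div_le_div_of_nonneg_right (by norm_num) (by positivity)
    have hfin : volume {s : ℝ | s ∈ Icc (0 : ℝ) 1 ∧
        |hw D j s - hw D k s| ≤ 2 / (D : ℝ) ^ (j + 1)} ≠ ⊤ := by
      refine ne_top_of_le_ne_top (b := volume (Icc (0 : ℝ) 1)) ?_ (measure_mono fun s hs => hs.1)
      simp
    have h5 := ENNReal.toReal_mono hfin (measure_mono (μ := volume) hsub)
    refine (hv.trans (h5.trans ho)).trans ?_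
    have e3 : 6 / (D : ℝ) ^ (j + 1) = 6 / (D : ℝ) * (1 / (D : ℝ)) ^ j := by
      rw [one_div, inv_pow, pow_succ]
      field_simp
    rw [e3]
    refine mul_le_mul_of_nonneg_left ?_ (by positivity)
    refine pow_le_pow_left₀ (by positivity) ?_ j
    exact one_div_le_one_div_of_le (by norm_num) (by linarith)
  have h3 := geo (6 / (D : ℝ)) (by positivity) k
  have h4 : 2 * (6 / (D : ℝ)) ≤ 1 / 2 := by
    rw [mul_div_assoc', div_le_div_iff₀ hD0 (by norm_num)]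
    linarith
  rw [e1]
  rw [e2] at h1
  linarith

theorem part2 (D k : ℕ) (hD : 24 ≤ D) :
    Wu D k (fun s => hw D k s + 2 / (D : ℝ) ^ (k + 1)) = 0 := by
  have hD0 : (0 : ℝ) < (D : ℝ) := by
    have : (24 : ℝ) ≤ (D : ℝ) := by exact_mod_cast hD
    linarith
  have e : ∀ s : ℝ, tk D k s (hw D k s + 2 / (D : ℝ) ^ (k + 1)) = 0 := by
    intro s
    have h1 : hw D k s + 2 / (D : ℝ) ^ (k + 1) - hw D k s = 2 / (D : ℝ) ^ (k + 1) := by ring
    have hp : (0 : ℝ) < (D : ℝ) ^ (k + 1) := by positivity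
    unfold tk
    rw [h1, abs_of_pos (by positivity), div_mul_cancel₀ _ hp.ne']
    norm_num
  unfold Wu th
  simp only [e, zero_mul]
  exact intervalIntegral.integral_zero

theorem high (hVOL : VV.SpecVOL) (hBAS : VV.SpecBAS) {D j k : ℕ} (hD : 24 ≤ D) (hjk : k < j)
    {u : ℝ → ℝ} (hu : Continuous u)
    (hL : ∀ s s', |u s - u s'| ≤ (D : ℝ) ^ ((k + 1) ^ 2) * |s - s'|) :
    0 ≤ Vu D j u ∧ Vu D j u ≤ 4 / (D : ℝ) ^ (j + 1) := by
  have hD2 : 2 ≤ D := by omega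
  have hD1 : (1 : ℝ) ≤ (D : ℝ) := by exact_mod_cast (by omega : 1 ≤ D)
  have hD0 : (0 : ℝ) < (D : ℝ) := by linarith
  obtain ⟨-, -, -, h4, -⟩ := hBAS D j hD2
  obtain ⟨h0, -, hv⟩ := h4 u hu
  refine ⟨h0, hv.trans ?_⟩
  have hw : (0 : ℝ) ≤ 1 / (D : ℝ) ^ (j + 1) := by positivity
  have h := hVOL D j u (1 / (D : ℝ) ^ (j + 1)) (1 / (D : ℝ) ^ (j + 1)) hD2 hu hw hw ?_
  · refine h.trans (le_of_eq ?_)
    ring
  · intro s s' _ _ _ _ hss
    refine (hL s s').trans ?_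
    have hexp : (j + 1) + (k + 1) ^ 2 ≤ (j + 1) ^ 2 := by
      obtain ⟨m, rfl⟩ : ∃ m, j = k + 1 + m := ⟨j - (k + 1), by omega⟩
      nlinarith
    have h1 : (D : ℝ) ^ ((k + 1) ^ 2) * |s - s'| ≤
        (D : ℝ) ^ ((k + 1) ^ 2) * (1 / (D : ℝ) ^ ((j + 1) ^ 2)) :=
      mul_le_mul_of_nonneg_left hss (by positivity)
    refine h1.trans ?_
    rw [mul_one_div, div_le_div_iff₀ (by positivity) (by positivity), one_mul, ← pow_add]
    exact pow_le_pow_right₀ hD1 (by omega)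

theorem low (hBAS : VV.SpecBAS) (hTHB : SpecTHB) {D j k : ℕ} (hD : 24 ≤ D) (hjk : j < k) :
    |Wu D j (hw D k) - Wu D j (fun s => hw D k s + 2 / (D : ℝ) ^ (k + 1))| ≤
      4 / (D : ℝ) * (1 / 2) ^ (k - 1 - j) := by
  have hD2 : 2 ≤ D := by omega
  have hD24 : (24 : ℝ) ≤ (D : ℝ) := by exact_mod_cast hD
  have hD0 : (0 : ℝ) < (D : ℝ) := by linarith
  obtain ⟨-, -, -, -, h5⟩ := hTHB D hD2
  obtain ⟨hc, -, -, -, -⟩ := hBAS D k hD2
  have h := h5 j (hw D k) (fun s => hw D k s + 2 / (D : ℝ) ^ (k + 1)) (2 / (D : ℝ) ^ (k + 1)) hc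
    (hc.add continuous_const) (fun s _ _ => by
      have e : hw D k s - (hw D k s + 2 / (D : ℝ) ^ (k + 1)) = -(2 / (D : ℝ) ^ (k + 1)) := by ring
      rw [e, abs_neg, abs_of_pos (by positivity)])
  refine h.trans ?_
  obtain ⟨m, rfl⟩ : ∃ m, k = j + 1 + m := ⟨k - (j + 1), by omega⟩
  have e1 : j + 1 + m - 1 - j = m := by omega
  rw [e1]
  have e2 : 2 * (D : ℝ) ^ (j + 1) * (2 / (D : ℝ) ^ (j + 1 + m + 1)) =
      4 / (D : ℝ) * (1 / (D : ℝ)) ^ m := by
    rw [one_div, inv_pow]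
    field_simp
    ring
  rw [e2]
  refine mul_le_mul_of_nonneg_left ?_ (by positivity)
  refine pow_le_pow_left₀ (by positivity) ?_ m
  exact one_div_le_one_div_of_le (by norm_num) (by linarith)

theorem term (hVOL : VV.SpecVOL) (hBAS : VV.SpecBAS) (hTHB : SpecTHB) {D j k : ℕ} (hD : 24 ≤ D)
    (hjk : j ≠ k) :
    |Wu D j (hw D k) - Wu D j (fun s => hw D k s + 2 / (D : ℝ) ^ (k + 1))| ≤
      4 / (D : ℝ) * (1 / 2) ^ j + (if j < k then 4 / (D : ℝ) * (1 / 2) ^ (k - 1 - j) else 0) := by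
  have hD2 : 2 ≤ D := by omega
  have hD24 : (24 : ℝ) ≤ (D : ℝ) := by exact_mod_cast hD
  have hD0 : (0 : ℝ) < (D : ℝ) := by linarith
  rcases lt_or_gt_of_ne hjk with h | h
  · rw [if_pos h]
    have h1 := low hBAS hTHB hD h
    have h2 : (0 : ℝ) ≤ 4 / (D : ℝ) * (1 / 2) ^ j := by positivity
    linarith
  · rw [if_neg (by omega), add_zero]
    obtain ⟨hc, -, hL, -, -⟩ := hBAS D k hD2
    obtain ⟨-, -, -, hW, -⟩ := hTHB D hD2
    have hA := high hVOL hBAS hD h hc hL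
    have hB := high hVOL hBAS hD h (u := fun s => hw D k s + 2 / (D : ℝ) ^ (k + 1))
      (hc.add continuous_const) (fun s s' => by
        have e : hw D k s + 2 / (D : ℝ) ^ (k + 1) - (hw D k s' + 2 / (D : ℝ) ^ (k + 1)) =
            hw D k s - hw D k s' := by ring
        rw [e]
        exact hL s s')
    have wA := (hW (hw D k) hc).1 j
    have wB := (hW (fun s => hw D k s + 2 / (D : ℝ) ^ (k + 1)) (hc.add continuous_const)).1 j
    have h3 : |Wu D j (hw D k) - Wu D j (fun s => hw D k s + 2 / (D : ℝ) ^ (k + 1))| ≤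
        4 / (D : ℝ) ^ (j + 1) := by
      rw [abs_le]
      constructor
      · linarith [hA.2, hB.2, wA.1, wA.2, wB.1, wB.2]
      · linarith [hA.2, hB.2, wA.1, wA.2, wB.1, wB.2]
    refine h3.trans ?_
    have e2 : 4 / (D : ℝ) ^ (j + 1) = 4 / (D : ℝ) * (1 / (D : ℝ)) ^ j := by
      rw [one_div, inv_pow, pow_succ]
      field_simp
    rw [e2]
    refine mul_le_mul_of_nonneg_left ?_ (by positivity)
    refine pow_le_pow_left₀ (by positivity) ?_ j
    exact one_div_le_one_div_of_le (by norm_num) (by linarith)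

theorem sum_low (D k N : ℕ) (hD : 24 ≤ D) :
    ∑ j ∈ Finset.range N, (if j < k then 4 / (D : ℝ) * (1 / 2) ^ (k - 1 - j) else 0) ≤
      2 * (4 / (D : ℝ)) := by
  have hD24 : (24 : ℝ) ≤ (D : ℝ) := by exact_mod_cast hD
  have hD0 : (0 : ℝ) < (D : ℝ) := by linarith
  rw [← Finset.sum_filter]
  have h1 : ∑ j ∈ (Finset.range N).filter (fun j => j < k),
      4 / (D : ℝ) * (1 / 2) ^ (k - 1 - j) ≤
      ∑ j ∈ Finset.range k, 4 / (D : ℝ) * (1 / 2 : ℝ) ^ (k - 1 - j) := by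
    refine Finset.sum_le_sum_of_subset_of_nonneg ?_ (fun _ _ _ => by positivity)
    intro j hj
    rw [Finset.mem_filter] at hj
    exact Finset.mem_range.2 hj.2
  refine h1.trans ?_
  rw [Finset.sum_range_reflect (fun j => 4 / (D : ℝ) * (1 / 2 : ℝ) ^ j) k]
  exact geo (4 / (D : ℝ)) (by positivity) k

end RSWM

open RSWM in
theorem specRSW (hVOL : VV.SpecVOL) (hBAS : VV.SpecBAS) (hOVL : VV.SpecOVL) (hTHB : SpecTHB) :
    SpecRSW := by
  intro D k hD
  refine ⟨part1 hBAS hOVL D k hD, part2 D k hD, fun N => ?_⟩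
  have hD24 : (24 : ℝ) ≤ (D : ℝ) := by exact_mod_cast hD
  have hD0 : (0 : ℝ) < (D : ℝ) := by linarith
  have h1 : ∑ j ∈ (Finset.range N).erase k,
      |Wu D j (hw D k) - Wu D j (fun s => hw D k s + 2 / (D : ℝ) ^ (k + 1))| ≤
      ∑ j ∈ (Finset.range N).erase k, (4 / (D : ℝ) * (1 / 2) ^ j +
        (if j < k then 4 / (D : ℝ) * (1 / 2) ^ (k - 1 - j) else 0)) :=
    Finset.sum_le_sum fun j hj => term hVOL hBAS hTHB hD (Finset.ne_of_mem_erase hj)
  have h2 : ∑ j ∈ (Finset.range N).erase k, (4 / (D : ℝ) * (1 / 2) ^ j +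
        (if j < k then 4 / (D : ℝ) * (1 / 2) ^ (k - 1 - j) else 0)) ≤
      ∑ j ∈ Finset.range N, (4 / (D : ℝ) * (1 / 2) ^ j +
        (if j < k then 4 / (D : ℝ) * (1 / 2) ^ (k - 1 - j) else 0)) := by
    refine Finset.sum_le_sum_of_subset_of_nonneg (Finset.erase_subset _ _) (fun j _ _ => ?_)
    split_ifs <;> positivity
  have h3 := sum_low D k N hD
  have h4 := geo (4 / (D : ℝ)) (by positivity) N
  have h2' := h1.trans h2
  rw [Finset.sum_add_distrib] at h2'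
  have h7 : 2 * (4 / (D : ℝ)) + 2 * (4 / (D : ℝ)) = 16 / (D : ℝ) := by ring
  linarith

end Pool.Agent.Lib.MP5bcdfb.VX
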