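import Pool.Agent.Lib.MP_5bcdfb_an.VX.Spec

/-!
# MP_5bcdfb, module SMW: all coefficients change little (adapted from `VV/SML.lean`)
-/

set_option autoImplicit false

namespace Pool.Agent.Lib.MP5bcdfb.VX

open MeasureTheory Set Filter Topology
open Pool.Agent.Lib.MP5bcdfb.TS Pool.Agent.Lib.MP5bcdfb.VV

theorem specSMW (hVOL : VV.SpecVOL) (hBAS : VV.SpecBAS) (hTHB : SpecTHB) : SpecSMW := by
  intro D u ε hD hu hε
  have hDr : (2 : ℝ) ≤ D := by exact_mod_cast hD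
  have hD0 : (0 : ℝ) < D := by linarith
  have hD1 : (1 : ℝ) ≤ D := by linarith
  -- uniform continuity
  have huc : UniformContinuousOn u (Icc (0 : ℝ) 1) :=
    isCompact_Icc.uniformContinuousOn_of_continuous hu.continuousOn
  rw [Metric.uniformContinuousOn_iff] at huc
  obtain ⟨δ, hδ, huc'⟩ := huc (ε / 8) (by linarith)
  obtain ⟨k₀, hk₀⟩ := exists_pow_lt_of_lt_one (show (0 : ℝ) < min δ (ε / 8) from
    lt_min hδ (by linarith)) (show (1 / 2 : ℝ) < 1 by norm_num)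
  have hsmall : ∀ k : ℕ, k₀ ≤ k → 1 / (D : ℝ) ^ (k + 1) < min δ (ε / 8) := by
    intro k hk
    refine lt_of_le_of_lt ?_ hk₀
    rw [one_div, ← inv_pow, one_div]
    calc ((D : ℝ)⁻¹) ^ (k + 1) ≤ ((2 : ℝ)⁻¹) ^ (k + 1) := by
          apply pow_le_pow_left₀ (by positivity)
          exact inv_anti₀ (by norm_num) hDr
      _ ≤ ((2 : ℝ)⁻¹) ^ k₀ := pow_le_pow_of_le_one (by norm_num) (by norm_num) (by omega)
  have hsq : ∀ k : ℕ, 1 / (D : ℝ) ^ ((k + 1) ^ 2) ≤ 1 / (D : ℝ) ^ (k + 1) := by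
    intro k
    apply one_div_le_one_div_of_le (by positivity)
    apply pow_le_pow_right₀ hD1
    nlinarith
  obtain ⟨r, hr⟩ : ∃ r : ℝ, r = min (ε / 8) (ε / (2 * (D : ℝ) ^ k₀)) := ⟨_, rfl⟩
  have hr0 : 0 < r := by rw [hr]; exact lt_min (by linarith) (by positivity)
  have hr8 : r ≤ ε / 8 := by rw [hr]; exact min_le_left _ _
  have hrD : r * (2 * (D : ℝ) ^ k₀) ≤ ε := by
    have h1 : r ≤ ε / (2 * (D : ℝ) ^ k₀) := by rw [hr]; exact min_le_right _ _
    exact (le_div_iff₀ (by positivity)).1 h1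
  refine ⟨r, hr0, ?_⟩
  intro v hv huv k
  obtain ⟨hcw, -, -, hV, hL⟩ := hBAS D k hD
  obtain ⟨-, -, -, hW, hLW⟩ := hTHB D hD
  by_cases hk : k < k₀
  · have h1 := hLW k v u r hv hu huv
    refine h1.trans (le_trans ?_ hrD)
    rw [mul_comm]
    refine mul_le_mul_of_nonneg_left ?_ hr0.le
    exact mul_le_mul_of_nonneg_left (pow_le_pow_right₀ hD1 (by omega)) (by norm_num)
  · have hk' : k₀ ≤ k := not_lt.1 hk
    obtain ⟨a, ha⟩ : ∃ a : ℝ, a = 1 / (D : ℝ) ^ (k + 1) := ⟨_, rfl⟩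
    have ha0 : 0 ≤ a := by rw [ha]; positivity
    have ha1 : a < min δ (ε / 8) := by rw [ha]; exact hsmall k hk'
    have haδ : a < δ := lt_of_lt_of_le ha1 (min_le_left _ _)
    have ha8 : a < ε / 8 := lt_of_lt_of_le ha1 (min_le_right _ _)
    have hosc : ∀ s s' : ℝ, 0 ≤ s → s ≤ 1 → 0 ≤ s' → s' ≤ 1 →
        |s - s'| ≤ 1 / (D : ℝ) ^ ((k + 1) ^ 2) → |u s - u s'| ≤ ε / 8 := by
      intro s s' h0 h1 h0' h1' hss
      have h2 : dist s s' < δ := by
        rw [Real.dist_eq]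
        refine lt_of_le_of_lt (hss.trans (hsq k)) ?_
        rw [← ha]; exact haδ
      have h3 := huc' s ⟨h0, h1⟩ s' ⟨h0', h1'⟩ h2
      rw [Real.dist_eq] at h3
      exact h3.le
    obtain ⟨hu0, -, hu2⟩ := hV u hu
    obtain ⟨hv0, -, hv2⟩ := hV v hv
    have e1 := hVOL D k u (a + r) (ε / 8) hD hu (by linarith) (by linarith) hosc
    have e0 := hVOL D k u a (ε / 8) hD hu ha0 (by linarith) hosc
    have hmono : (volume {s : ℝ | s ∈ Icc (0 : ℝ) 1 ∧ |v s - hw D k s| ≤ 1 / (D : ℝ) ^ (k + 1)}).toReal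
        ≤ (volume {s : ℝ | s ∈ Icc (0 : ℝ) 1 ∧ |u s - hw D k s| ≤ a + r}).toReal := by
      apply ENNReal.toReal_mono
      · refine ne_top_of_le_ne_top ?_ (measure_mono (fun s hs => hs.1 :
          {s : ℝ | s ∈ Icc (0 : ℝ) 1 ∧ |u s - hw D k s| ≤ a + r} ⊆ Icc (0 : ℝ) 1))
        rw [Real.volume_Icc]
        exact ENNReal.ofReal_ne_top
      · apply measure_mono
        rintro s ⟨hs, hs2⟩
        refine ⟨hs, ?_⟩
        rw [← ha] at hs2
        have h4 := huv s hs.1 hs.2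
        have h5 : |u s - hw D k s| ≤ |u s - v s| + |v s - hw D k s| := abs_sub_le _ _ _
        rw [abs_sub_comm (u s) (v s)] at h5
        linarith
    rw [← ha] at hu2 hmono hv2
    have hvle : Vu D k v ≤ ε := by linarith
    have hule : Vu D k u ≤ ε := by linarith
    have w1 := (hW v hv).1 k
    have w2 := (hW u hu).1 k
    rw [abs_le]
    constructor <;> linarith [w1.1, w1.2, w2.1, w2.2]

end Pool.Agent.Lib.MP5bcdfb.VX
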