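import Pool.Agent.Lib.MP_5bcdfb_an.VV.Spec

/-!
# MP_5bcdfb: for which Banach spaces `X` is every continuous `X`-valued valuation on star bodies uniformly continuous on bounded sets?

THEOREM (`Results/MP_5bcdfb_an/VectorValued.lean`). Let `X` be a Banach space, `n ≥ 2`. Every continuous valuation `C(S^(n-1))^+ → X` is uniformly
continuous on bounded sets if and only if `X` has no uniformly weakly null sequence `x` with `inf ‖x_k‖ > 0` (`UWN`: for every `τ > 0` there is `N`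
such that `|φ (x_k)| ≥ τ` for at most `N` indices `k`, for all `φ` in the unit ball of `X*`). The `if` part holds for `C(K)^+`, `K` any compact metric space.
(`X = ℝ`: the positive answer to Q1. True for Schur spaces and for Tsirelson's space, false if `X` contains `ℓ_p`, `1 < p < ∞`, `c_0` or `L_1`.)

Module `XXX` is the file `VX/XXX.lean` with `theorem specXXX (hYYY : SpecYYY) .. : SpecXXX` (the modules named after USES, in this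
order; `VV.SpecYYY`, `TS.SpecYYY` are from the earlier hives) in the namespace `Pool.Agent.Lib.MP5bcdfb.VX`, own lemmas in the namespace `XXXM`. Every module imports only
`Pool.Agent.Lib.MP_5bcdfb_an.VX.Spec`. All proofs below are complete. `toReal` everywhere: all measures are finite.

IDEA, negative part. The tents around the waves `h_k` are made into a partition: `θ_k = t_k ∏_(j<k) (1 - t_j)`, so `∑_k ∫ θ_k(s, f(γ s)) ds ≤ 1` for every `f`, and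
`V f = ∑_k (∫ θ_k(s, f(γ s)) ds) x_k` is a continuous valuation: near `f` all coefficients change little and `∑ |change| ≤ 2`, hence the norm is small (UWN).
IDEA, positive part. Let `p_k ≤ q_k ≤ p_k + 1/(k+1)`, `‖V q_k - V p_k‖ ≥ ε`. For `φ` in the unit ball of `X*` let `μ_(φ,k)` be the measure of the increments of `φ ∘ V` between `p_k` and
`q_k`. Disjoint supports give a UWN sequence, so (no UWN in `X`) all `μ_(φ,k)` are uniformly absolutely continuous for one `μ` (REG, CTM, UAC). Pass to a subsequence with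
strong Cesaro convergence of `1_(p_k ∈ I)` to `P_I` in `L_2(μ)` for all dyadic `I` and all further subsequences (CES). It is not UWN: for some `τ` and every `n` there are `φ_n` and a set `A_n` of `n` indices
with `φ_n(V q_k - V p_k) ≥ τ` for `k ∈ A_n`. The averages over `A_n` of the densities on `{p_k ∈ I}` tend weakly to `a_I`, additive in `I`, as is `P_I`. By the mediant inequality
there are nested `I_l(t)` with `a_(I_l)/P_(I_l) ≥ a` (NST), shrinking to `F(t)`. If `t ∈ K` is sent to the best `k ∈ A_n` with `p_k(t) ∈ I_l(t)`, the total mass is at least `∫ a` in the limit (LOW).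
Lusin: `F` is continuous up to small mass; so `V` jumps by at least `τ/8` arbitrarily near a continuous function.
-/

set_option autoImplicit false

namespace Pool.Agent.Lib.MP5bcdfb.VX

open MeasureTheory Set Filter Topology
open Pool.Agent.Lib.MP5bcdfb.TS Pool.Agent.Lib.MP5bcdfb.VV

noncomputable section

/-! ## Definitions -/

/-- uniformly weakly null sequences -/
def UWN {X : Type} [NormedAddCommGroup X] [NormedSpace ℝ X] (x : ℕ → X) : Prop :=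
  ∀ τ : ℝ, 0 < τ → ∃ N : ℕ, ∀ φ : X →L[ℝ] ℝ, ‖φ‖ ≤ 1 → ∀ A : Finset ℕ, (∀ k ∈ A, τ ≤ |φ (x k)|) → A.card ≤ N

/-- `X` has a uniformly weakly null sequence which is bounded away from `0` -/
def HasUWN (X : Type) [NormedAddCommGroup X] [NormedSpace ℝ X] : Prop :=
  ∃ (x : ℕ → X) (c : ℝ), UWN x ∧ 0 < c ∧ ∀ k, c ≤ ‖x k‖

/-- the tent around the `k`-th wave -/
def tk (D k : ℕ) (s y : ℝ) : ℝ := max 0 (1 - |y - hw D k s| * (D : ℝ) ^ (k + 1))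

/-- the tents made into a partition -/
def th (D k : ℕ) (s y : ℝ) : ℝ := tk D k s y * ∏ j ∈ Finset.range k, (1 - tk D j s y)

/-- the coefficient functionals, on functions on `[0, 1]` -/
def Wu (D k : ℕ) (u : ℝ → ℝ) : ℝ := ∫ s in (0 : ℝ)..1, th D k s (u s)

/-- pairs `f ≤ p ≤ q ≤ g` with `q - p` supported in `U` -/
structure Bt {K : Type} [TopologicalSpace K] (f g : C(K, ℝ)) (U : Set K) (p q : C(K, ℝ)) : Prop where
  low : ∀ t, f t ≤ p t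
  le : ∀ t, p t ≤ q t
  upp : ∀ t, q t ≤ g t
  supp : tsupport (fun t => q t - p t) ⊆ U

/-- the largest increment of `W` between `f` and `g` in `U` -/
def ow {K : Type} [TopologicalSpace K] (W : C(K, ℝ) → ℝ) (f g : C(K, ℝ)) (U : Set K) : ℝ :=
  sSup {x : ℝ | ∃ p q : C(K, ℝ), Bt f g U p q ∧ x = W q - W p}

/-- `μ` is the increment measure of `W` between `f` and `g` -/
structure IsJ {K : Type} [TopologicalSpace K] [MeasurableSpace K] (W : C(K, ℝ) → ℝ) (f g : C(K, ℝ)) (μ : Measure K) : Prop where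
  fin : IsFiniteMeasure μ
  eq : ∀ U : Set K, IsOpen U → (μ U).toReal = ow W f g U

/-- a set of finite measures which is small on disjoint open sets -/
def Dis {K : Type} [TopologicalSpace K] [MeasurableSpace K] (S : Set (Measure K)) : Prop :=
  ∀ (U : ℕ → Set K) (lam : ℕ → Measure K) (ε : ℝ), 0 < ε → (∀ j, IsOpen (U j)) → (∀ i j, i ≠ j → Disjoint (U i) (U j)) →
    (∀ j, lam j ∈ S) → ∃ j, (lam j (U j)).toReal < ε

/-- uniform inner regularity on open sets -/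
def Reg {K : Type} [TopologicalSpace K] [MeasurableSpace K] (S : Set (Measure K)) : Prop :=
  ∀ (U : Set K) (ε : ℝ), IsOpen U → 0 < ε → ∃ C : Set K, IsCompact C ∧ C ⊆ U ∧ ∀ lam ∈ S, (lam (U \ C)).toReal ≤ ε

/-- all measures finite, bounded by `M` -/
def Bdd {K : Type} [MeasurableSpace K] (S : Set (Measure K)) (M : ℝ) : Prop :=
  ∀ lam ∈ S, IsFiniteMeasure lam ∧ (lam univ).toReal ≤ M

/-- uniform absolute continuity -/
def Uac {K : Type} [MeasurableSpace K] (S : Set (Measure K)) (μ : Measure K) : Prop :=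
  ∀ ε : ℝ, 0 < ε → ∃ δ : ℝ, 0 < δ ∧ ∀ lam ∈ S, ∀ B : Set K, MeasurableSet B → (μ B).toReal ≤ δ → (lam B).toReal ≤ ε

/-- the index of the dyadic interval of level `l` of `[0, m)` containing `v` -/
def ix (m : ℝ) (l : ℕ) (v : ℝ) : ℕ := ⌊(2 : ℝ) ^ l * v / m⌋₊

/-! ## Negative part -/

/-- **THB** (200 lines), USES VV.BAS. The partition.
PROOF. All factors are in `[0, 1]`, `tk D j s ·` is `D^(j+1)`-Lipschitz, so the product is Lipschitz with constant `∑_(j ≤ k) D^(j+1) ≤ 2 D^(k+1)`. `∑_(k<N) θ_k = 1 - ∏_(k<N) (1 - t_k)` by induction on `N`.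
`th ≤ tk` gives `Wu ≤ Vu` (`Vu D k u = ∫ tk D k s (u s)`). `hw` is continuous by BAS. -/
def SpecTHB : Prop := ∀ D : ℕ, 2 ≤ D → (∀ (k : ℕ) (u : ℝ → ℝ), Continuous u → Continuous (fun s => th D k s (u s))) ∧
  (∀ (k : ℕ) (s y : ℝ), 0 ≤ th D k s y ∧ th D k s y ≤ tk D k s y ∧ tk D k s y ≤ 1) ∧
  (∀ (k : ℕ) (s y y' : ℝ), |th D k s y - th D k s y'| ≤ 2 * (D : ℝ) ^ (k + 1) * |y - y'|) ∧
  (∀ u : ℝ → ℝ, Continuous u → (∀ k, 0 ≤ Wu D k u ∧ Wu D k u ≤ Vu D k u) ∧ ∀ N : ℕ, ∑ k ∈ Finset.range N, Wu D k u ≤ 1) ∧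
  ∀ (k : ℕ) (u v : ℝ → ℝ) (δ : ℝ), Continuous u → Continuous v → (∀ s, 0 ≤ s → s ≤ 1 → |u s - v s| ≤ δ) →
    |Wu D k u - Wu D k v| ≤ 2 * (D : ℝ) ^ (k + 1) * δ

/-- **SMW** (130 lines), USES VV.VOL, VV.BAS, THB. All coefficients change little (adapt `VV/SML.lean`).
PROOF. `u` is uniformly continuous on `[0, 1]`: for `k ≥ k₀` `|u s - u s'| ≤ ε/8` for `|s - s'| ≤ D^(-(k+1)^2)`, and `D^(-(k+1)) ≤ ε/8`. If `r ≤ ε/8`, both `Wu D k u ≤ Vu D k u` and `Wu D k v ≤ Vu D k v` are at most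
`vol {|u - hw| ≤ D^(-(k+1)) + r} ≤ 2 (ε/8 + ε/8 + ε/8) ≤ ε` for `k ≥ k₀`. For `k < k₀`: `2 D^(k+1) r ≤ 2 D^(k₀) r ≤ ε`. -/
def SpecSMW : Prop := ∀ (D : ℕ) (u : ℝ → ℝ) (ε : ℝ), 2 ≤ D → Continuous u → 0 < ε → ∃ r : ℝ, 0 < r ∧ ∀ v : ℝ → ℝ, Continuous v →
  (∀ s, 0 ≤ s → s ≤ 1 → |v s - u s| ≤ r) → ∀ k : ℕ, |Wu D k v - Wu D k u| ≤ ε

/-- **RSW** (180 lines), USES VV.VOL, VV.BAS, VV.OVL, THB. Resonance (adapt `VV/RES.lean`).
PROOF. `w_k = D^(-(k+1))`, `u = hw D k`, `v = u + 2 w_k`. `Wu_k(u) = ∫ ∏_(j<k) (1 - t_j(s, u s)) ≥ 1 - ∑_(j<k) ∫ t_j(s, u s) = 1 - ∑_(j<k) Vu D j u ≥ 1 - ∑_(j<k) 6 D^(-(j+1)) ≥ 1 - 12/D ≥ 1/2`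
(`1 - ∏ (1 - a_j) ≤ ∑ a_j`; OVL). `Wu_k(v) = 0`. `j < k`: `|Wu_j(u) - Wu_j(v)| ≤ 2 D^(j+1) 2 w_k = 4 D^(-(k-j))`, sum `≤ 8/D`. `j > k`: `0 ≤ Wu_j(u), Wu_j(v) ≤ 2 (w_j + D^((k+1)^2 - (j+1)^2)) ≤ 4 w_j`
(`Wu ≤ Vu`, VOL with `a = w_j`), sum `≤ 8 D^(-(k+2)) ≤ 8/D^2`. -/
def SpecRSW : Prop := ∀ (D k : ℕ), 24 ≤ D → 1 / 2 ≤ Wu D k (hw D k) ∧ Wu D k (fun s => hw D k s + 2 / (D : ℝ) ^ (k + 1)) = 0 ∧
  ∀ N : ℕ, ∑ j ∈ (Finset.range N).erase k, |Wu D j (hw D k) - Wu D j (fun s => hw D k s + 2 / (D : ℝ) ^ (k + 1))| ≤ 16 / (D : ℝ)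

/-- **UWS** (120 lines). Sums with small coefficients.
PROOF. Bounded: for every `φ` the numbers `|φ (x k)|` are `< 1` (`φ` in the unit ball) except for finitely many `k`, so bounded; Banach-Steinhaus (`banach_steinhaus`, the
dual space is complete, `NormedSpace.inclusionInDoubleDual`). Second part: `N` from UWN for `τ = ε/4`, `ρ = ε/(2 N C + 1)`, `φ` norming the sum (`exists_dual_vector''`):
`‖∑ a_k x_k‖ ≤ ∑ |a_k| |φ (x_k)| ≤ 2 · ε/4 + N ρ C ≤ ε`. -/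
def SpecUWS : Prop := ∀ (X : Type) [NormedAddCommGroup X] [NormedSpace ℝ X] (x : ℕ → X), UWN x →
  (∃ C : ℝ, 0 < C ∧ ∀ k, ‖x k‖ ≤ C) ∧
  ∀ ε : ℝ, 0 < ε → ∃ ρ : ℝ, 0 < ρ ∧ ∀ (a : ℕ → ℝ) (S : Finset ℕ), (∀ k ∈ S, |a k| ≤ ρ) → ∑ k ∈ S, |a k| ≤ 2 →
    ‖∑ k ∈ S, a k • x k‖ ≤ ε

/-- **CNX** (150 lines), USES THB, SMW, UWS. The valuation into `X`.
PROOF. `∑_k |coefficient| ≤ 1` (THB), `x` bounded: absolutely convergent. Valuation: for all `s`, `φ = th D k s`: `φ(x) + φ(y) = φ(max x y) + φ(min x y)`. Continuity at `f`: all coefficients change by at most `ρ` (SMW),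
`∑ |change| ≤ 2`: every partial sum of `V g - V f` has norm `≤ ε` by UWS, so the limit too. -/
def SpecCNX : Prop := ∀ (K : Type) [MetricSpace K] [CompactSpace K] (γ : ℝ → K), Continuous γ → ∀ (D : ℕ), 24 ≤ D →
  ∀ (X : Type) [NormedAddCommGroup X] [NormedSpace ℝ X] [CompleteSpace X] (x : ℕ → X), UWN x →
    (∀ f : C(K, ℝ), Summable (fun k => Wu D k (fun s => f (γ s)) • x k)) ∧
    ValX (fun f : C(K, ℝ) => ∑' k, Wu D k (fun s => f (γ s)) • x k) ∧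
    ContX (fun f : C(K, ℝ) => ∑' k, Wu D k (fun s => f (γ s)) • x k)

/-- **GNX** (150 lines), USES VV.TRI, VV.BAS, UWS, CNX, RSW. The negative theorem (adapt `VV/GEN.lean` when it is there).
PROOF. `‖x_k‖ ≤ C`, `c₀ ≤ ‖x_k‖`. Choose `D ≥ 24` with `16 C/D ≤ c₀/4`, `V` from CNX. `F_k(x) = tri (D^((k+1)^2) c(x))`, `G_k = F_k + 2 D^(-(k+1))`: in `C(K)^+`, norms `≤ 2`,
`F_k(γ s) = hw D k s` on `[0, 1]` (so the `Wu D j` agree, the integral is over `[0, 1]`), `‖F_k - G_k‖ → 0`. `V F_k - V G_k = Wu D k (hw D k) x_k + R`, `‖R‖ ≤ 16 C/D` (RSW for all `N`, limit).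
So `‖V F_k - V G_k‖ ≥ c₀/2 - c₀/4` for all `k`: `UCX` fails for `m = 2`, `ε = c₀/8`. -/
def SpecGNX : Prop := ∀ (K : Type) [MetricSpace K] [CompactSpace K] (γ : ℝ → K) (c : C(K, ℝ)), Continuous γ → (∀ s, 0 ≤ s → s ≤ 1 → c (γ s) = s) →
  ∀ (X : Type) [NormedAddCommGroup X] [NormedSpace ℝ X] [CompleteSpace X], HasUWN X → ∃ V : C(K, ℝ) → X, ValX V ∧ ContX V ∧ ¬ UCX V

/-! ## Positive part -/

/-- **OWB** (180 lines), USES TS.LOC. Properties of `ow` (adapt `TS/OMB.lean`, the same proofs: `h = f + φ (g - f)` becomes `p + φ (q - p)`, which is between `f` and `g` again).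
PROOF. The set in the definition contains `0` (`p = q = f`) and is bounded by `2 M`. Monotonicity is clear. Subadditivity: split by a cut-off as in `TS.SpecOMB`. Superadditivity: glue with `φ = 1` on `S₁`, `0` on `S₂`:
`p = φ p₁ + (1 - φ) p₂ ∈ [f, g]`, `q = p + (q₁ - p₁) + (q₂ - p₂)` (`= q_i` on `S_i`, `= p` elsewhere). -/
def SpecOWB : Prop := ∀ (K : Type) [MetricSpace K] [CompactSpace K] (W : C(K, ℝ) → ℝ) (f g : C(K, ℝ)) (M : ℝ), IsVal W → 0 ≤ f → f ≤ g →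
  (∀ h : C(K, ℝ), 0 ≤ h → h ≤ g → |W h| ≤ M) →
  (∀ U : Set K, 0 ≤ ow W f g U ∧ ow W f g U ≤ 2 * M) ∧
  (∀ (U : Set K) (p q : C(K, ℝ)), Bt f g U p q → W q - W p ≤ ow W f g U) ∧
  (∀ U U' : Set K, U ⊆ U' → ow W f g U ≤ ow W f g U') ∧
  (∀ (U : Set K) (ε : ℝ), 0 < ε → ∃ p q : C(K, ℝ), Bt f g U p q ∧ ow W f g U - ε < W q - W p) ∧
  (∀ U₁ U₂ : Set K, IsOpen U₁ → IsOpen U₂ → ow W f g (U₁ ∪ U₂) ≤ ow W f g U₁ + ow W f g U₂) ∧
  ∀ U₁ U₂ : Set K, Disjoint U₁ U₂ → ow W f g U₁ + ow W f g U₂ ≤ ow W f g (U₁ ∪ U₂)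

/-- **OWM** (170 lines), USES OWB. The increment measure exists (adapt `TS/MEA.lean`).
PROOF. `λ(C) = inf {ow U : U ⊇ C open}` is a regular content (as in `TS.SpecMEA`), `μ = content.measure`, `μ C = λ(C)` for compact `C`. `U` open: `μ U = sup {μ C : C ⊆ U compact} ≤ ow U`; if `Bt f g U p q`, `S = tsupport (q - p) ⊆ U`
is compact and `W q - W p ≤ ow U'` for all open `U' ⊇ S`, so `W q - W p ≤ λ(S) = μ S ≤ μ U`; hence `ow U ≤ μ U`. -/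
def SpecOWM : Prop := ∀ (K : Type) [MetricSpace K] [CompactSpace K] [MeasurableSpace K] [BorelSpace K] (W : C(K, ℝ) → ℝ) (f g : C(K, ℝ)) (M : ℝ),
  IsVal W → 0 ≤ f → f ≤ g → (∀ h : C(K, ℝ), 0 ≤ h → h ≤ g → |W h| ≤ M) → ∃ μ : Measure K, IsJ W f g μ

/-- **GLJ** (200 lines), USES TS.LOC, OWB. Increments near `b` add up (adapt `TS/GLU.lean`).
PROOF. As `TS.SpecGLU`, for the pairs between `f k` and `g k` instead of the pairs with values in `[c, d]`: in `U' = U ∩ {|b - f k| < r/2}` a pair `(p', q')` with `W q' - W p' > x` (`x < μ_k (C k) ≤ μ_k U' = ow U'`), `φ = 1` on its support, `0` off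
`U'`, `p = (1 - φ) b + φ p'`, `q = p + (q' - p')`: `|p' - b| ≤ |p' - f k| + |f k - b| < r/4 + r/2` on `U'`, the same for `q'`. The rest (reached values in disjoint open sets add, induction on `A`) is the same. -/
def SpecGLJ : Prop := ∀ (K : Type) [MetricSpace K] [CompactSpace K] [MeasurableSpace K] [BorelSpace K] (W : C(K, ℝ) → ℝ)
  (m M : ℝ), IsVal W → (∀ h : C(K, ℝ), 0 ≤ h → (∀ t, h t ≤ m) → |W h| ≤ M) → ∀ (b : C(K, ℝ)) (r ε : ℝ), 0 ≤ b → 0 < r →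
  (∀ p q : C(K, ℝ), 0 ≤ p → 0 ≤ q → ‖p - b‖ < r → ‖q - b‖ < r → W q - W p ≤ ε) →
  ∀ (A : Finset ℕ) (C : ℕ → Set K) (f g : ℕ → C(K, ℝ)) (μ : ℕ → Measure K), (∀ k ∈ A, IsCompact (C k)) →
  (∀ k k', k ≠ k' → Disjoint (C k) (C k')) → (∀ k ∈ A, 0 ≤ f k ∧ f k ≤ g k ∧ (∀ t, g k t ≤ m) ∧ ∀ t, g k t ≤ f k t + r / 4) →
  (∀ k ∈ A, ∀ t ∈ C k, |f k t - b t| < r / 2) → (∀ k ∈ A, IsJ W (f k) (g k) (μ k)) → ∑ k ∈ A, (μ k (C k)).toReal ≤ ε

/-- **DSJ** (170 lines), USES TS.LOC. Increments with disjoint supports are uniformly weakly null.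
PROOF. For finite `A` there are `0 ≤ P ≤ Q ≤ m` with `tsupport (Q - P) ⊆ ⋃_(A) U_j` and `V Q - V P = ∑_(j ∈ A) (V (q j) - V (p j))`: induction, the gluing as in `TS.SpecOMB` (apply `TS.SpecLOC` to `φ ∘ V` for all `φ`, or prove LOC for `X`-valued `V` in
the same way). If `|φ (y_j)| ≥ τ` for `j ∈ A`, `‖φ‖ ≤ 1`, let `A' ⊆ A` be the indices with `φ (y_j) ≥ τ`: `τ #A' ≤ φ (∑_(A') y_j) ≤ 2 M`, the same for `≤ -τ`; `#A ≤ 4 M/τ`. -/
def SpecDSJ : Prop := ∀ (K : Type) [MetricSpace K] [CompactSpace K] (X : Type) [NormedAddCommGroup X] [NormedSpace ℝ X] (V : C(K, ℝ) → X)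
  (m M : ℝ), ValX V → (∀ h : C(K, ℝ), 0 ≤ h → (∀ t, h t ≤ m) → ‖V h‖ ≤ M) → ∀ (U : ℕ → Set K) (p q : ℕ → C(K, ℝ)), (∀ j, IsOpen (U j)) →
  (∀ i j, i ≠ j → Disjoint (U i) (U j)) → (∀ j, 0 ≤ p j ∧ p j ≤ q j ∧ (∀ t, q j t ≤ m) ∧ tsupport (fun t => q j t - p j t) ⊆ U j) →
  UWN (fun j => V (q j) - V (p j))

/-- **REG** (130 lines). From disjoint open sets to uniform inner regularity.
PROOF. Suppose that `U`, `ε` are bad: for every compact `C ⊆ U` some `lam ∈ S` has `lam (U \ C) > ε`. Recursively: `C_j ⊆ U` compact (`C_0 = ∅`), `lam_j (U \ C_j) > ε`, a compact `D_j ⊆ U \ C_j` with `lam_j D_j > ε` (inner regularity for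
open sets), `D_j ⊆ O_j ⊆ closure O_j ⊆ U \ C_j`, `O_j` open, `C_(j+1) = C_j ∪ closure O_j`. The `O_j` are disjoint, `lam_j O_j > ε`: contradicts `Dis`. -/
def SpecREG : Prop := ∀ (K : Type) [MetricSpace K] [CompactSpace K] [MeasurableSpace K] [BorelSpace K] (S : Set (Measure K)) (M : ℝ), Bdd S M →
  Dis S → Reg S

/-- **CTM** (150 lines). A control measure.
PROOF. Let `B` be a countable base of `K` closed under finite unions. For `U ∈ B` choose a countable `S_U ⊆ S` such that the numbers `lam U`, `lam ∈ S_U`, are dense in `{lam U : lam ∈ S}` (a subset of `ℝ`), `S₀ = ⋃ S_U`, countable, enumerated `lam_i`;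
`μ = ∑ 2^(-i) lam_i`, finite (`S` is bounded by `M`; if `S` is empty `μ = 0`). Let `G` be compact, `μ G = 0`, `lam ∈ S`, and suppose `lam G = ε > 0`. `Reg` for `Gᶜ`: compact `C ⊆ Gᶜ` with `lam' (Gᶜ \ C) ≤ ε/4` for all `lam' ∈ S`; `U ∈ B` with
`G ⊆ U ⊆ Cᶜ` (`G` compact); `lam' ∈ S_U` with `|lam U - lam' U| ≤ ε/4`: `lam' U ≤ lam' (Cᶜ) ≤ lam' G + ε/4 = ε/4`, so `ε = lam G ≤ lam U ≤ ε/2`, a contradiction. -/
def SpecCTM : Prop := ∀ (K : Type) [MetricSpace K] [CompactSpace K] [MeasurableSpace K] [BorelSpace K] (S : Set (Measure K)) (M : ℝ), Bdd S M →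
  Reg S → ∃ μ : Measure K, IsFiniteMeasure μ ∧ ∀ G : Set K, IsCompact G → μ G = 0 → ∀ lam ∈ S, lam G = 0

/-- **UAC** (170 lines). Uniform absolute continuity.
PROOF. If not, there are `ε > 0`, measurable `B_j` with `μ B_j ≤ 2^(-j)`, `lam_j B_j > ε`; open `O_j ⊇ B_j` with `μ O_j ≤ 2 · 2^(-j)` (outer regularity). `W_J = ⋃_(j ≥ J) O_j`, open, `μ W_J → 0`. `Reg`: compact `D_J ⊆ W_J` with
`lam (W_J \ D_J) ≤ ε 2^(-J-2)` for all `lam ∈ S`. `G_J = D_0 ∩ … ∩ D_J`, compact, decreasing, `W_J \ G_J ⊆ ⋃_(j ≤ J) (W_j \ D_j)` has `lam`-measure `≤ ε/2`. `G = ⋂ G_J`: `μ G = 0`, so `lam G = 0` for all `lam ∈ S`. `Reg` for `Gᶜ`: compact `C ⊆ Gᶜ` with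
`lam (Gᶜ \ C) ≤ ε/4`. By compactness `G_J ⊆ Cᶜ` for some `J`, so `lam G_J ≤ lam (Cᶜ) ≤ ε/4`, `lam W_J ≤ 3 ε/4` for all `lam`; but `lam_J W_J ≥ lam_J B_J > ε`. -/
def SpecUAC : Prop := ∀ (K : Type) [MetricSpace K] [CompactSpace K] [MeasurableSpace K] [BorelSpace K] (S : Set (Measure K)) (M : ℝ), Bdd S M →
  Reg S → ∀ (μ : Measure K) [IsFiniteMeasure μ], (∀ G : Set K, IsCompact G → μ G = 0 → ∀ lam ∈ S, lam G = 0) → Uac S μ

/-- **TRU** (110 lines). Truncated densities.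
PROOF. `lam ≪ μ`, `ρ = lam.rnDeriv μ`, `δ` from `Uac` for `τ`, `L ≥ M/δ`, `G = {ρ ≤ L}`: `L μ(Gᶜ) ≤ lam(Gᶜ) ≤ M`, so `μ Gᶜ ≤ δ`, `lam Gᶜ ≤ τ`. `r = ρ.toReal` on `G`, `0` off `G`: `∫_B r dμ = lam (B ∩ G)`. -/
def SpecTRU : Prop := ∀ (K : Type) [MeasurableSpace K] (μ : Measure K) [IsFiniteMeasure μ] (S : Set (Measure K)) (M : ℝ), Bdd S M → Uac S μ →
  ∀ τ : ℝ, 0 < τ → ∃ L : ℝ, 0 < L ∧ ∀ lam ∈ S, ∃ r : K → ℝ, Measurable r ∧ (∀ t, 0 ≤ r t ∧ r t ≤ L) ∧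
    (∀ B : Set K, MeasurableSet B → ∫ t in B, r t ∂μ ≤ (lam B).toReal) ∧ (lam univ).toReal - τ ≤ ∫ t, r t ∂μ

/-- **WLM** (150 lines). Weak limits along an ultrafilter.
PROOF. In the Hilbert space `L_2(μ)` (`Lp ℝ 2 μ`) the functional `ψ ↦ lim_𝒰 ⟪u_k, ψ⟫` (bounded real sequences have a limit along an ultrafilter) is linear and bounded: Riesz gives `a₀`. Testing with the indicators of `{a₀ < 0}` and `{a₀ > L}`: `0 ≤ a₀ ≤ L` almost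
everywhere; `a = max 0 (min L a₀)` for a measurable representative. -/
def SpecWLM : Prop := ∀ (K : Type) [MeasurableSpace K] (μ : Measure K) [IsFiniteMeasure μ] (L : ℝ) (u : ℕ → K → ℝ), 0 ≤ L → (∀ k, Measurable (u k)) →
  (∀ k t, 0 ≤ u k t ∧ u k t ≤ L) → ∀ U : Ultrafilter ℕ, ∃ a : K → ℝ, Measurable a ∧ (∀ t, 0 ≤ a t ∧ a t ≤ L) ∧
  ∀ ψ : K → ℝ, Measurable ψ → (∃ C : ℝ, ∀ t, |ψ t| ≤ C) → Tendsto (fun k => ∫ t, u k t * ψ t ∂μ) U (𝓝 (∫ t, a t * ψ t ∂μ))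

/-- **CES** (220 lines), USES WLM. A subsequence with strong Cesaro convergence of all its subsets.
PROOF. `U` an ultrafilter below `atTop` (`hyperfilter`), `p_i` the weak limit of `(u i k)_k`, `v i k = u i k - p_i`, `|v| ≤ 1`: `∫ v i k · v i j dμ → 0` along `U` in `k`, for fixed `i, j`. Choose `κ(r+1) > κ(r)` such that `|∫ v i κ(s) · v i κ(r+1)| ≤ 2^(-r)` for `i, s ≤ r`
(finitely many conditions, each holds `U`-eventually). For finite `A`, `#A = n`: `∫ (∑_A v i κ(k))² ≤ n μ(K) + 2 ∑_(s<r in A) |∫ v i κ(s) v i κ(r)| ≤ n μ(K) + 2 (i+1)² μ(K) + 2 ∑_r (r+1) 2^(1-r)`, so the integral of the square of the average minus `p_i` is at most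
`(n μ(K) + C_i)/n² → 0`, and `∫ |·| ≤ √μ(K) (∫ |·|²)^(1/2)` (or `|x| ≤ η' + x²/η'`). -/
def SpecCES : Prop := ∀ (K : Type) [MeasurableSpace K] (μ : Measure K) [IsFiniteMeasure μ] (u : ℕ → ℕ → K → ℝ), (∀ i k, Measurable (u i k)) →
  (∀ i k t, 0 ≤ u i k t ∧ u i k t ≤ 1) → ∃ (κ : ℕ → ℕ) (p : ℕ → K → ℝ), StrictMono κ ∧ (∀ i, Measurable (p i)) ∧ (∀ i t, 0 ≤ p i t ∧ p i t ≤ 1) ∧
  ∀ (i : ℕ) (η : ℝ), 0 < η → ∃ n₀ : ℕ, ∀ A : Finset ℕ, n₀ ≤ A.card → ∫ t, |(∑ k ∈ A, u i (κ k) t) / (A.card : ℝ) - p i t| ∂μ ≤ η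

/-- **NST** (150 lines). Nested selection by the mediant inequality.
PROOF. Recursively `s 0 = 0`, `s (l+1) t = 2 s l t` if `p (l+1) (2 s l t) t > 0` and `p (l+1) (2 s l t) t * a 0 0 t ≤ a (l+1) (2 s l t) t`, else `2 s l t + 1`. Measurable (countably many values). Almost everywhere all the hypotheses hold for all `l, i`; at such `t`, with
`i = s l t`, `P, P', P''` and `A, A', A''` the values of `p`, `a` at `i, 2i, 2i+1`, `α = a 0 0 t`: `P > 0`, `A ≥ P α`. In the second case: if `P' = 0` then `A' = 0` (`A' ≤ L P'`), so `P'' = P > 0`, `A'' = A ≥ P'' α`. If `P' > 0` then `A' < P' α` and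
`A'' = A - A' > P α - P' α = P'' α ≥ 0`, so `A'' > 0` and `P'' > 0` (`A'' ≤ L P''`). Start: `p 0 0 = 1`. -/
def SpecNST : Prop := ∀ (K : Type) [MeasurableSpace K] (μ : Measure K) [IsFiniteMeasure μ] (L : ℝ) (p a : ℕ → ℕ → K → ℝ), 0 < L →
  (∀ l i, Measurable (p l i)) → (∀ l i, Measurable (a l i)) → (∀ l i t, 0 ≤ p l i t) → (∀ l i t, 0 ≤ a l i t) →
  (∀ l i, ∀ᵐ t ∂μ, a l i t ≤ L * p l i t) → (∀ l i, ∀ᵐ t ∂μ, p l i t = p (l + 1) (2 * i) t + p (l + 1) (2 * i + 1) t) →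
  (∀ l i, ∀ᵐ t ∂μ, a l i t = a (l + 1) (2 * i) t + a (l + 1) (2 * i + 1) t) → (∀ᵐ t ∂μ, p 0 0 t = 1) →
  ∃ s : ℕ → K → ℕ, (∀ l, Measurable (s l)) ∧ (∀ t, s 0 t = 0) ∧ (∀ l t, s (l + 1) t = 2 * s l t ∨ s (l + 1) t = 2 * s l t + 1) ∧
    ∀ᵐ t ∂μ, ∀ l, 0 < p l (s l t) t ∧ p l (s l t) t * a 0 0 t ≤ a l (s l t) t

/-- **MXS** (100 lines). The best index.
PROOF. `B k = {t ∈ D k : k ∈ A, r k' t ≤ r k t for all k' ∈ A with t ∈ D k', and strictly for k' < k}`. At `t` with some candidate the sum on the right is the maximum of the candidates; otherwise both sides are `0`. -/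
def SpecMXS : Prop := ∀ (K : Type) [MeasurableSpace K] (A : Finset ℕ) (D : ℕ → Set K) (r : ℕ → K → ℝ), (∀ k, MeasurableSet (D k)) → (∀ k, Measurable (r k)) →
  (∀ k t, 0 ≤ r k t) → ∃ B : ℕ → Set K, (∀ k, MeasurableSet (B k)) ∧ (∀ k k', k ≠ k' → Disjoint (B k) (B k')) ∧ (∀ k, B k ⊆ D k) ∧
  ∀ t, ∑ k ∈ A, (D k).indicator (r k) t ≤ (∑ k ∈ A, (D k).indicator (fun _ => (1 : ℝ)) t) * ∑ k ∈ A, (B k).indicator (r k) t

/-- **LOW** (250 lines), USES MXS. The lower bound for one level (`j k t` is the index of the interval of `p_k(t)`).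
PROOF. Let `η > 0`, `P(t) = p (s t) t`, `D k = {j k = s}`, `q_n = (∑_(k ∈ A n) 1_(D k))/n`, `a_n = (∑_(k ∈ A n) r n k 1_(D k))/n`. Dominated convergence (`P > 0`): `θ > 0` with `∫ α θ/(P + θ) ≤ η/3`. `B` from MXS, `X_n = ∑_(k ∈ A n) r n k 1_(B k)` (`≤ L`, the `B k` are disjoint): `X_n q_n ≥ a_n`, so
`X_n (P + θ) ≥ X_n q_n - X_n |q_n - P| ≥ a_n - L |q_n - P|` and `X_n ≥ a_n/(P + θ) - (L/θ) |q_n - P|`. `∫ |q_n - P| ≤ ∑_(i<N) ∫ |(∑_(A n) 1_(j k = i))/n - p i| → 0`. `∫ a_n/(P + θ) = ∑_(i<N) ∫ (∑_(A n) r n k 1_(j k = i))/n · 1_(s = i)/(p i + θ)`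
tends along `U` to `∑_(i<N) ∫ a i 1_(s = i)/(p i + θ) = ∫ a (s t) t/(P + θ) ≥ ∫ P α/(P + θ) = ∫ α - ∫ α θ/(P + θ)`. So `∫ X_n ≥ ∫ α - η` eventually along `U`. -/
def SpecLOW : Prop := ∀ (K : Type) [MeasurableSpace K] (μ : Measure K) [IsFiniteMeasure μ] (L : ℝ) (N : ℕ) (j : ℕ → K → ℕ) (s : K → ℕ) (p a : ℕ → K → ℝ)
  (α : K → ℝ) (A : ℕ → Finset ℕ) (r : ℕ → ℕ → K → ℝ) (U : Ultrafilter ℕ), 0 < L → (U : Filter ℕ) ≤ atTop → (∀ k, Measurable (j k)) →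
  Measurable s → (∀ t, s t < N) → (∀ i, Measurable (p i)) → (∀ i t, 0 ≤ p i t ∧ p i t ≤ 1) → (∀ i, Measurable (a i)) →
  (∀ i t, 0 ≤ a i t ∧ a i t ≤ L) → Measurable α → (∀ t, 0 ≤ α t ∧ α t ≤ L) → (∀ n, (A n).card = n) → (∀ n k, Measurable (r n k)) →
  (∀ n k t, 0 ≤ r n k t ∧ r n k t ≤ L) →
  (∀ (i : ℕ) (η : ℝ), 0 < η → ∃ n₀ : ℕ, ∀ A' : Finset ℕ, n₀ ≤ A'.card →
    ∫ t, |(∑ k ∈ A', if j k t = i then (1 : ℝ) else 0) / (A'.card : ℝ) - p i t| ∂μ ≤ η) →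
  (∀ (i : ℕ) (ψ : K → ℝ), Measurable ψ → (∃ C : ℝ, ∀ t, |ψ t| ≤ C) →
    Tendsto (fun n : ℕ => ∫ t, (∑ k ∈ A n, if j k t = i then r n k t else 0) / (n : ℝ) * ψ t ∂μ) U (𝓝 (∫ t, a i t * ψ t ∂μ))) →
  (∀ᵐ t ∂μ, 0 < p (s t) t ∧ p (s t) t * α t ≤ a (s t) t) →
  ∀ η : ℝ, 0 < η → ∀ᶠ n in (U : Filter ℕ), ∃ B : ℕ → Set K, (∀ k, MeasurableSet (B k)) ∧ (∀ k k', k ≠ k' → Disjoint (B k) (B k')) ∧
    (∀ k, ∀ t ∈ B k, j k t = s t) ∧ ∫ t, α t ∂μ - η ≤ ∑ k ∈ A n, ∫ t in B k, r n k t ∂μ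

/-- **SEL** (250 lines), USES WLM, CES, NST, LOW. The selection theorem.
PROOF. `u (l, i) k = 1_(ix m l (f k t) = i)` (pairs coded by one index, `Nat.pair`), `κ`, `p l i` from CES. `p l i = p (l+1) (2i) + p (l+1) (2i+1)` a.e. and `p 0 0 = 1` a.e., because this holds for the `u` for every `k` (`⌊2 x⌋ ∈ {2 ⌊x⌋, 2 ⌊x⌋ + 1}`) and so for the averages, which
converge in `L_1`. Let `U` be an ultrafilter below `atTop`, `a l i` the weak limit (WLM) of the averages `(∑_(k ∈ A n) r n k 1_(ix = i))/n`. Additive in the same way (weak limits), `a l i ≤ L p l i` a.e. (`r ≤ L`), `∫ a 0 0 = lim ∫ average ≥ τ`. NST: `s`.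
`F t = sup_l m s_l(t)/2^l`: `s_l(t) < 2^l`, `m s_l/2^l ≤ F ≤ m (s_l + 1)/2^l` (nested intervals), measurable. Given `η`, `n₀`: `l` with `m 2^(-l) ≤ η`; LOW (`N = 2^l`, `j k t = ix m l (f (κ k) t)`, `α = a 0 0`) holds for `U`-many `n`, so for some `n ≥ n₀`; on `B k`
both `f (κ k) t` and `F t` are in `[m s_l/2^l, m (s_l + 1)/2^l]`. -/
def SpecSEL : Prop := ∀ (K : Type) [MeasurableSpace K] (μ : Measure K) [IsFiniteMeasure μ] (m : ℝ) (f : ℕ → K → ℝ), 0 < m → (∀ k, Measurable (f k)) →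
  (∀ k t, 0 ≤ f k t ∧ f k t < m) → ∃ κ : ℕ → ℕ, StrictMono κ ∧ ∀ (L τ : ℝ) (A : ℕ → Finset ℕ) (r : ℕ → ℕ → K → ℝ), 0 < L → 0 < τ →
  (∀ n, (A n).card = n) → (∀ n k, Measurable (r n k)) → (∀ n k t, 0 ≤ r n k t ∧ r n k t ≤ L) → (∀ n, ∀ k ∈ A n, τ ≤ ∫ t, r n k t ∂μ) →
  ∃ F : K → ℝ, Measurable F ∧ (∀ t, 0 ≤ F t ∧ F t ≤ m) ∧ ∀ (η : ℝ) (n₀ : ℕ), 0 < η → ∃ n : ℕ, n₀ ≤ n ∧ ∃ B : ℕ → Set K, (∀ k, MeasurableSet (B k)) ∧
    (∀ k k', k ≠ k' → Disjoint (B k) (B k')) ∧ (∀ k, ∀ t ∈ B k, |f (κ k) t - F t| ≤ η) ∧ τ - η ≤ ∑ k ∈ A n, ∫ t in B k, r n k t ∂μ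

/-- **LSN** (130 lines). Lusin's theorem with small exceptional set (adapt `TS/LUS.lean`: the same proof with `η/2^(l+1)` for `μ univ/2^(l+2)`). -/
def SpecLSN : Prop := ∀ (K : Type) [MetricSpace K] [CompactSpace K] [MeasurableSpace K] [BorelSpace K] (μ : Measure K)
  [IsFiniteMeasure μ] (m η : ℝ) (a : K → ℝ), 0 < η → Measurable a → (∀ t, 0 ≤ a t ∧ a t ≤ m) →
  ∃ (E : Set K) (b : C(K, ℝ)), IsCompact E ∧ (μ Eᶜ).toReal ≤ η ∧ 0 ≤ b ∧ ∀ t ∈ E, b t = a t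

/-- **BDX** (90 lines), USES TS.BDD. Boundedness on bounded sets.
PROOF. For `φ ∈ X*` the scalar valuation `φ ∘ V` is continuous, so bounded on `{0 ≤ f ≤ m}` by `TS.SpecBDD` (constant functions `f`, `ContAt`). Banach-Steinhaus in the dual space (`banach_steinhaus` for the functionals `φ ↦ φ (V f)`,
`NormedSpace.inclusionInDoubleDual`, `‖V f‖ = ‖inclusion (V f)‖`). -/
def SpecBDX : Prop := ∀ (K : Type) [MetricSpace K] [CompactSpace K] (X : Type) [NormedAddCommGroup X] [NormedSpace ℝ X] (V : C(K, ℝ) → X),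
  ValX V → ContX V → ∀ m : ℝ, ∃ M : ℝ, ∀ h : C(K, ℝ), 0 ≤ h → (∀ t, h t ≤ m) → ‖V h‖ ≤ M

/-- **FAM** (150 lines), USES OWB, OWM, DSJ, REG, CTM, UAC. The family of increment measures (`ι` indexes `φ` in the unit ball and `k`; `lam φ k = 0` for `‖φ‖ > 1`).
PROOF. OWM gives `lam φ k` for `‖φ‖ ≤ 1` (`|φ (V h)| ≤ M`). `S` = the set of the `lam φ k`, `‖φ‖ ≤ 1`: `Bdd S (2 M)` (`lam univ = ow univ ≤ 2 M`; and `ow univ ≥` the increment of the pair `(f k, g k)`). `Dis S`: otherwise there are disjoint open `U_j`, `φ_j`, `k_j` with `lam (U_j) ≥ ε`, so by OWB `Bt` pairs `(p_j, q_j)` in `U_j` between `f k_j`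
and `g k_j` with `φ_j (V q_j - V p_j) > ε/2`: by DSJ the sequence `V q_j - V p_j` is UWN, norms `≥ ε/2`: contradicts `¬ HasUWN X`. REG, CTM, UAC. -/
def SpecFAM : Prop := ∀ (K : Type) [MetricSpace K] [CompactSpace K] [MeasurableSpace K] [BorelSpace K] (X : Type) [NormedAddCommGroup X] [NormedSpace ℝ X]
  (V : C(K, ℝ) → X) (m M : ℝ), ¬ HasUWN X → ValX V → (∀ h : C(K, ℝ), 0 ≤ h → (∀ t, h t ≤ m) → ‖V h‖ ≤ M) → ∀ (f g : ℕ → C(K, ℝ)),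
  (∀ k, 0 ≤ f k ∧ f k ≤ g k ∧ ∀ t, g k t ≤ m) → ∃ (lam : (X →L[ℝ] ℝ) → ℕ → Measure K) (μ : Measure K), IsFiniteMeasure μ ∧
  (∀ φ k, ‖φ‖ ≤ 1 → IsJ (fun h => φ (V h)) (f k) (g k) (lam φ k)) ∧
  (∀ φ k, ‖φ‖ ≤ 1 → φ (V (g k)) - φ (V (f k)) ≤ (lam φ k univ).toReal) ∧ Bdd {x | ∃ φ k, ‖φ‖ ≤ 1 ∧ x = lam φ k} (2 * M) ∧
  Uac {x | ∃ φ k, ‖φ‖ ≤ 1 ∧ x = lam φ k} μ

/-- **MNY** (110 lines). Many functionals. A sequence which is not UWN.
PROOF. `¬ UWN x`: `τ > 0` such that for all `N` there are `φ`, `A` with `#A > N`, `|φ (x k)| ≥ τ` on `A`. For `N = 3 n`: remove the `k < n` (at most `n`), at least `2 n` are left, for `n` of them `φ (x k)` has the same sign; change the sign of `φ`. -/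
def SpecMNY : Prop := ∀ (X : Type) [NormedAddCommGroup X] [NormedSpace ℝ X] (x : ℕ → X), ¬ UWN x → ∃ τ : ℝ, 0 < τ ∧ ∀ n : ℕ, ∃ (φ : X →L[ℝ] ℝ) (A : Finset ℕ),
  ‖φ‖ ≤ 1 ∧ A.card = n ∧ (∀ k ∈ A, n ≤ k) ∧ ∀ k ∈ A, τ ≤ φ (x k)

/-- **FIN** (250 lines), USES BDX, FAM, MNY, TRU, SEL, LSN, GLJ. The positive theorem.
PROOF. Suppose that `UCX` fails: `m, ε`, `f_k, g_k` of norm `≤ m`, `‖f_k - g_k‖ < 1/(k+1)`, `‖V f_k - V g_k‖ > ε`. As in `TS.SpecFWD` (replace one of them by the supremum): `0 ≤ f_k ≤ g_k ≤ m`, `g_k ≤ f_k + 1/(k+1)`, `‖V g_k - V f_k‖ > ε/2`. Let `m' = m + 1 > 0`, `M` from BDX for `m'`, `borel K`,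
FAM: `lam`, `μ`. SEL for `f_k < m'`: `κ`. `x_k = V g_(κ k) - V f_(κ k)` is not UWN (else `HasUWN X`). MNY: `τ`, `φ_n`, `A_n`. TRU for `τ/2`: `L` and `r n k` for `lam φ_n (κ k)`, `∫ r n k ≥ lam univ - τ/2 ≥ τ/2` for `k ∈ A_n` (`lam univ ≥ φ_n (x_k) ≥ τ`, FAM). SEL with `τ/2`: `F`. LSN: `L μ(Eᶜ) ≤ τ/16`, `b`. `ContX` at `b`: `r₀` with `φ (V q - V p) ≤ τ/8` for `p, q ≥ 0` within `r₀` of `b`, `‖φ‖ ≤ 1`. `η = min (r₀/8) (τ/16)`, `n₀` with `1/(n₀+1) ≤ r₀/4`: `n ≥ n₀`, `B`. Compact `C_k ⊆ B_k ∩ E` with `lam`- and `μ`-small loss: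
`∑_(A_n) ∫_(C_k) r ≥ ∑_(A_n) ∫_(B_k) r - L μ(Eᶜ) - τ/16 ≥ τ/2 - 3 τ/16 > τ/8`. On `C_k` `|f_(κ k) - b| ≤ η < r₀/2`, `g_(κ k) ≤ f_(κ k) + 1/(κ k + 1) ≤ f_(κ k) + r₀/4` (`κ k ≥ k ≥ n ≥ n₀`). GLJ for `W = φ_n ∘ V`: `∑_(A_n) lam (C_k) ≤ τ/8`, but `lam (C_k) ≥ ∫_(C_k) r`: a contradiction. -/
def SpecFIN : Prop := ∀ (K : Type) [MetricSpace K] [CompactSpace K] (X : Type) [NormedAddCommGroup X] [NormedSpace ℝ X], ¬ HasUWN X →
  ∀ V : C(K, ℝ) → X, ValX V → ContX V → UCX V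

end

end Pool.Agent.Lib.MP5bcdfb.VX
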