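import Pool.Agent.Lib.MP_5bcdfb_an.VX.Spec

set_option autoImplicit false

namespace Pool.Agent.Lib.MP5bcdfb.VX

open MeasureTheory Set Filter Topology
open Pool.Agent.Lib.MP5bcdfb.TS Pool.Agent.Lib.MP5bcdfb.VV

namespace THBM

theorem tk_nonneg (D k : ℕ) (s y : ℝ) : 0 ≤ tk D k s y := le_max_left _ _

theorem tk_le_one (D k : ℕ) (s y : ℝ) : tk D k s y ≤ 1 := by
  unfold tk
  apply max_le zero_le_one
  have h1 : 0 ≤ |y - hw D k s| * (D : ℝ) ^ (k + 1) := by positivity
  linarith

theorem tk_lip (D k : ℕ) (s y y' : ℝ) :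
    |tk D k s y - tk D k s y'| ≤ (D : ℝ) ^ (k + 1) * |y - y'| := by
  unfold tk
  rw [max_comm (0 : ℝ) (1 - |y - hw D k s| * (D : ℝ) ^ (k + 1)),
    max_comm (0 : ℝ) (1 - |y' - hw D k s| * (D : ℝ) ^ (k + 1))]
  refine (abs_max_sub_max_le_abs _ _ _).trans ?_
  have h1 : 1 - |y - hw D k s| * (D : ℝ) ^ (k + 1) - (1 - |y' - hw D k s| * (D : ℝ) ^ (k + 1))
      = (D : ℝ) ^ (k + 1) * (|y' - hw D k s| - |y - hw D k s|) := by ring
  rw [h1, abs_mul, abs_of_nonneg (by positivity : (0 : ℝ) ≤ (D : ℝ) ^ (k + 1))]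
  apply mul_le_mul_of_nonneg_left _ (by positivity)
  refine (abs_abs_sub_abs_le _ _).trans ?_
  have h2 : y' - hw D k s - (y - hw D k s) = -(y - y') := by ring
  rw [h2, abs_neg]

/-- the product -/
noncomputable def pr (D k : ℕ) (s y : ℝ) : ℝ := ∏ j ∈ Finset.range k, (1 - tk D j s y)

theorem pr_succ (D k : ℕ) (s y : ℝ) : pr D (k + 1) s y = pr D k s y * (1 - tk D k s y) :=
  Finset.prod_range_succ _ _

theorem pr_mem (D k : ℕ) (s y : ℝ) : 0 ≤ pr D k s y ∧ pr D k s y ≤ 1 := by
  induction k with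
  | zero => simp [pr]
  | succ k ih =>
    rw [pr_succ]
    have h1 := tk_nonneg D k s y
    have h2 := tk_le_one D k s y
    constructor
    · exact mul_nonneg ih.1 (by linarith)
    · exact mul_le_one₀ ih.2 (by linarith) (by linarith)

theorem th_eq (D k : ℕ) (s y : ℝ) : th D k s y = tk D k s y * pr D k s y := rfl

/-- the Lipschitz constants -/
noncomputable def lc (D k : ℕ) : ℝ := ∑ j ∈ Finset.range k, (D : ℝ) ^ (j + 1)

theorem pr_lip (D k : ℕ) (s y y' : ℝ) : |pr D k s y - pr D k s y'| ≤ lc D k * |y - y'| := by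
  induction k with
  | zero => simp [pr, lc]
  | succ k ih =>
    rw [pr_succ, pr_succ, lc, Finset.sum_range_succ, ← lc]
    have h1 : pr D k s y * (1 - tk D k s y) - pr D k s y' * (1 - tk D k s y')
        = (pr D k s y - pr D k s y') * (1 - tk D k s y)
          + pr D k s y' * (tk D k s y' - tk D k s y) := by ring
    rw [h1]
    refine (abs_add_le _ _).trans ?_
    rw [abs_mul, abs_mul, add_mul]
    have h2 := tk_nonneg D k s y
    have h3 := tk_le_one D k s y
    have h4 := pr_mem D k s y'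
    apply add_le_add
    · calc |pr D k s y - pr D k s y'| * |1 - tk D k s y| ≤ (lc D k * |y - y'|) * 1 := by
            apply mul_le_mul ih _ (abs_nonneg _) ((abs_nonneg _).trans ih)
            rw [abs_le]; constructor <;> linarith
        _ = _ := mul_one _
    · calc |pr D k s y'| * |tk D k s y' - tk D k s y|
          ≤ 1 * ((D : ℝ) ^ (k + 1) * |y - y'|) := by
            apply mul_le_mul _ _ (abs_nonneg _) zero_le_one
            · rw [abs_of_nonneg h4.1]; exact h4.2
            · rw [abs_sub_comm]; exact tk_lip D k s y y'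
        _ = _ := one_mul _

theorem lc_le (D k : ℕ) (hD : 2 ≤ D) : lc D (k + 1) ≤ 2 * (D : ℝ) ^ (k + 1) := by
  have hD' : (2 : ℝ) ≤ D := by exact_mod_cast hD
  induction k with
  | zero => simp [lc]; linarith
  | succ k ih =>
    rw [lc, Finset.sum_range_succ, ← lc]
    have h1 : 2 * (D : ℝ) ^ (k + 1) ≤ (D : ℝ) ^ (k + 1 + 1) := by
      rw [pow_succ (D : ℝ) (k + 1), mul_comm]
      exact mul_le_mul_of_nonneg_left hD' (by positivity)
    linarith

theorem th_lip (D k : ℕ) (hD : 2 ≤ D) (s y y' : ℝ) :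
    |th D k s y - th D k s y'| ≤ 2 * (D : ℝ) ^ (k + 1) * |y - y'| := by
  rw [th_eq, th_eq]
  have h1 : tk D k s y * pr D k s y - tk D k s y' * pr D k s y'
      = (tk D k s y - tk D k s y') * pr D k s y + tk D k s y' * (pr D k s y - pr D k s y') := by
    ring
  rw [h1]
  refine (abs_add_le _ _).trans ?_
  rw [abs_mul, abs_mul]
  have h2 := pr_mem D k s y
  have h3 : |tk D k s y - tk D k s y'| * |pr D k s y| ≤ (D : ℝ) ^ (k + 1) * |y - y'| := by
    calc _ ≤ ((D : ℝ) ^ (k + 1) * |y - y'|) * 1 := by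
          apply mul_le_mul (tk_lip D k s y y') _ (abs_nonneg _) (by positivity)
          rw [abs_of_nonneg h2.1]; exact h2.2
      _ = _ := mul_one _
  have h4 : |tk D k s y'| * |pr D k s y - pr D k s y'| ≤ lc D k * |y - y'| := by
    calc _ ≤ 1 * (lc D k * |y - y'|) := by
          apply mul_le_mul _ (pr_lip D k s y y') (abs_nonneg _) zero_le_one
          rw [abs_of_nonneg (tk_nonneg D k s y')]; exact tk_le_one D k s y'
      _ = _ := one_mul _
  have h5 := lc_le D k hD
  rw [lc, Finset.sum_range_succ, ← lc] at h5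
  calc _ ≤ (D : ℝ) ^ (k + 1) * |y - y'| + lc D k * |y - y'| := add_le_add h3 h4
    _ = (lc D k + (D : ℝ) ^ (k + 1)) * |y - y'| := by ring
    _ ≤ _ := mul_le_mul_of_nonneg_right h5 (abs_nonneg _)

theorem sum_th (D N : ℕ) (s y : ℝ) : ∑ k ∈ Finset.range N, th D k s y = 1 - pr D N s y := by
  induction N with
  | zero => simp [pr]
  | succ N ih => rw [Finset.sum_range_succ, ih, th_eq, pr_succ]; ring

theorem tk_cont (h : VV.SpecBAS) {D : ℕ} (hD : 2 ≤ D) (k : ℕ) {u : ℝ → ℝ} (hu : Continuous u) :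
    Continuous (fun s => tk D k s (u s)) := by
  unfold tk
  have h1 := (h D k hD).1
  fun_prop

theorem th_cont (h : VV.SpecBAS) {D : ℕ} (hD : 2 ≤ D) (k : ℕ) {u : ℝ → ℝ} (hu : Continuous u) :
    Continuous (fun s => th D k s (u s)) := by
  unfold th
  apply (tk_cont h hD k hu).mul
  apply continuous_finset_prod
  intro j _
  exact continuous_const.sub (tk_cont h hD j hu)

end THBM

open THBM in
theorem specTHB (h : VV.SpecBAS) : SpecTHB := by
  intro D hD
  have hth : ∀ (k : ℕ) (s y : ℝ), 0 ≤ th D k s y ∧ th D k s y ≤ tk D k s y ∧ tk D k s y ≤ 1 := by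
    intro k s y
    have h1 := pr_mem D k s y
    have h2 := tk_nonneg D k s y
    refine ⟨?_, ?_, tk_le_one D k s y⟩
    · rw [th_eq]; exact mul_nonneg h2 h1.1
    · rw [th_eq]; exact mul_le_of_le_one_right h2 h1.2
  refine ⟨fun k u hu => th_cont h hD k hu, hth, fun k s y y' => th_lip D k hD s y y', ?_, ?_⟩
  · intro u hu
    refine ⟨fun k => ⟨?_, ?_⟩, fun N => ?_⟩
    · exact intervalIntegral.integral_nonneg zero_le_one fun s _ => (hth k s (u s)).1
    · unfold Wu Vu
      exact intervalIntegral.integral_mono_on zero_le_one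
        ((th_cont h hD k hu).intervalIntegrable 0 1) ((tk_cont h hD k hu).intervalIntegrable 0 1)
        fun s _ => (hth k s (u s)).2.1
    · unfold Wu
      rw [← intervalIntegral.integral_finset_sum
        (fun k _ => (th_cont h hD k hu).intervalIntegrable 0 1)]
      have h1 : ∫ s in (0 : ℝ)..1, ∑ k ∈ Finset.range N, th D k s (u s)
          ≤ ∫ _s in (0 : ℝ)..1, (1 : ℝ) := by
        apply intervalIntegral.integral_mono_on zero_le_one
        · exact (continuous_finset_sum _ fun k _ => th_cont h hD k hu).intervalIntegrable 0 1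
        · exact continuous_const.intervalIntegrable 0 1
        · intro s _
          rw [sum_th]
          have := (pr_mem D N s (u s)).1
          linarith
      refine h1.trans ?_
      simp
  · intro k u v δ hu hv hδ
    unfold Wu
    rw [← intervalIntegral.integral_sub ((th_cont h hD k hu).intervalIntegrable 0 1)
      ((th_cont h hD k hv).intervalIntegrable 0 1), ← Real.norm_eq_abs]
    refine (intervalIntegral.norm_integral_le_of_norm_le_const
      (C := 2 * (D : ℝ) ^ (k + 1) * δ) ?_).trans ?_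
    · intro s hs
      rw [uIoc_of_le zero_le_one] at hs
      rw [Real.norm_eq_abs]
      refine (th_lip D k hD s (u s) (v s)).trans ?_
      exact mul_le_mul_of_nonneg_left (hδ s hs.1.le hs.2) (by positivity)
    · simp

end Pool.Agent.Lib.MP5bcdfb.VX
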