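import Pool.Agent.Lib.MP_5bcdfb_an.VX.Spec

set_option autoImplicit false

namespace Pool.Agent.Lib.MP5bcdfb.VX

open MeasureTheory Set Filter Topology

/-- Truncated densities. -/
theorem specTRU : SpecTRU := by
  intro K _ μ _ S M hB hU τ hτ
  obtain ⟨δ, hδ, hδU⟩ := hU τ hτ
  have hL : 0 < (|M| + 1) / δ := by positivity
  refine ⟨(|M| + 1) / δ, hL, fun lam hlam => ?_⟩
  obtain ⟨hfin, hM⟩ := hB lam hlam
  have hac : lam ≪ μ := by
    refine Measure.AbsolutelyContinuous.mk (fun B hBm hB0 => ?_)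
    have h1 : (lam B).toReal = 0 := by
      refine le_antisymm (le_of_forall_pos_le_add (fun ε hε => ?_)) ENNReal.toReal_nonneg
      obtain ⟨δ', hδ', h2⟩ := hU ε hε
      have h3 := h2 lam hlam B hBm (by rw [hB0]; simpa using hδ'.le)
      linarith
    rcases (ENNReal.toReal_eq_zero_iff _).1 h1 with h | h
    · exact h
    · exact absurd h (measure_ne_top lam B)
  have hden : μ.withDensity (lam.rnDeriv μ) = lam := Measure.withDensity_rnDeriv_eq lam μ hac
  have hρm : Measurable (lam.rnDeriv μ) := Measure.measurable_rnDeriv lam μ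
  obtain ⟨ρ, hρ⟩ : ∃ ρ : K → ENNReal, ρ = lam.rnDeriv μ := ⟨_, rfl⟩
  rw [← hρ] at hden hρm
  have hset : ∀ B : Set K, MeasurableSet B → lam B = ∫⁻ t in B, ρ t ∂μ := by
    intro B hBm
    rw [← withDensity_apply ρ hBm, hden]
  have hGm : MeasurableSet {t | ρ t ≤ ENNReal.ofReal ((|M| + 1) / δ)} := measurableSet_le hρm measurable_const
  obtain ⟨G, hG⟩ : ∃ G : Set K, G = {t | ρ t ≤ ENNReal.ofReal ((|M| + 1) / δ)} := ⟨_, rfl⟩
  rw [← hG] at hGm
  have hGt : ∀ t ∈ G, ρ t ≤ ENNReal.ofReal ((|M| + 1) / δ) := by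
    intro t ht; rw [hG] at ht; exact ht
  have hrm : Measurable (G.indicator (fun t => (ρ t).toReal)) := hρm.ennreal_toReal.indicator hGm
  have hr0 : ∀ t, 0 ≤ G.indicator (fun t => (ρ t).toReal) t :=
    fun t => Set.indicator_nonneg (fun _ _ => ENNReal.toReal_nonneg) t
  have hof : ∀ t, ENNReal.ofReal (G.indicator (fun t => (ρ t).toReal) t) = G.indicator ρ t := by
    intro t
    by_cases ht : t ∈ G
    · rw [Set.indicator_of_mem ht, Set.indicator_of_mem ht]
      exact ENNReal.ofReal_toReal (ne_of_lt (lt_of_le_of_lt (hGt t ht) ENNReal.ofReal_lt_top))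
    · rw [Set.indicator_of_notMem ht, Set.indicator_of_notMem ht, ENNReal.ofReal_zero]
  have hint : ∀ B : Set K, MeasurableSet B → ∫ t in B, G.indicator (fun t => (ρ t).toReal) t ∂μ = (lam (G ∩ B)).toReal := by
    intro B hBm
    rw [integral_eq_lintegral_of_nonneg_ae (ae_of_all _ hr0) hrm.aestronglyMeasurable]
    congr 1
    rw [lintegral_congr hof, lintegral_indicator hGm, Measure.restrict_restrict hGm, hset _ (hGm.inter hBm)]
  refine ⟨G.indicator (fun t => (ρ t).toReal), hrm, fun t => ⟨hr0 t, ?_⟩, fun B hBm => ?_, ?_⟩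
  · by_cases ht : t ∈ G
    · rw [Set.indicator_of_mem ht]
      exact ENNReal.toReal_le_of_le_ofReal hL.le (hGt t ht)
    · rw [Set.indicator_of_notMem ht]
      exact hL.le
  · rw [hint B hBm]
    exact ENNReal.toReal_mono (measure_ne_top lam B) (measure_mono inter_subset_right)
  · have h1 := hint univ MeasurableSet.univ
    rw [Measure.restrict_univ, inter_univ] at h1
    rw [h1]
    have h2 : (lam univ).toReal = (lam G).toReal + (lam Gᶜ).toReal := by
      rw [← ENNReal.toReal_add (measure_ne_top lam _) (measure_ne_top lam _), measure_add_measure_compl hGm]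
    have h3 : ENNReal.ofReal ((|M| + 1) / δ) * μ Gᶜ ≤ lam Gᶜ := by
      rw [hset _ hGm.compl, ← setLIntegral_const]
      refine setLIntegral_mono hρm (fun t ht => ?_)
      have h4 : ¬ ρ t ≤ ENNReal.ofReal ((|M| + 1) / δ) := by
        intro h; apply ht; rw [hG]; exact h
      exact (not_le.1 h4).le
    have h5 : (|M| + 1) / δ * (μ Gᶜ).toReal ≤ (lam Gᶜ).toReal := by
      have h6 := ENNReal.toReal_mono (measure_ne_top lam _) h3
      rwa [ENNReal.toReal_mul, ENNReal.toReal_ofReal hL.le] at h6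
    have h7 : (lam Gᶜ).toReal ≤ (lam univ).toReal :=
      ENNReal.toReal_mono (measure_ne_top lam _) (measure_mono (subset_univ _))
    have h8 : (μ Gᶜ).toReal ≤ δ := by
      by_contra h
      push Not at h
      have h9 : (|M| + 1) / δ * δ < (|M| + 1) / δ * (μ Gᶜ).toReal := mul_lt_mul_of_pos_left h hL
      rw [div_mul_cancel₀ _ hδ.ne'] at h9
      have h10 := le_abs_self M
      linarith
    have h11 := hδU lam hlam Gᶜ hGm.compl h8
    linarith

end Pool.Agent.Lib.MP5bcdfb.VX
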