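import Pool.Agent.Lib.MP_5bcdfb_an.VX.Spec

/-!
# MP_5bcdfb, module UAC: uniform absolute continuity
-/

set_option autoImplicit false

namespace Pool.Agent.Lib.MP5bcdfb.VX

open MeasureTheory Set Filter Topology
open Pool.Agent.Lib.MP5bcdfb.TS Pool.Agent.Lib.MP5bcdfb.VV

theorem UACM.geo (ε : ℝ) (hε : 0 < ε) (n : ℕ) :
    ∑ j ∈ Finset.range n, ε / 4 * (1 / 2 : ℝ) ^ j ≤ ε / 2 := by
  rw [← Finset.mul_sum]
  have h := sum_geometric_two_le n
  have h2 := mul_le_mul_of_nonneg_left h (by positivity : (0 : ℝ) ≤ ε / 4)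
  linarith

theorem UACM.tsum_ne : ∑' j : ℕ, (2 : ENNReal) * (2 : ENNReal)⁻¹ ^ j ≠ ⊤ := by
  rw [ENNReal.tsum_mul_left, ENNReal.tsum_geometric]
  have h1 : (1 : ENNReal) - 2⁻¹ = 2⁻¹ := ENNReal.one_sub_inv_two
  rw [h1, inv_inv]
  exact ENNReal.mul_ne_top ENNReal.ofNat_ne_top ENNReal.ofNat_ne_top

theorem specUAC : SpecUAC := by
  intro K _ _ _ _ S M hB hR μ _ hμ
  by_contra hcon
  unfold Uac at hcon
  push Not at hcon
  obtain ⟨ε, hε, hcon⟩ := hcon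
  have hδ : ∀ j : ℕ, (0 : ℝ) < (1 / 2 : ℝ) ^ j := fun j => by positivity
  choose lam hlam B hBm hBμ hBl using fun j : ℕ => hcon ((1 / 2 : ℝ) ^ j) (hδ j)
  -- open sets
  have hO : ∀ j : ℕ, ∃ O : Set K, B j ⊆ O ∧ IsOpen O ∧ μ O ≤ 2 * (2 : ENNReal)⁻¹ ^ j := by
    intro j
    have hne : ((2 : ENNReal)⁻¹ ^ j) ≠ 0 := pow_ne_zero _ (by simp)
    obtain ⟨O, hO1, hO2, hO3⟩ := (B j).exists_isOpen_le_add μ hne
    refine ⟨O, hO1, hO2, hO3.trans ?_⟩
    have h1 : μ (B j) ≤ (2 : ENNReal)⁻¹ ^ j := by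
      have h2 : μ (B j) ≤ ENNReal.ofReal ((1 / 2 : ℝ) ^ j) :=
        (ENNReal.le_ofReal_iff_toReal_le (measure_ne_top μ _) (hδ j).le).2 (hBμ j)
      refine h2.trans (le_of_eq ?_)
      rw [ENNReal.ofReal_pow (by norm_num), one_div, ENNReal.ofReal_inv_of_pos (by norm_num)]
      simp
    calc μ (B j) + (2 : ENNReal)⁻¹ ^ j ≤ (2 : ENNReal)⁻¹ ^ j + (2 : ENNReal)⁻¹ ^ j := by gcongr
      _ = 2 * (2 : ENNReal)⁻¹ ^ j := (two_mul _).symm
  choose O hO1 hO2 hO3 using hO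
  set W : ℕ → Set K := fun J => ⋃ j ≥ J, O j with hW
  have hWo : ∀ J, IsOpen (W J) := fun J => isOpen_biUnion fun j _ => hO2 j
  have hWanti : ∀ i J, i ≤ J → W J ⊆ W i := by
    intro i J hiJ x hx
    simp only [hW, Set.mem_iUnion] at hx ⊢
    obtain ⟨j, hj, hxj⟩ := hx
    exact ⟨j, hiJ.trans hj, hxj⟩
  -- compact sets
  have hD : ∀ J, ∃ D : Set K, IsCompact D ∧ D ⊆ W J ∧
      ∀ l ∈ S, (l (W J \ D)).toReal ≤ ε / 4 * (1 / 2 : ℝ) ^ J := fun J =>
    hR (W J) (ε / 4 * (1 / 2 : ℝ) ^ J) (hWo J) (by have := hδ J; positivity)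
  choose D hD1 hD2 hD3 using hD
  have hGc : IsCompact (⋂ J, D J) :=
    (hD1 0).of_isClosed_subset (isClosed_iInter fun J => (hD1 J).isClosed) (Set.iInter_subset _ 0)
  have hGμ : μ (⋂ J, D J) = 0 := by
    have h1 : μ {x | ∃ᶠ n in atTop, x ∈ O n} = 0 := by
      apply measure_setOfPred_frequently_eq_zero
      exact ne_top_of_le_ne_top UACM.tsum_ne (ENNReal.tsum_le_tsum hO3)
    refine measure_mono_null ?_ h1
    intro x hx
    show ∃ᶠ n in atTop, x ∈ O n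
    rw [frequently_atTop]
    intro J
    have h2 : x ∈ W J := hD2 J (Set.mem_iInter.1 hx J)
    simp only [hW, Set.mem_iUnion] at h2
    obtain ⟨j, hj, hxj⟩ := h2
    exact ⟨j, hj, hxj⟩
  have hGl := hμ _ hGc hGμ
  obtain ⟨C, hC1, hC2, hC3⟩ := hR (⋂ J, D J)ᶜ (ε / 4) hGc.isClosed.isOpen_compl (by positivity)
  -- compactness
  have hfin : ∃ u : Finset ℕ, ¬ (C ∩ ⋂ i ∈ u, D i).Nonempty := by
    by_contra hu
    push Not at hu
    obtain ⟨x, hx1, hx2⟩ := hC1.inter_iInter_nonempty D (fun i => (hD1 i).isClosed) hu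
    exact hC2 hx1 hx2
  obtain ⟨u, hu⟩ := hfin
  set J := u.sup id with hJ
  have hJu : ∀ i ∈ u, i ≤ J := fun i hi => Finset.le_sup (f := id) hi
  set GJ : Set K := ⋂ i ∈ Finset.range (J + 1), D i with hGJ
  have hGJC : GJ ⊆ Cᶜ := by
    intro x hx hxC
    apply hu
    refine ⟨x, hxC, ?_⟩
    simp only [hGJ, Set.mem_iInter] at hx ⊢
    intro i hi
    exact hx i (Finset.mem_range.2 (Nat.lt_succ_of_le (hJu i hi)))
  have hfm : IsFiniteMeasure (lam J) := (hB _ (hlam J)).1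
  have e1 : (lam J).real GJ ≤ ε / 4 := by
    have h1 : GJ ⊆ (⋂ i, D i) ∪ ((⋂ i, D i)ᶜ \ C) := by
      intro x hx
      by_cases hxG : x ∈ ⋂ i, D i
      · exact Or.inl hxG
      · exact Or.inr ⟨hxG, hGJC hx⟩
    refine (measureReal_mono h1).trans ((measureReal_union_le _ _).trans ?_)
    have h2 : (lam J).real (⋂ i, D i) = 0 := by
      rw [Measure.real, hGl _ (hlam J)]; rfl
    have h3 : (lam J).real ((⋂ i, D i)ᶜ \ C) ≤ ε / 4 := hC3 _ (hlam J)
    linarith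
  have e2 : (lam J).real (W J \ GJ) ≤ ε / 2 := by
    have h1 : W J \ GJ ⊆ ⋃ i ∈ Finset.range (J + 1), (W i \ D i) := by
      rintro x ⟨hx1, hx2⟩
      simp only [hGJ, Set.mem_iInter, not_forall] at hx2
      obtain ⟨i, hi, hxi⟩ := hx2
      simp only [Set.mem_iUnion]
      exact ⟨i, hi, hWanti i J (Nat.lt_succ_iff.1 (Finset.mem_range.1 hi)) hx1, hxi⟩
    refine (measureReal_mono h1 (measure_ne_top (lam J) _)).trans
      ((measureReal_biUnion_finset_le _ _).trans ?_)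
    refine (Finset.sum_le_sum fun i _ => ?_).trans (UACM.geo ε hε (J + 1))
    exact hD3 i _ (hlam J)
  have e3 : (lam J).real (B J) ≤ (lam J).real GJ + (lam J).real (W J \ GJ) := by
    have h1 : B J ⊆ GJ ∪ (W J \ GJ) := by
      intro x hx
      by_cases hxG : x ∈ GJ
      · exact Or.inl hxG
      · refine Or.inr ⟨?_, hxG⟩
        simp only [hW, Set.mem_iUnion]
        exact ⟨J, le_refl J, hO1 J hx⟩
    exact (measureReal_mono h1).trans (measureReal_union_le _ _)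
  have e4 : ε < (lam J).real (B J) := hBl J
  linarith

end Pool.Agent.Lib.MP5bcdfb.VX
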