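import Pool.Agent.Lib.MP_5bcdfb_an.VX.Spec

/-!
# MP_5bcdfb, module VX.UWS: sums with small coefficients
-/

set_option autoImplicit false

namespace Pool.Agent.Lib.MP5bcdfb.VX

open MeasureTheory Set Filter Topology
open Pool.Agent.Lib.MP5bcdfb.TS Pool.Agent.Lib.MP5bcdfb.VV

noncomputable section

namespace UWSM

variable {X : Type} [NormedAddCommGroup X] [NormedSpace ℝ X]

/-- for a functional in the unit ball the values are bounded -/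
theorem bdd_unit {x : ℕ → X} (hx : UWN x) (φ : X →L[ℝ] ℝ) (hφ : ‖φ‖ ≤ 1) :
    ∃ C : ℝ, ∀ k, |φ (x k)| ≤ C := by
  obtain ⟨N, hN⟩ := hx 1 one_pos
  have hfin : {k : ℕ | 1 ≤ |φ (x k)|}.Finite := by
    by_contra hinf
    obtain ⟨A, hA, hcard⟩ := Set.Infinite.exists_subset_card_eq hinf (N + 1)
    have h1 := hN φ hφ A (fun k hk => hA hk)
    omega
  obtain ⟨C, hC⟩ := (hfin.image (fun k => |φ (x k)|)).bddAbove
  refine ⟨max C 1, fun k => ?_⟩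
  by_cases hk : 1 ≤ |φ (x k)|
  · exact (hC ⟨k, hk, rfl⟩).trans (le_max_left _ _)
  · exact (not_le.mp hk).le.trans (le_max_right _ _)

theorem bdd_all {x : ℕ → X} (hx : UWN x) (φ : X →L[ℝ] ℝ) : ∃ C : ℝ, ∀ k, |φ (x k)| ≤ C := by
  have hpos : 0 < ‖φ‖ + 1 := by positivity
  have hn : ‖((‖φ‖ + 1)⁻¹ : ℝ) • φ‖ ≤ 1 := by
    rw [norm_smul, norm_inv, Real.norm_of_nonneg hpos.le, inv_mul_le_iff₀ hpos]
    linarith
  obtain ⟨C, hC⟩ := bdd_unit hx _ hn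
  refine ⟨(‖φ‖ + 1) * C, fun k => ?_⟩
  have h1 := hC k
  have h2 : (((‖φ‖ + 1)⁻¹ : ℝ) • φ) (x k) = (‖φ‖ + 1)⁻¹ * φ (x k) := rfl
  rw [h2, abs_mul, abs_of_pos (inv_pos.mpr hpos), inv_mul_le_iff₀ hpos] at h1
  exact h1

theorem bdd {x : ℕ → X} (hx : UWN x) : ∃ C : ℝ, 0 < C ∧ ∀ k, ‖x k‖ ≤ C := by
  have h1 : ∀ φ : X →L[ℝ] ℝ, ∃ C : ℝ, ∀ k : ℕ, ‖NormedSpace.inclusionInDoubleDual ℝ X (x k) φ‖ ≤ C := by
    intro φ
    obtain ⟨C, hC⟩ := bdd_all hx φ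
    refine ⟨C, fun k => ?_⟩
    rw [NormedSpace.dual_def, Real.norm_eq_abs]
    exact hC k
  obtain ⟨C, hC⟩ := banach_steinhaus h1
  refine ⟨max C 1, lt_of_lt_of_le one_pos (le_max_right _ _), fun k => ?_⟩
  refine NormedSpace.norm_le_dual_bound ℝ (x k) (le_trans zero_le_one (le_max_right _ _)) ?_
  intro f
  have h2 : ‖NormedSpace.inclusionInDoubleDual ℝ X (x k) f‖ ≤ ‖NormedSpace.inclusionInDoubleDual ℝ X (x k)‖ * ‖f‖ :=
    ContinuousLinearMap.le_opNorm _ _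
  rw [NormedSpace.dual_def] at h2
  refine h2.trans (mul_le_mul_of_nonneg_right ((hC k).trans (le_max_left _ _)) (norm_nonneg f))

end UWSM

open UWSM in
theorem specUWS : SpecUWS := by
  intro X _ _ x hx
  obtain ⟨C, hC0, hC⟩ := bdd hx
  refine ⟨⟨C, hC0, hC⟩, fun ε hε => ?_⟩
  obtain ⟨N, hN⟩ := hx (ε / 4) (by positivity)
  have hden : 0 < 2 * ((N : ℝ) * C + 1) := by positivity
  refine ⟨ε / (2 * ((N : ℝ) * C + 1)), by positivity, fun a S ha hS => ?_⟩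
  obtain ⟨φ, hφ1, hφ2⟩ := exists_dual_vector'' ℝ (∑ k ∈ S, a k • x k)
  have h1 : ‖∑ k ∈ S, a k • x k‖ = ∑ k ∈ S, a k * φ (x k) := by
    have h2 : φ (∑ k ∈ S, a k • x k) = ∑ k ∈ S, a k * φ (x k) := by
      rw [map_sum]
      refine Finset.sum_congr rfl fun k _ => ?_
      rw [map_smul, smul_eq_mul]
    rw [← h2, hφ2]
    rfl
  set ρ : ℝ := ε / (2 * ((N : ℝ) * C + 1)) with hρ
  have hρ0 : 0 < ρ := by positivity
  have hρN : (N : ℝ) * (ρ * C) ≤ ε / 2 := by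
    have h3 : ρ * (2 * ((N : ℝ) * C + 1)) = ε := by
      rw [hρ]
      exact div_mul_cancel₀ ε hden.ne'
    nlinarith
  have hφx : ∀ k, |φ (x k)| ≤ C := by
    intro k
    have h4 := φ.le_opNorm (x k)
    rw [Real.norm_eq_abs] at h4
    calc |φ (x k)| ≤ ‖φ‖ * ‖x k‖ := h4
      _ ≤ 1 * C := mul_le_mul hφ1 (hC k) (norm_nonneg _) zero_le_one
      _ = C := one_mul C
  have h5 : ∑ k ∈ S, a k * φ (x k) ≤ ∑ k ∈ S, |a k| * |φ (x k)| := by
    refine Finset.sum_le_sum fun k _ => ?_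
    rw [← abs_mul]
    exact le_abs_self _
  have h6 : ∑ k ∈ S, |a k| * |φ (x k)| ≤
      ∑ k ∈ S.filter (fun k => ε / 4 ≤ |φ (x k)|), ρ * C + ∑ k ∈ S, |a k| * (ε / 4) := by
    rw [Finset.sum_filter, ← Finset.sum_add_distrib]
    refine Finset.sum_le_sum fun k hk => ?_
    have h7 : 0 ≤ |a k| := abs_nonneg _
    split_ifs with h8
    · have h9 : |a k| * |φ (x k)| ≤ ρ * C := mul_le_mul (ha k hk) (hφx k) (abs_nonneg _) hρ0.le
      have h10 : 0 ≤ |a k| * (ε / 4) := by positivity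
      linarith
    · have h9 : |a k| * |φ (x k)| ≤ |a k| * (ε / 4) :=
        mul_le_mul_of_nonneg_left (not_le.mp h8).le h7
      linarith
  have h11 : ∑ k ∈ S.filter (fun k => ε / 4 ≤ |φ (x k)|), ρ * C ≤ ε / 2 := by
    rw [Finset.sum_const, nsmul_eq_mul]
    have h12 : ((S.filter (fun k => ε / 4 ≤ |φ (x k)|)).card : ℝ) ≤ (N : ℝ) := by
      exact_mod_cast hN φ hφ1 _ (fun k hk => (Finset.mem_filter.mp hk).2)
    exact (mul_le_mul_of_nonneg_right h12 (by positivity)).trans hρN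
  have h13 : ∑ k ∈ S, |a k| * (ε / 4) ≤ ε / 2 := by
    rw [← Finset.sum_mul]
    nlinarith
  rw [h1]
  linarith

end

end Pool.Agent.Lib.MP5bcdfb.VX
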