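import Pool.Agent.Lib.MP_5bcdfb_an.VX.Spec

/-!
# MP_5bcdfb, part VX, module WLM: weak limits along an ultrafilter
-/

set_option autoImplicit false

namespace Pool.Agent.Lib.MP5bcdfb.VX

open MeasureTheory Set Filter Topology

namespace WLMM

/-- weak compactness of bounded sequences in a Hilbert space, along an ultrafilter -/
lemma weak_limit (H : Type) [NormedAddCommGroup H] [InnerProductSpace ℝ H] [CompleteSpace H]
    (x : ℕ → H) (C : ℝ) (hC : ∀ k, ‖x k‖ ≤ C) (U : Ultrafilter ℕ) :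
    ∃ a : H, ∀ ψ : H, Tendsto (fun k => inner ℝ (x k) ψ) U (𝓝 (inner ℝ a ψ)) := by
  let φ : ℕ → WeakDual ℝ H := fun k =>
    StrongDual.toWeakDual (InnerProductSpace.toDual ℝ H (x k))
  have hc : IsCompact (WeakDual.toStrongDual ⁻¹' Metric.closedBall (0 : StrongDual ℝ H) C) :=
    WeakDual.isCompact_closedBall 0 C
  have hmem : ∀ k, φ k ∈ WeakDual.toStrongDual ⁻¹' Metric.closedBall (0 : StrongDual ℝ H) C := by
    intro k
    show (InnerProductSpace.toDual ℝ H (x k) : StrongDual ℝ H) ∈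
      Metric.closedBall (0 : StrongDual ℝ H) C
    rw [mem_closedBall_zero_iff, LinearIsometryEquiv.norm_map]
    exact hC k
  obtain ⟨y, -, hy⟩ := hc.ultrafilter_le_nhds (U.map φ) (by
    rw [le_principal_iff]
    exact Filter.mem_map.2 (Filter.univ_mem' hmem))
  have hlim : Tendsto φ U (𝓝 y) := hy
  refine ⟨(InnerProductSpace.toDual ℝ H).symm (WeakDual.toStrongDual y), ?_⟩
  intro ψ
  have h1 : Tendsto (fun k => φ k ψ) U (𝓝 (y ψ)) :=
    ((WeakDual.eval_continuous ψ).tendsto y).comp hlim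
  have h2 : ∀ k, φ k ψ = inner ℝ (x k) ψ := fun k => rfl
  have h3 : y ψ = inner ℝ ((InnerProductSpace.toDual ℝ H).symm (WeakDual.toStrongDual y)) ψ := by
    rw [InnerProductSpace.toDual_symm_apply]
    rfl
  simp only [h2] at h1
  rw [h3] at h1
  exact h1

end WLMM

theorem specWLM : SpecWLM := by
  intro K _ μ _ L u hL hu hb U
  have hmem : ∀ k, MemLp (u k) 2 μ := fun k =>
    MemLp.of_bound (hu k).aestronglyMeasurable L (Eventually.of_forall fun t => by
      rw [Real.norm_eq_abs, abs_of_nonneg (hb k t).1]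
      exact (hb k t).2)
  have hnorm : ∀ k, ‖(hmem k).toLp (u k)‖ ≤
      (measureUnivNNReal μ : ℝ) ^ (2 : ENNReal).toReal⁻¹ * L := by
    intro k
    apply Lp.norm_le_of_ae_bound hL
    filter_upwards [(hmem k).coeFn_toLp] with t ht
    rw [ht, Real.norm_eq_abs, abs_of_nonneg (hb k t).1]
    exact (hb k t).2
  obtain ⟨a₀, ha₀⟩ := WLMM.weak_limit (Lp ℝ 2 μ) (fun k => (hmem k).toLp (u k)) _ hnorm U
  have hsm : StronglyMeasurable (a₀ : K → ℝ) := Lp.stronglyMeasurable a₀
  have ha2 : MemLp (a₀ : K → ℝ) 2 μ := Lp.memLp a₀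
  have hai : Integrable (a₀ : K → ℝ) μ := ha2.integrable (by norm_num)
  -- convergence for bounded test functions
  have key : ∀ ψ : K → ℝ, Measurable ψ → (∃ C : ℝ, ∀ t, |ψ t| ≤ C) →
      Tendsto (fun k => ∫ t, u k t * ψ t ∂μ) U (𝓝 (∫ t, a₀ t * ψ t ∂μ)) := by
    rintro ψ hψ ⟨C, hC⟩
    have hψm : MemLp ψ 2 μ := MemLp.of_bound hψ.aestronglyMeasurable C
      (Eventually.of_forall fun t => by rw [Real.norm_eq_abs]; exact hC t)
    have h1 := ha₀ (hψm.toLp ψ)
    have h2 : ∀ k, inner ℝ ((hmem k).toLp (u k)) (hψm.toLp ψ) = ∫ t, u k t * ψ t ∂μ := by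
      intro k
      rw [L2.inner_def]
      apply integral_congr_ae
      filter_upwards [(hmem k).coeFn_toLp, hψm.coeFn_toLp] with t ht1 ht2
      rw [ht1, ht2]
      show ψ t * u k t = u k t * ψ t
      ring
    have h3 : inner ℝ a₀ (hψm.toLp ψ) = ∫ t, a₀ t * ψ t ∂μ := by
      rw [L2.inner_def]
      apply integral_congr_ae
      filter_upwards [hψm.coeFn_toLp] with t ht2
      rw [ht2]
      show ψ t * a₀ t = a₀ t * ψ t
      ring
    simp only [h2] at h1
    rw [h3] at h1
    exact h1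
  have hui : ∀ k, Integrable (u k) μ := fun k => (hmem k).integrable (by norm_num)
  have hset : ∀ s : Set K, MeasurableSet s →
      Tendsto (fun k => ∫ t in s, u k t ∂μ) U (𝓝 (∫ t in s, a₀ t ∂μ)) := by
    intro s hs
    have h1 := key (indicator s fun _ => 1) (measurable_const.indicator hs) ⟨1, fun t => by
      by_cases ht : t ∈ s
      · rw [indicator_of_mem ht, abs_one]
      · rw [indicator_of_notMem ht, abs_zero]
        exact zero_le_one⟩
    have h2 : ∀ f : K → ℝ, ∫ t, f t * indicator s (fun _ => (1 : ℝ)) t ∂μ = ∫ t in s, f t ∂μ := by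
      intro f
      rw [← integral_indicator hs]
      congr 1
      funext t
      by_cases ht : t ∈ s
      · rw [indicator_of_mem ht, indicator_of_mem ht, mul_one]
      · rw [indicator_of_notMem ht, indicator_of_notMem ht, mul_zero]
    simp only [h2] at h1
    exact h1
  have h0 : 0 ≤ᵐ[μ] (a₀ : K → ℝ) := by
    apply ae_nonneg_of_forall_setIntegral_nonneg hai
    intro s hs _
    refine ge_of_tendsto (hset s hs) (Eventually.of_forall fun k => ?_)
    exact integral_nonneg fun t => (hb k t).1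
  have h1 : 0 ≤ᵐ[μ] fun t => L - a₀ t := by
    apply ae_nonneg_of_forall_setIntegral_nonneg ((integrable_const L).sub hai)
    intro s hs _
    have h2 : ∫ t in s, (L - a₀ t) ∂μ = (∫ _ in s, L ∂μ) - ∫ t in s, a₀ t ∂μ :=
      integral_sub (integrable_const L) hai.integrableOn
    show 0 ≤ ∫ t in s, (L - a₀ t) ∂μ
    rw [h2, sub_nonneg]
    refine le_of_tendsto (hset s hs) (Eventually.of_forall fun k => ?_)
    exact integral_mono (hui k).integrableOn (integrable_const L) fun t => (hb k t).2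
  have hae : (fun t => max 0 (min L (a₀ t))) =ᵐ[μ] (a₀ : K → ℝ) := by
    filter_upwards [h0, h1] with t ht0 ht1
    have e0 : 0 ≤ a₀ t := ht0
    have e1 : 0 ≤ L - a₀ t := ht1
    rw [min_eq_right (by linarith), max_eq_right e0]
  refine ⟨fun t => max 0 (min L (a₀ t)), ?_, ?_, ?_⟩
  · exact measurable_const.max (measurable_const.min hsm.measurable)
  · intro t
    exact ⟨le_max_left _ _, max_le hL (min_le_left _ _)⟩
  · intro ψ hψ hC
    have h3 : ∫ t, (max 0 (min L (a₀ t))) * ψ t ∂μ = ∫ t, a₀ t * ψ t ∂μ := by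
      apply integral_congr_ae
      filter_upwards [hae] with t ht
      rw [ht]
    rw [h3]
    exact key ψ hψ hC

end Pool.Agent.Lib.MP5bcdfb.VX
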