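import Pool.Agent.Lib.MP_5bcdfb_an.VV.Main
import Pool.Agent.Lib.MP_5bcdfb_an.VX.Spec
import Pool.Agent.Lib.MP_5bcdfb_an.VX.THB
import Pool.Agent.Lib.MP_5bcdfb_an.VX.SMW
import Pool.Agent.Lib.MP_5bcdfb_an.VX.RSW
import Pool.Agent.Lib.MP_5bcdfb_an.VX.UWS
import Pool.Agent.Lib.MP_5bcdfb_an.VX.CNX
import Pool.Agent.Lib.MP_5bcdfb_an.VX.GNX
import Pool.Agent.Lib.MP_5bcdfb_an.VX.OWB
import Pool.Agent.Lib.MP_5bcdfb_an.VX.OWM
import Pool.Agent.Lib.MP_5bcdfb_an.VX.GLJ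
import Pool.Agent.Lib.MP_5bcdfb_an.VX.DSJ
import Pool.Agent.Lib.MP_5bcdfb_an.VX.REG
import Pool.Agent.Lib.MP_5bcdfb_an.VX.CTM
import Pool.Agent.Lib.MP_5bcdfb_an.VX.UAC
import Pool.Agent.Lib.MP_5bcdfb_an.VX.TRU
import Pool.Agent.Lib.MP_5bcdfb_an.VX.WLM
import Pool.Agent.Lib.MP_5bcdfb_an.VX.CES
import Pool.Agent.Lib.MP_5bcdfb_an.VX.NST
import Pool.Agent.Lib.MP_5bcdfb_an.VX.MXS
import Pool.Agent.Lib.MP_5bcdfb_an.VX.LOW
import Pool.Agent.Lib.MP_5bcdfb_an.VX.SEL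
import Pool.Agent.Lib.MP_5bcdfb_an.VX.LSN
import Pool.Agent.Lib.MP_5bcdfb_an.VX.BDX
import Pool.Agent.Lib.MP_5bcdfb_an.VX.FAM
import Pool.Agent.Lib.MP_5bcdfb_an.VX.MNY
import Pool.Agent.Lib.MP_5bcdfb_an.VX.FIN
import Pool.Agent.Lib.MP_5bcdfb_an.VX.RMV

/-!
# MP_5bcdfb, VX: assembly
-/

set_option autoImplicit false

namespace Pool.Agent.Lib.MP5bcdfb.VX

open MeasureTheory Set Filter Topology
open Pool.Agent.Lib.MP5bcdfb.TS Pool.Agent.Lib.MP5bcdfb.VV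

theorem allOVL : VV.SpecOVL := VV.specOVL VV.allVOL VV.allBAS

theorem allTHB : SpecTHB := specTHB VV.allBAS

theorem allCNX : SpecCNX := specCNX allTHB (specSMW VV.allVOL VV.allBAS allTHB) specUWS

theorem allGNX : SpecGNX := specGNX VV.specTRI VV.allBAS specUWS allCNX (specRSW VV.allVOL VV.allBAS allOVL allTHB)

theorem allOWB : SpecOWB := specOWB TS.specLOC

theorem allFAM : SpecFAM := specFAM allOWB (specOWM allOWB) (specDSJ TS.specLOC) specREG specCTM specUAC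

theorem allSEL : SpecSEL := specSEL specWLM (specCES specWLM) specNST (specLOW specMXS)

theorem allFIN : SpecFIN :=
  specFIN (specBDX (TS.specBDD TS.specLOC)) allFAM specMNY specTRU allSEL specLSN (specGLJ TS.specLOC allOWB)

theorem sph_iff (X : Type) [NormedAddCommGroup X] [NormedSpace ℝ X] [CompleteSpace X] (n : ℕ) (hn : 2 ≤ n) :
    (∀ V : C(Sph n, ℝ) → X, ValX V → ContX V → UCX V) ↔ ¬ HasUWN X := by
  constructor
  · intro h hX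
    obtain ⟨γ, c, h1, h2⟩ := VV.specSPH n hn
    obtain ⟨V, a1, a2, a3⟩ := allGNX (Metric.sphere (0 : EuclideanSpace ℝ (Fin n)) 1) γ c h1 h2 X hX
    exact a3 (h V a1 a2)
  · intro hX V a1 a2
    exact allFIN (Sph n) X hX V a1 a2

theorem sph_rmv (n m : ℕ) (hn : 2 ≤ n) (hm : 2 ≤ m) :
    ∃ V : C(Sph n, ℝ) → C(Sph m, ℝ), (∀ f, 0 ≤ f → 0 ≤ V f) ∧ ValX V ∧ ContX V ∧ ¬ UCX V :=
  RMVM.rmv VV.specTRI allTHB specUWS allCNX (specRSW VV.allVOL VV.allBAS allOVL allTHB) n m hn hm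

end Pool.Agent.Lib.MP5bcdfb.VX
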