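import Pool.Agent.Lib.MP_5bcdfb_an.VX.Spec

/-! Module SEL of `VX/Spec.lean`: the selection theorem. -/

set_option autoImplicit false

namespace Pool.Agent.Lib.MP5bcdfb.VX

open MeasureTheory Set Filter Topology
open Pool.Agent.Lib.MP5bcdfb.TS Pool.Agent.Lib.MP5bcdfb.VV

noncomputable section

namespace SELM

/-! ### The dyadic index -/

theorem ix_half (m : ℝ) (l : ℕ) (v : ℝ) : ix m (l + 1) v / 2 = ix m l v := by
  unfold ix
  have h : (2 : ℝ) ^ l * v / m = (2 : ℝ) ^ (l + 1) * v / m / ((2 : ℕ) : ℝ) := by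
    push_cast
    rw [pow_succ]
    ring
  rw [h, Nat.floor_div_natCast]

theorem ix_zero (m v : ℝ) (hv : 0 ≤ v) (hm : v < m) : ix m 0 v = 0 := by
  unfold ix
  rw [Nat.floor_eq_zero, pow_zero, one_mul]
  exact (div_lt_one (lt_of_le_of_lt hv hm)).2 hm

theorem ix_split (m : ℝ) (l i : ℕ) (v w : ℝ) :
    (if ix m l v = i then w else 0) =
      (if ix m (l + 1) v = 2 * i then w else 0) + (if ix m (l + 1) v = 2 * i + 1 then w else 0) := by
  have h := ix_half m l v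
  rcases Nat.mod_two_eq_zero_or_one (ix m (l + 1) v) with h2 | h2
  · by_cases h3 : ix m l v = i
    · rw [if_pos h3, if_pos (by omega), if_neg (by omega), add_zero]
    · rw [if_neg h3, if_neg (by omega), if_neg (by omega), add_zero]
  · by_cases h3 : ix m l v = i
    · rw [if_pos h3, if_neg (by omega), if_pos (by omega), zero_add]
    · rw [if_neg h3, if_neg (by omega), if_neg (by omega), add_zero]

theorem ix_low (m : ℝ) (l : ℕ) (v : ℝ) (hm : 0 < m) (hv : 0 ≤ v) : m * (ix m l v : ℝ) / 2 ^ l ≤ v := by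
  have h2 : (0 : ℝ) < 2 ^ l := by positivity
  have h := Nat.floor_le (a := (2 : ℝ) ^ l * v / m) (by positivity)
  rw [div_le_iff₀ h2]
  have h3 : (ix m l v : ℝ) ≤ (2 : ℝ) ^ l * v / m := h
  rw [le_div_iff₀ hm] at h3
  nlinarith [h3]

theorem ix_upp (m : ℝ) (l : ℕ) (v : ℝ) (hm : 0 < m) : v ≤ m * ((ix m l v : ℝ) + 1) / 2 ^ l := by
  have h2 : (0 : ℝ) < 2 ^ l := by positivity
  have h := Nat.lt_floor_add_one ((2 : ℝ) ^ l * v / m)
  rw [le_div_iff₀ h2]
  have h3 : (2 : ℝ) ^ l * v / m < (ix m l v : ℝ) + 1 := h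
  rw [div_lt_iff₀ hm] at h3
  nlinarith [h3]

theorem ix_meas {K : Type} [MeasurableSpace K] (m : ℝ) (l : ℕ) {g : K → ℝ} (hg : Measurable g) :
    Measurable (fun t => ix m l (g t)) :=
  Nat.measurable_floor.comp ((hg.const_mul _).div_const _)

/-! ### Integration lemmas -/

section
variable {K : Type} [MeasurableSpace K] {μ : Measure K} [IsFiniteMeasure μ]

theorem bint {g : K → ℝ} (C : ℝ) (hg : Measurable g) (hC : ∀ t, |g t| ≤ C) : Integrable g μ :=
  Integrable.of_bound hg.aestronglyMeasurable C (ae_of_all _ (fun t => by simpa using hC t))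

theorem sqz {g : K → ℝ} (C : ℝ) (hg : Measurable g) (hC : ∀ t, |g t| ≤ C)
    (h : ∫ t, g t * g t ∂μ ≤ 0) : ∀ᵐ t ∂μ, g t = 0 := by
  have hi : Integrable (fun t => g t * g t) μ := bint (C * C) (hg.mul hg) (fun t => by
    rw [abs_mul]
    exact mul_le_mul (hC t) (hC t) (abs_nonneg _) (le_trans (abs_nonneg _) (hC t)))
  have h0 : 0 ≤ᵐ[μ] (fun t => g t * g t) := ae_of_all _ (fun t => mul_self_nonneg _)
  have h1 : ∫ t, g t * g t ∂μ = 0 := le_antisymm h (integral_nonneg (fun t => mul_self_nonneg _))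
  have h2 := (integral_eq_zero_iff_of_nonneg_ae h0 hi).1 h1
  filter_upwards [h2] with t ht
  exact mul_self_eq_zero.1 ht

theorem abz {g : K → ℝ} (C : ℝ) (hg : Measurable g) (hC : ∀ t, |g t| ≤ C)
    (h : ∀ η : ℝ, 0 < η → ∫ t, |g t| ∂μ ≤ η) : ∀ᵐ t ∂μ, g t = 0 := by
  have hi : Integrable (fun t => |g t|) μ := (bint C hg hC).abs
  have h0 : 0 ≤ᵐ[μ] (fun t => |g t|) := ae_of_all _ (fun t => abs_nonneg _)
  have h1 : ∫ t, |g t| ∂μ = 0 := by
    refine le_antisymm (le_of_forall_pos_le_add (fun η hη => ?_)) (integral_nonneg (fun t => abs_nonneg _))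
    simpa using h η hη
  have h2 := (integral_eq_zero_iff_of_nonneg_ae h0 hi).1 h1
  filter_upwards [h2] with t ht
  exact abs_eq_zero.1 ht

omit [IsFiniteMeasure μ] in
theorem int3 {x y z : K → ℝ} (hx : Integrable x μ) (hy : Integrable y μ) (hz : Integrable z μ) :
    ∫ t, (x t + y t + z t) ∂μ = ∫ t, x t ∂μ + ∫ t, y t ∂μ + ∫ t, z t ∂μ := by
  rw [integral_add (f := fun t => x t + y t) (hx.add hy) hz, integral_add hx hy]

omit [IsFiniteMeasure μ] in
theorem ints {x y z : K → ℝ} (hx : Integrable x μ) (hy : Integrable y μ) (hz : Integrable z μ) :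
    ∫ t, (x t - (y t + z t)) ∂μ = ∫ t, x t ∂μ - (∫ t, y t ∂μ + ∫ t, z t ∂μ) := by
  rw [integral_sub (g := fun t => y t + z t) hx (hy.add hz), integral_add hy hz]

/-! ### Averages -/

/-- weighted averages over a dyadic interval -/
def av (m : ℝ) (g w : ℕ → K → ℝ) (A : Finset ℕ) (l i : ℕ) (t : K) : ℝ :=
  (∑ k ∈ A, if ix m l (g k t) = i then w k t else 0) / (A.card : ℝ)

theorem av_meas (m : ℝ) {g w : ℕ → K → ℝ} (hg : ∀ k, Measurable (g k)) (hw : ∀ k, Measurable (w k))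
    (A : Finset ℕ) (l i : ℕ) : Measurable (av m g w A l i) := by
  unfold av
  refine Measurable.div_const (Finset.measurable_sum _ (fun k _ => ?_)) _
  exact Measurable.ite (measurableSet_eq_fun (ix_meas m l (hg k)) measurable_const) (hw k) measurable_const

omit [MeasurableSpace K] in
theorem av_nonneg (m : ℝ) {g w : ℕ → K → ℝ} (hw : ∀ k t, 0 ≤ w k t)
    (A : Finset ℕ) (l i : ℕ) (t : K) : 0 ≤ av m g w A l i t := by
  unfold av
  refine div_nonneg (Finset.sum_nonneg (fun k _ => ?_)) (Nat.cast_nonneg _)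
  split_ifs
  · exact hw k t
  · exact le_rfl

omit [MeasurableSpace K] in
theorem av_le (m L : ℝ) {g w : ℕ → K → ℝ} (hL : 0 ≤ L) (hw : ∀ k t, w k t ≤ L)
    (A : Finset ℕ) (l i : ℕ) (t : K) : av m g w A l i t ≤ L := by
  unfold av
  rcases Nat.eq_zero_or_pos A.card with h | h
  · rw [h]
    simpa using hL
  · have h' : (0 : ℝ) < (A.card : ℝ) := by exact_mod_cast h
    rw [div_le_iff₀ h']
    calc ∑ k ∈ A, (if ix m l (g k t) = i then w k t else 0) ≤ ∑ k ∈ A, L := by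
          refine Finset.sum_le_sum (fun k _ => ?_)
          split_ifs
          · exact hw k t
          · exact hL
      _ = L * (A.card : ℝ) := by
          rw [Finset.sum_const, nsmul_eq_mul, mul_comm]

omit [MeasurableSpace K] in
theorem av_add (m : ℝ) (g w : ℕ → K → ℝ) (A : Finset ℕ) (l i : ℕ) (t : K) :
    av m g w A l i t = av m g w A (l + 1) (2 * i) t + av m g w A (l + 1) (2 * i + 1) t := by
  unfold av
  rw [← add_div, ← Finset.sum_add_distrib]
  congr 1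
  exact Finset.sum_congr rfl (fun k _ => ix_split m l i (g k t) (w k t))

omit [MeasurableSpace K] in
theorem av_zero (m : ℝ) {g w : ℕ → K → ℝ} (hg : ∀ k t, 0 ≤ g k t ∧ g k t < m) (A : Finset ℕ) (t : K) :
    av m g w A 0 0 t = (∑ k ∈ A, w k t) / (A.card : ℝ) := by
  unfold av
  congr 1
  exact Finset.sum_congr rfl (fun k _ => if_pos (ix_zero m _ (hg k t).1 (hg k t).2))

omit [MeasurableSpace K] in
theorem av_cmp (m L : ℝ) {g w : ℕ → K → ℝ} (hw : ∀ k t, w k t ≤ L)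
    (A : Finset ℕ) (l i : ℕ) (t : K) : av m g w A l i t ≤ L * av m g (fun _ _ => 1) A l i t := by
  unfold av
  rw [← mul_div_assoc, Finset.mul_sum]
  refine div_le_div_of_nonneg_right (Finset.sum_le_sum (fun k _ => ?_)) (Nat.cast_nonneg _)
  split_ifs
  · rw [mul_one]
    exact hw k t
  · rw [mul_zero]

theorem dint {m : ℝ} {g : ℕ → K → ℝ} (hg : ∀ k, Measurable (g k)) {p : ℕ → ℕ → K → ℝ}
    (hp : ∀ l i, Measurable (p l i)) (hpb : ∀ l i t, 0 ≤ p l i t ∧ p l i t ≤ 1) (A : Finset ℕ) (l i : ℕ) :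
    Integrable (fun t => |av m g (fun _ _ => 1) A l i t - p l i t|) μ := by
  refine (bint (g := fun t => av m g (fun _ _ => 1) A l i t - p l i t) 1
    ((av_meas m hg (fun _ => measurable_const) _ _ _).sub (hp _ _)) (fun t => ?_)).abs
  have h1 := hpb l i t
  have h2 := av_nonneg m (g := g) (w := fun _ _ => 1) (fun _ _ => zero_le_one) A l i t
  have h3 := av_le m 1 (g := g) (w := fun _ _ => 1) zero_le_one (fun _ _ => le_rfl) A l i t
  rw [abs_le]
  constructor <;> linarith [h1.1, h1.2]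

/-! ### The strong limits -/

theorem padd {m : ℝ} {g : ℕ → K → ℝ} (hg : ∀ k, Measurable (g k)) {p : ℕ → ℕ → K → ℝ}
    (hp : ∀ l i, Measurable (p l i)) (hpb : ∀ l i t, 0 ≤ p l i t ∧ p l i t ≤ 1)
    (hc : ∀ (l i : ℕ) (η : ℝ), 0 < η → ∃ n₀ : ℕ, ∀ A : Finset ℕ, n₀ ≤ A.card →
      ∫ t, |av m g (fun _ _ => 1) A l i t - p l i t| ∂μ ≤ η) (l i : ℕ) :
    ∀ᵐ t ∂μ, p l i t = p (l + 1) (2 * i) t + p (l + 1) (2 * i + 1) t := by
  have h := abz (μ := μ) (g := fun t => p l i t - (p (l + 1) (2 * i) t + p (l + 1) (2 * i + 1) t)) 3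
    ((hp _ _).sub ((hp _ _).add (hp _ _))) (fun t => by
      have h1 := hpb l i t
      have h2 := hpb (l + 1) (2 * i) t
      have h3 := hpb (l + 1) (2 * i + 1) t
      rw [abs_le]
      constructor <;> linarith [h1.1, h1.2, h2.1, h2.2, h3.1, h3.2]) (fun η hη => by
      obtain ⟨n₁, h₁⟩ := hc l i (η / 3) (by positivity)
      obtain ⟨n₂, h₂⟩ := hc (l + 1) (2 * i) (η / 3) (by positivity)
      obtain ⟨n₃, h₃⟩ := hc (l + 1) (2 * i + 1) (η / 3) (by positivity)
      have e₁ := h₁ (Finset.range (n₁ + n₂ + n₃)) (by rw [Finset.card_range]; omega)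
      have e₂ := h₂ (Finset.range (n₁ + n₂ + n₃)) (by rw [Finset.card_range]; omega)
      have e₃ := h₃ (Finset.range (n₁ + n₂ + n₃)) (by rw [Finset.card_range]; omega)
      have hint : ∀ l' i' : ℕ, Integrable (fun t => |av m g (fun _ _ => 1) (Finset.range (n₁ + n₂ + n₃)) l' i' t - p l' i' t|) μ :=
        fun l' i' => dint hg hp hpb _ l' i'
      calc ∫ t, |p l i t - (p (l + 1) (2 * i) t + p (l + 1) (2 * i + 1) t)| ∂μ
          ≤ ∫ t, (|av m g (fun _ _ => 1) (Finset.range (n₁ + n₂ + n₃)) l i t - p l i t| +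
              |av m g (fun _ _ => 1) (Finset.range (n₁ + n₂ + n₃)) (l + 1) (2 * i) t - p (l + 1) (2 * i) t| +
              |av m g (fun _ _ => 1) (Finset.range (n₁ + n₂ + n₃)) (l + 1) (2 * i + 1) t - p (l + 1) (2 * i + 1) t|) ∂μ := by
            refine integral_mono (bint (g := fun t => p l i t - (p (l + 1) (2 * i) t + p (l + 1) (2 * i + 1) t)) 3
              ((hp _ _).sub ((hp _ _).add (hp _ _))) (fun t => by
              have h1 := hpb l i t
              have h2 := hpb (l + 1) (2 * i) t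
              have h3 := hpb (l + 1) (2 * i + 1) t
              rw [abs_le]
              constructor <;> linarith [h1.1, h1.2, h2.1, h2.2, h3.1, h3.2])).abs
              (((hint _ _).add (hint _ _)).add (hint _ _)) (fun t => ?_)
            have ha := av_add m g (fun _ _ => 1) (Finset.range (n₁ + n₂ + n₃)) l i t
            show |p l i t - (p (l + 1) (2 * i) t + p (l + 1) (2 * i + 1) t)| ≤
              |av m g (fun _ _ => 1) (Finset.range (n₁ + n₂ + n₃)) l i t - p l i t| +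
              |av m g (fun _ _ => 1) (Finset.range (n₁ + n₂ + n₃)) (l + 1) (2 * i) t - p (l + 1) (2 * i) t| +
              |av m g (fun _ _ => 1) (Finset.range (n₁ + n₂ + n₃)) (l + 1) (2 * i + 1) t - p (l + 1) (2 * i + 1) t|
            generalize av m g (fun _ _ => 1) (Finset.range (n₁ + n₂ + n₃)) l i t = x at *
            generalize av m g (fun _ _ => 1) (Finset.range (n₁ + n₂ + n₃)) (l + 1) (2 * i) t = y at *
            generalize av m g (fun _ _ => 1) (Finset.range (n₁ + n₂ + n₃)) (l + 1) (2 * i + 1) t = z at *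
            rw [abs_le]
            have a1 := abs_le.1 (le_refl |x - p l i t|)
            have a2 := abs_le.1 (le_refl |y - p (l + 1) (2 * i) t|)
            have a3 := abs_le.1 (le_refl |z - p (l + 1) (2 * i + 1) t|)
            constructor <;> linarith [a1.1, a1.2, a2.1, a2.2, a3.1, a3.2]
        _ = ∫ t, |av m g (fun _ _ => 1) (Finset.range (n₁ + n₂ + n₃)) l i t - p l i t| ∂μ +
              ∫ t, |av m g (fun _ _ => 1) (Finset.range (n₁ + n₂ + n₃)) (l + 1) (2 * i) t - p (l + 1) (2 * i) t| ∂μ +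
              ∫ t, |av m g (fun _ _ => 1) (Finset.range (n₁ + n₂ + n₃)) (l + 1) (2 * i + 1) t - p (l + 1) (2 * i + 1) t| ∂μ := by
            exact int3 (hint _ _) (hint _ _) (hint _ _)
        _ ≤ η := by linarith)
  filter_upwards [h] with t ht
  linarith

theorem pone {m : ℝ} {g : ℕ → K → ℝ} (hgm : ∀ k t, 0 ≤ g k t ∧ g k t < m) {p : ℕ → ℕ → K → ℝ}
    (hp : ∀ l i, Measurable (p l i)) (hpb : ∀ l i t, 0 ≤ p l i t ∧ p l i t ≤ 1)
    (hc : ∀ (l i : ℕ) (η : ℝ), 0 < η → ∃ n₀ : ℕ, ∀ A : Finset ℕ, n₀ ≤ A.card →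
      ∫ t, |av m g (fun _ _ => 1) A l i t - p l i t| ∂μ ≤ η) :
    ∀ᵐ t ∂μ, p 0 0 t = 1 := by
  have h := abz (μ := μ) (g := fun t => 1 - p 0 0 t) 1 (measurable_const.sub (hp _ _)) (fun t => by
      have h1 := hpb 0 0 t
      rw [abs_le]
      constructor <;> linarith [h1.1, h1.2]) (fun η hη => by
      obtain ⟨n₁, h₁⟩ := hc 0 0 η hη
      have e₁ := h₁ (Finset.range (n₁ + 1)) (by rw [Finset.card_range]; omega)
      have e₂ : ∀ t, av m g (fun _ _ => 1) (Finset.range (n₁ + 1)) 0 0 t = 1 := fun t => by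
        rw [av_zero m hgm, Finset.sum_const, Finset.card_range, nsmul_eq_mul, mul_one]
        exact div_self (by positivity)
      simp only [e₂] at e₁
      exact e₁)
  filter_upwards [h] with t ht
  linarith

/-! ### The weak limits -/

theorem aadd {m L : ℝ} (hL : 0 ≤ L) {g : ℕ → K → ℝ} (hg : ∀ k, Measurable (g k)) {A : ℕ → Finset ℕ} {r : ℕ → ℕ → K → ℝ}
    (hr : ∀ n k, Measurable (r n k)) (hrL : ∀ n k t, 0 ≤ r n k t ∧ r n k t ≤ L) {U : Ultrafilter ℕ} {a : ℕ → ℕ → K → ℝ}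
    (ha : ∀ l i, Measurable (a l i)) (hab : ∀ l i t, 0 ≤ a l i t ∧ a l i t ≤ L)
    (hw : ∀ (l i : ℕ) (ψ : K → ℝ), Measurable ψ → (∃ C : ℝ, ∀ t, |ψ t| ≤ C) →
      Tendsto (fun n : ℕ => ∫ t, av m g (r n) (A n) l i t * ψ t ∂μ) U (𝓝 (∫ t, a l i t * ψ t ∂μ))) (l i : ℕ) :
    ∀ᵐ t ∂μ, a l i t = a (l + 1) (2 * i) t + a (l + 1) (2 * i + 1) t := by
  have hψm : Measurable (fun t => a l i t - (a (l + 1) (2 * i) t + a (l + 1) (2 * i + 1) t)) :=
    (ha _ _).sub ((ha _ _).add (ha _ _))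
  have hψb : ∀ t, |a l i t - (a (l + 1) (2 * i) t + a (l + 1) (2 * i + 1) t)| ≤ 3 * L := fun t => by
    have h1 := hab l i t
    have h2 := hab (l + 1) (2 * i) t
    have h3 := hab (l + 1) (2 * i + 1) t
    rw [abs_le]
    constructor <;> linarith [h1.1, h1.2, h2.1, h2.2, h3.1, h3.2]
  generalize hψ : (fun t => a l i t - (a (l + 1) (2 * i) t + a (l + 1) (2 * i + 1) t)) = ψ at hψm
  have hψb' : ∀ t, |ψ t| ≤ 3 * L := fun t => by rw [← hψ]; exact hψb t
  have hprod : ∀ b : K → ℝ, Measurable b → (∀ t, 0 ≤ b t ∧ b t ≤ L) → Integrable (fun t => b t * ψ t) μ :=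
    fun b hb hbb => bint (L * (3 * L)) (hb.mul hψm) (fun t => by
      rw [abs_mul, abs_of_nonneg (hbb t).1]
      exact mul_le_mul (hbb t).2 (hψb' t) (abs_nonneg _) hL)
  have t1 := hw l i ψ hψm ⟨_, hψb'⟩
  have t2 := (hw (l + 1) (2 * i) ψ hψm ⟨_, hψb'⟩).add (hw (l + 1) (2 * i + 1) ψ hψm ⟨_, hψb'⟩)
  have hav : ∀ n l' i', Integrable (fun t => av m g (r n) (A n) l' i' t * ψ t) μ := fun n l' i' =>
    hprod _ (av_meas m hg (hr n) _ _ _) (fun t => ⟨av_nonneg m (fun k t => (hrL n k t).1) _ _ _ t,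
      av_le m L hL (fun k t => (hrL n k t).2) _ _ _ t⟩)
  have heq : (fun n : ℕ => ∫ t, av m g (r n) (A n) l i t * ψ t ∂μ) = fun n : ℕ =>
      ∫ t, av m g (r n) (A n) (l + 1) (2 * i) t * ψ t ∂μ + ∫ t, av m g (r n) (A n) (l + 1) (2 * i + 1) t * ψ t ∂μ := by
    funext n
    rw [← integral_add (hav _ _ _) (hav _ _ _)]
    refine integral_congr_ae (ae_of_all _ (fun t => ?_))
    show av m g (r n) (A n) l i t * ψ t = _
    rw [av_add, add_mul]
  rw [heq] at t1
  have hu := tendsto_nhds_unique t1 t2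
  have hz : ∫ t, ψ t * ψ t ∂μ ≤ 0 := by
    have e : ∫ t, ψ t * ψ t ∂μ = ∫ t, a l i t * ψ t ∂μ -
        (∫ t, a (l + 1) (2 * i) t * ψ t ∂μ + ∫ t, a (l + 1) (2 * i + 1) t * ψ t ∂μ) := by
      rw [← ints (hprod _ (ha _ _) (hab _ _)) (hprod _ (ha _ _) (hab _ _)) (hprod _ (ha _ _) (hab _ _))]
      refine integral_congr_ae (ae_of_all _ (fun t => ?_))
      show ψ t * ψ t = a l i t * ψ t - (a (l + 1) (2 * i) t * ψ t + a (l + 1) (2 * i + 1) t * ψ t)
      have e1 : ψ t = a l i t - (a (l + 1) (2 * i) t + a (l + 1) (2 * i + 1) t) := by rw [← hψ]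
      generalize ψ t = y at e1
      subst e1
      ring
    rw [e, hu]
    simp
  have h := sqz (3 * L) hψm hψb' hz
  filter_upwards [h] with t ht
  have e1 : ψ t = a l i t - (a (l + 1) (2 * i) t + a (l + 1) (2 * i + 1) t) := by rw [← hψ]
  linarith

theorem ale {m L : ℝ} (hL : 0 ≤ L) {g : ℕ → K → ℝ} (hg : ∀ k, Measurable (g k)) {A : ℕ → Finset ℕ} (hA : ∀ n, (A n).card = n)
    {r : ℕ → ℕ → K → ℝ}
    (hr : ∀ n k, Measurable (r n k)) (hrL : ∀ n k t, 0 ≤ r n k t ∧ r n k t ≤ L) {U : Ultrafilter ℕ} (hU : (U : Filter ℕ) ≤ atTop)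
    {a p : ℕ → ℕ → K → ℝ}
    (ha : ∀ l i, Measurable (a l i)) (hab : ∀ l i t, 0 ≤ a l i t ∧ a l i t ≤ L)
    (hp : ∀ l i, Measurable (p l i)) (hpb : ∀ l i t, 0 ≤ p l i t ∧ p l i t ≤ 1)
    (hc : ∀ (l i : ℕ) (η : ℝ), 0 < η → ∃ n₀ : ℕ, ∀ A : Finset ℕ, n₀ ≤ A.card →
      ∫ t, |av m g (fun _ _ => 1) A l i t - p l i t| ∂μ ≤ η)
    (hw : ∀ (l i : ℕ) (ψ : K → ℝ), Measurable ψ → (∃ C : ℝ, ∀ t, |ψ t| ≤ C) →
      Tendsto (fun n : ℕ => ∫ t, av m g (r n) (A n) l i t * ψ t ∂μ) U (𝓝 (∫ t, a l i t * ψ t ∂μ))) (l i : ℕ) :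
    ∀ᵐ t ∂μ, a l i t ≤ L * p l i t := by
  have hψm : Measurable (fun t => max 0 (a l i t - L * p l i t)) :=
    measurable_const.max ((ha _ _).sub ((hp _ _).const_mul _))
  have hψb : ∀ t, 0 ≤ max 0 (a l i t - L * p l i t) ∧ max 0 (a l i t - L * p l i t) ≤ L := fun t => by
    refine ⟨le_max_left _ _, max_le hL ?_⟩
    have h1 := hab l i t
    have h2 := mul_nonneg hL (hpb l i t).1
    linarith [h1.2]
  generalize hψ : (fun t => max 0 (a l i t - L * p l i t)) = ψ at hψm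
  have hψb' : ∀ t, 0 ≤ ψ t ∧ ψ t ≤ L := fun t => by rw [← hψ]; exact hψb t
  have hψa : ∀ t, |ψ t| ≤ L := fun t => by rw [abs_of_nonneg (hψb' t).1]; exact (hψb' t).2
  have hprod : ∀ (b : K → ℝ) (C : ℝ), Measurable b → (∀ t, 0 ≤ b t ∧ b t ≤ C) → Integrable (fun t => b t * ψ t) μ :=
    fun b C hb hbb => bint (C * L) (hb.mul hψm) (fun t => by
      rw [abs_mul, abs_of_nonneg (hbb t).1]
      exact mul_le_mul (hbb t).2 (hψa t) (abs_nonneg _) (le_trans (hbb t).1 (hbb t).2))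
  have t1 := hw l i ψ hψm ⟨_, hψa⟩
  have hav : ∀ n l' i', Integrable (fun t => av m g (r n) (A n) l' i' t * ψ t) μ := fun n l' i' =>
    hprod _ L (av_meas m hg (hr n) _ _ _) (fun t => ⟨av_nonneg m (fun k t => (hrL n k t).1) _ _ _ t,
      av_le m L hL (fun k t => (hrL n k t).2) _ _ _ t⟩)
  have hle : ∫ t, a l i t * ψ t ∂μ ≤ L * ∫ t, p l i t * ψ t ∂μ := by
    refine le_of_forall_pos_le_add (fun η hη => ?_)
    obtain ⟨n₀, hn₀⟩ := hc l i (η / (L * L + 1)) (by positivity)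
    have hev : ∀ᶠ n in (U : Filter ℕ), ∫ t, av m g (r n) (A n) l i t * ψ t ∂μ ≤ L * ∫ t, p l i t * ψ t ∂μ + η := by
      refine hU ?_
      refine (eventually_ge_atTop n₀).mono (fun n hn => ?_)
      have h1 := hn₀ (A n) (by rw [hA]; exact hn)
      have hdi : Integrable (fun t => |av m g (fun _ _ => 1) (A n) l i t - p l i t|) μ := dint hg hp hpb _ l i
      calc ∫ t, av m g (r n) (A n) l i t * ψ t ∂μ
          ≤ ∫ t, (L * (p l i t * ψ t) + L * L * |av m g (fun _ _ => 1) (A n) l i t - p l i t|) ∂μ := by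
            refine integral_mono (hav _ _ _) (((hprod _ 1 (hp _ _) (hpb _ _)).const_mul L).add (hdi.const_mul (L * L))) (fun t => ?_)
            show av m g (r n) (A n) l i t * ψ t ≤ L * (p l i t * ψ t) + L * L * |av m g (fun _ _ => 1) (A n) l i t - p l i t|
            have c1 := av_cmp m L (g := g) (w := r n) (fun k t => (hrL n k t).2) (A n) l i t
            have c2 := le_abs_self (av m g (fun _ _ => 1) (A n) l i t - p l i t)
            have c3 := abs_nonneg (av m g (fun _ _ => 1) (A n) l i t - p l i t)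
            generalize |av m g (fun _ _ => 1) (A n) l i t - p l i t| = D at *
            have c4 : av m g (r n) (A n) l i t ≤ L * (p l i t + D) :=
              le_trans c1 (mul_le_mul_of_nonneg_left (by linarith) hL)
            have c5 := mul_le_mul_of_nonneg_right c4 (hψb' t).1
            have c6 : L * D * ψ t ≤ L * D * L := mul_le_mul_of_nonneg_left (hψb' t).2 (mul_nonneg hL c3)
            nlinarith [c5, c6]
        _ = L * ∫ t, p l i t * ψ t ∂μ + L * L * ∫ t, |av m g (fun _ _ => 1) (A n) l i t - p l i t| ∂μ := by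
            rw [integral_add ((hprod _ 1 (hp _ _) (hpb _ _)).const_mul L) (hdi.const_mul (L * L)),
              integral_const_mul, integral_const_mul]
        _ ≤ L * ∫ t, p l i t * ψ t ∂μ + η := by
            have h2 : L * L * ∫ t, |av m g (fun _ _ => 1) (A n) l i t - p l i t| ∂μ ≤ L * L * (η / (L * L + 1)) :=
              mul_le_mul_of_nonneg_left h1 (by positivity)
            have h3 : L * L * (η / (L * L + 1)) ≤ η := by
              rw [← mul_div_assoc, div_le_iff₀ (by positivity)]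
              nlinarith [hη.le]
            linarith
    exact le_of_tendsto t1 hev
  have hz : ∫ t, ψ t * ψ t ∂μ ≤ 0 := by
    have e : ∫ t, ψ t * ψ t ∂μ = ∫ t, a l i t * ψ t ∂μ - L * ∫ t, p l i t * ψ t ∂μ := by
      rw [← integral_const_mul, ← integral_sub (hprod _ L (ha _ _) (hab _ _)) ((hprod _ 1 (hp _ _) (hpb _ _)).const_mul L)]
      refine integral_congr_ae (ae_of_all _ (fun t => ?_))
      show ψ t * ψ t = a l i t * ψ t - L * (p l i t * ψ t)
      have e1 : ψ t = max 0 (a l i t - L * p l i t) := by rw [← hψ]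
      generalize ψ t = y at e1
      rcases le_total (a l i t - L * p l i t) 0 with h0 | h0
      · rw [max_eq_left h0] at e1
        rw [e1]
        ring
      · rw [max_eq_right h0] at e1
        rw [e1]
        ring
    rw [e]
    linarith
  have h := sqz L hψm hψa hz
  filter_upwards [h] with t ht
  have e1 : ψ t = max 0 (a l i t - L * p l i t) := by rw [← hψ]
  have e2 := le_max_right 0 (a l i t - L * p l i t)
  linarith

theorem atot {m L τ : ℝ} {g : ℕ → K → ℝ} (hgm : ∀ k t, 0 ≤ g k t ∧ g k t < m)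
    {A : ℕ → Finset ℕ} (hA : ∀ n, (A n).card = n) {r : ℕ → ℕ → K → ℝ}
    (hr : ∀ n k, Measurable (r n k)) (hrL : ∀ n k t, 0 ≤ r n k t ∧ r n k t ≤ L)
    (hτ : ∀ n, ∀ k ∈ A n, τ ≤ ∫ t, r n k t ∂μ) {U : Ultrafilter ℕ} (hU : (U : Filter ℕ) ≤ atTop)
    {a : ℕ → ℕ → K → ℝ}
    (hw : ∀ (l i : ℕ) (ψ : K → ℝ), Measurable ψ → (∃ C : ℝ, ∀ t, |ψ t| ≤ C) →
      Tendsto (fun n : ℕ => ∫ t, av m g (r n) (A n) l i t * ψ t ∂μ) U (𝓝 (∫ t, a l i t * ψ t ∂μ))) :
    τ ≤ ∫ t, a 0 0 t ∂μ := by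
  have t1 := hw 0 0 (fun _ => 1) measurable_const ⟨1, fun t => by simp⟩
  simp only [mul_one] at t1
  refine ge_of_tendsto t1 (hU ?_)
  refine (eventually_ge_atTop 1).mono (fun n hn => ?_)
  have hn' : (0 : ℝ) < (n : ℝ) := by exact_mod_cast hn
  have hi : ∀ k ∈ A n, Integrable (r n k) μ := fun k _ => bint L (hr n k) (fun t => by
    rw [abs_of_nonneg (hrL n k t).1]; exact (hrL n k t).2)
  have e : ∫ t, av m g (r n) (A n) 0 0 t ∂μ = (∑ k ∈ A n, ∫ t, r n k t ∂μ) / (n : ℝ) := by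
    rw [← integral_finsetSum _ hi, ← integral_div]
    refine integral_congr_ae (ae_of_all _ (fun t => ?_))
    show av m g (r n) (A n) 0 0 t = (∑ k ∈ A n, r n k t) / (n : ℝ)
    rw [av_zero m hgm, hA]
  rw [e, le_div_iff₀ hn']
  calc τ * (n : ℝ) = ∑ k ∈ A n, τ := by rw [Finset.sum_const, hA, nsmul_eq_mul, mul_comm]
    _ ≤ ∑ k ∈ A n, ∫ t, r n k t ∂μ := Finset.sum_le_sum (fun k hk => hτ n k hk)

/-! ### Nested intervals -/

theorem fex {s : ℕ → K → ℕ} (hs : ∀ l, Measurable (s l))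
    (h1 : ∀ l t, s (l + 1) t = 2 * s l t ∨ s (l + 1) t = 2 * s l t + 1) {m : ℝ} (hm : 0 < m) :
    ∃ F : K → ℝ, Measurable F ∧ ∀ l t, m * (s l t : ℝ) / 2 ^ l ≤ F t ∧ F t ≤ m * ((s l t : ℝ) + 1) / 2 ^ l := by
  have hmono : ∀ t, Monotone (fun l : ℕ => m * (s l t : ℝ) / 2 ^ l) := fun t => by
    refine monotone_nat_of_le_succ (fun l => ?_)
    have h2 : (0 : ℝ) < 2 ^ l := by positivity
    have h3 : 2 * (s l t : ℝ) ≤ (s (l + 1) t : ℝ) := by
      have : 2 * s l t ≤ s (l + 1) t := by rcases h1 l t with h | h <;> omega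
      exact_mod_cast this
    rw [div_le_div_iff₀ h2 (by positivity), pow_succ]
    have h4 := mul_le_mul_of_nonneg_left h3 (mul_nonneg hm.le h2.le)
    nlinarith [h4]
  have hanti : ∀ t, Antitone (fun l : ℕ => m * ((s l t : ℝ) + 1) / 2 ^ l) := fun t => by
    refine antitone_nat_of_succ_le (fun l => ?_)
    have h2 : (0 : ℝ) < 2 ^ l := by positivity
    have h3 : (s (l + 1) t : ℝ) + 1 ≤ 2 * (s l t : ℝ) + 2 := by
      have : s (l + 1) t + 1 ≤ 2 * s l t + 2 := by rcases h1 l t with h | h <;> omega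
      exact_mod_cast this
    rw [div_le_div_iff₀ (by positivity) h2, pow_succ]
    have h4 := mul_le_mul_of_nonneg_left h3 (mul_nonneg hm.le h2.le)
    nlinarith [h4]
  have hcd : ∀ t l l', m * (s l t : ℝ) / 2 ^ l ≤ m * ((s l' t : ℝ) + 1) / 2 ^ l' := fun t l l' => by
    have a1 := hmono t (le_max_left l l')
    have a2 := hanti t (le_max_right l l')
    have a3 : m * (s (max l l') t : ℝ) / 2 ^ (max l l') ≤ m * ((s (max l l') t : ℝ) + 1) / 2 ^ (max l l') := by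
      refine div_le_div_of_nonneg_right ?_ (by positivity)
      nlinarith
    exact le_trans a1 (le_trans a3 a2)
  refine ⟨fun t => ⨆ l : ℕ, m * (s l t : ℝ) / 2 ^ l, ?_, fun l t => ⟨?_, ?_⟩⟩
  · refine Measurable.iSup (fun l => ?_)
    exact ((measurable_from_nat.comp (hs l) : Measurable (fun t => ((s l t : ℕ) : ℝ))).const_mul m).div_const _
  · exact le_ciSup (f := fun l : ℕ => m * (s l t : ℝ) / 2 ^ l) ⟨m * ((s 0 t : ℝ) + 1) / 2 ^ 0, by
      rintro _ ⟨l', rfl⟩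
      exact hcd t l' 0⟩ l
  · exact ciSup_le (fun l' => hcd t l' l)

omit [MeasurableSpace K] in
theorem slt {s : ℕ → K → ℕ} (h0 : ∀ t, s 0 t = 0)
    (h1 : ∀ l t, s (l + 1) t = 2 * s l t ∨ s (l + 1) t = 2 * s l t + 1) (l : ℕ) (t : K) : s l t < 2 ^ l := by
  induction l with
  | zero => rw [h0, pow_zero]; exact one_pos
  | succ l ih =>
    rw [pow_succ]
    rcases h1 l t with h | h <;> omega

end

end SELM

theorem specSEL (hWLM : SpecWLM) (hCES : SpecCES) (hNST : SpecNST) (hLOW : SpecLOW) : SpecSEL := by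
  intro K _ μ _ m f hm hf hfm
  obtain ⟨κ, P, hκ, hPm, hPb, hPc⟩ := hCES K μ
    (fun n k t => if ix m n.unpair.1 (f k t) = n.unpair.2 then 1 else 0)
    (fun n k => Measurable.ite (measurableSet_eq_fun (SELM.ix_meas m _ (hf k)) measurable_const)
      measurable_const measurable_const)
    (fun n k t => by
      show (0 : ℝ) ≤ (if _ then _ else _) ∧ (if _ then _ else _) ≤ (1 : ℝ)
      split_ifs
      · exact ⟨zero_le_one, le_rfl⟩
      · exact ⟨le_rfl, zero_le_one⟩)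
  refine ⟨κ, hκ, ?_⟩
  intro L τ A r hL hτ hA hr hrL hτr
  have hg : ∀ k, Measurable (f (κ k)) := fun k => hf _
  have hgm : ∀ k t, 0 ≤ f (κ k) t ∧ f (κ k) t < m := fun k t => hfm _ t
  have hp : ∀ l i, Measurable (P (Nat.pair l i)) := fun l i => hPm _
  have hpb : ∀ l i t, 0 ≤ P (Nat.pair l i) t ∧ P (Nat.pair l i) t ≤ 1 := fun l i t => hPb _ t
  have hc : ∀ (l i : ℕ) (η : ℝ), 0 < η → ∃ n₀ : ℕ, ∀ A : Finset ℕ, n₀ ≤ A.card →
      ∫ t, |SELM.av m (fun k => f (κ k)) (fun _ _ => 1) A l i t - P (Nat.pair l i) t| ∂μ ≤ η := by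
    intro l i η hη
    obtain ⟨n₀, hn₀⟩ := hPc (Nat.pair l i) η hη
    refine ⟨n₀, fun A' hA' => ?_⟩
    have h := hn₀ A' hA'
    simp only [Nat.unpair_pair] at h
    exact h
  have hUex : ∃ U : Ultrafilter ℕ, (U : Filter ℕ) ≤ atTop := ⟨Ultrafilter.of atTop, Ultrafilter.of_le _⟩
  obtain ⟨U, hU⟩ := hUex
  have hW : ∀ l i : ℕ, ∃ a : K → ℝ, Measurable a ∧ (∀ t, 0 ≤ a t ∧ a t ≤ L) ∧
      ∀ ψ : K → ℝ, Measurable ψ → (∃ C : ℝ, ∀ t, |ψ t| ≤ C) →
        Tendsto (fun n : ℕ => ∫ t, SELM.av m (fun k => f (κ k)) (r n) (A n) l i t * ψ t ∂μ) U (𝓝 (∫ t, a t * ψ t ∂μ)) :=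
    fun l i => hWLM K μ L (fun n => SELM.av m (fun k => f (κ k)) (r n) (A n) l i) hL.le
      (fun n => SELM.av_meas m hg (hr n) _ _ _)
      (fun n t => ⟨SELM.av_nonneg m (fun k t => (hrL n k t).1) _ _ _ t,
        SELM.av_le m L hL.le (fun k t => (hrL n k t).2) _ _ _ t⟩) U
  choose a ha hab hw using hW
  obtain ⟨s, hs, hs0, hs1, hsa⟩ := hNST K μ L (fun l i => P (Nat.pair l i)) a hL hp ha
    (fun l i t => (hpb l i t).1) (fun l i t => (hab l i t).1)
    (SELM.ale hL.le hg hA hr hrL hU ha hab hp hpb hc hw)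
    (SELM.padd hg hp hpb hc)
    (SELM.aadd hL.le hg hr hrL ha hab hw)
    (SELM.pone hgm hp hpb hc)
  have htot := SELM.atot hgm hA hr hrL hτr hU hw
  obtain ⟨F, hF, hFb⟩ := SELM.fex hs hs1 hm
  refine ⟨F, hF, fun t => ?_, ?_⟩
  · have h := hFb 0 t
    rw [hs0] at h
    simpa using h
  intro η n₀ hη
  obtain ⟨l, hl⟩ : ∃ l : ℕ, m / 2 ^ l ≤ η := by
    obtain ⟨l, hl⟩ := pow_unbounded_of_one_lt (m / η) (one_lt_two : (1 : ℝ) < 2)
    refine ⟨l, ?_⟩
    rw [div_le_iff₀ (by positivity)]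
    rw [div_lt_iff₀ hη] at hl
    linarith
  have hlow := hLOW K μ L (2 ^ l) (fun k t => ix m l (f (κ k) t)) (s l) (fun i => P (Nat.pair l i)) (a l) (a 0 0) A r U hL hU
    (fun k => SELM.ix_meas m l (hg k)) (hs l) (SELM.slt hs0 hs1 l) (hp l) (hpb l) (ha l) (hab l) (ha 0 0) (hab 0 0) hA hr hrL
    (fun i η' hη' => hc l i η' hη')
    (fun i ψ hψ hψC => by
      have h := hw l i ψ hψ hψC
      have e : (fun n : ℕ => ∫ t, SELM.av m (fun k => f (κ k)) (r n) (A n) l i t * ψ t ∂μ) =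
          (fun n : ℕ => ∫ t, (∑ k ∈ A n, if ix m l (f (κ k) t) = i then r n k t else 0) / (n : ℝ) * ψ t ∂μ) := by
        funext n
        unfold SELM.av
        rw [hA n]
      rw [e] at h
      exact h)
    (by filter_upwards [hsa] with t ht using ht l) η hη
  have hev : ∀ᶠ n in (U : Filter ℕ), n₀ ≤ n := hU (eventually_ge_atTop n₀)
  obtain ⟨n, hn, hB⟩ := (hev.and hlow).exists
  obtain ⟨B, hBm, hBd, hBj, hBi⟩ := hB
  refine ⟨n, hn, B, hBm, hBd, fun k t ht => ?_, le_trans (by linarith) hBi⟩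
  have e := hBj k t ht
  have b1 := SELM.ix_low m l (f (κ k) t) hm (hgm k t).1
  have b2 := SELM.ix_upp m l (f (κ k) t) hm
  have b3 := hFb l t
  rw [show ix m l (f (κ k) t) = s l t from e] at b1 b2
  have b4 : m * ((s l t : ℝ) + 1) / 2 ^ l = m * (s l t : ℝ) / 2 ^ l + m / 2 ^ l := by ring
  rw [b4] at b2 b3
  rw [abs_le]
  constructor <;> linarith [b3.1, b3.2]

end

end Pool.Agent.Lib.MP5bcdfb.VX
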